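import Pool.Agent.Zk55.RF.Geo

set_option autoImplicit false

/-!
Averages over the lines near a vertex: from mean convergence to convergence of the mean values and to
small sets.
-/

namespace Pool.Agent.Zk55.RF

open Complex Set MeasureTheory Filter Topology Pool.Agent.W780.PG Pool.Agent.W780.BB
  Pool.Agent.TH578.BE Pool.Agent.K3h17.BK Pool.Agent.Zk55.CF

open scoped Real ComplexConjugate

variable {n : ℕ} {p : Fin (n + 3) → ℂ} {χ : Fin (n + 3) → ℂ} {f : ℂ × ℝ → ℂ}

/-- Markov's inequality on a rectangle. -/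
theorem markov {u : ℝ × ℝ → ℝ} (hu : Measurable u) (h0 : ∀ x, 0 ≤ u x) (h2 : ∀ x, u x ≤ 2)
    {η R : ℝ} (hη : 0 < η) (hR : 0 ≤ R) :
    volume {x : ℝ × ℝ | x.1 ∈ Ico 0 (2 * π) ∧ x.2 ∈ Ioo 0 R ∧ η < u x} ≤
      ENNReal.ofReal ((1 / η) * ∫ s in (0 : ℝ)..R, ∫ θ in (0 : ℝ)..(2 * π), u (θ, s)) := by
  have hpi := Real.pi_pos
  have hpi2 : (0 : ℝ) ≤ 2 * π := by positivity
  set μ : Measure (ℝ × ℝ) := (volume.restrict (Ico 0 (2 * π))).prod (volume.restrict (Ioo 0 R))
    with hμ
  haveI : IsFiniteMeasure (volume.restrict (Ico (0 : ℝ) (2 * π))) :=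
    ⟨by rw [Measure.restrict_apply_univ]; exact measure_Ico_lt_top⟩
  haveI : IsFiniteMeasure (volume.restrict (Ioo (0 : ℝ) R)) :=
    ⟨by rw [Measure.restrict_apply_univ]; exact measure_Ioo_lt_top⟩
  have hμr : μ = volume.restrict (Ico 0 (2 * π) ×ˢ Ioo 0 R) := by
    rw [hμ, Measure.prod_restrict, Measure.volume_eq_prod]
  have hi : Integrable u μ := by
    refine (integrable_const (2 : ℝ)).mono' hu.aestronglyMeasurable
      (Filter.Eventually.of_forall fun x => ?_)
    rw [Real.norm_eq_abs, abs_of_nonneg (h0 x)]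
    exact h2 x
  have e1 : volume {x : ℝ × ℝ | x.1 ∈ Ico 0 (2 * π) ∧ x.2 ∈ Ioo 0 R ∧ η < u x} =
      μ {x | η < u x} := by
    rw [hμr, Measure.restrict_apply (measurableSet_lt measurable_const hu)]
    congr 1
    ext x
    constructor
    · rintro ⟨a1, a2, a3⟩
      exact ⟨a3, a1, a2⟩
    · rintro ⟨a3, a1, a2⟩
      exact ⟨a1, a2, a3⟩
  have e2 : ∫ x, u x ∂μ = ∫ s in (0 : ℝ)..R, ∫ θ in (0 : ℝ)..(2 * π), u (θ, s) := by
    rw [hμ, integral_prod_symm _ hi, intervalIntegral.integral_of_le hR,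
      integral_Ioc_eq_integral_Ioo]
    refine integral_congr_ae (Filter.Eventually.of_forall fun s => ?_)
    simp only
    rw [intervalIntegral.integral_of_le hpi2, integral_Ioc_eq_integral_Ioo,
      integral_Ico_eq_integral_Ioo]
  have h3 := mul_meas_ge_le_integral_of_nonneg (Filter.Eventually.of_forall h0) hi η
  rw [e2] at h3
  have h4 : μ {x | η < u x} ≤ μ {x | η ≤ u x} := measure_mono fun x (hx : η < u x) => (show η ≤ u x from hx.le)
  rw [e1]
  refine h4.trans ?_
  have h5 : μ {x | η ≤ u x} ≠ ⊤ := measure_ne_top _ _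
  rw [← ENNReal.ofReal_toReal h5]
  apply ENNReal.ofReal_le_ofReal
  rw [one_div, inv_mul_eq_div, le_div_iff₀ hη, mul_comm]
  exact h3

/-- The deviation. -/
noncomputable def dev (p : Fin (n + 3) → ℂ) (f : ℂ × ℝ → ℂ) (j : Fin (n + 3)) (ε : ℝ)
    (L : ℝ → ℂ) (x : ℝ × ℝ) : ℝ :=
  (Inc p j).indicator (fun θ => ‖Kv p f j (θ, ε * x.2) - L θ‖) x.1

theorem dev_meas (hp : IsConvexPolygon p) (hf : Measurable f) (j : Fin (n + 3)) (ε : ℝ)
    {L : ℝ → ℂ} (hL : Measurable L) : Measurable (dev p f j ε L) := by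
  have e : dev p f j ε L = (Prod.fst ⁻¹' Inc p j).indicator
      (fun x : ℝ × ℝ => ‖Kv p f j (x.1, ε * x.2) - L x.1‖) := by
    ext x
    rfl
  rw [e]
  refine Measurable.indicator ?_ (measurable_fst (inc_meas j))
  exact (((Kv_meas hp hf j).comp (measurable_fst.prodMk (measurable_snd.const_mul _))).sub
    (hL.comp measurable_fst)).norm

theorem dev_nonneg (j : Fin (n + 3)) (ε : ℝ) (L : ℝ → ℂ) (x : ℝ × ℝ) : 0 ≤ dev p f j ε L x := by
  unfold dev
  exact indicator_nonneg (fun _ _ => norm_nonneg _) _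

theorem dev_le (hp : IsConvexPolygon p) (hE : IsEigenfunction p 0 χ f) (hb : ∀ x, ‖f x‖ ≤ 1)
    (j : Fin (n + 3)) (ε : ℝ) {L : ℝ → ℂ} (hL : ∀ θ, ‖L θ‖ ≤ 1) (x : ℝ × ℝ) :
    dev p f j ε L x ≤ 2 := by
  unfold dev
  refine indicator_apply_le' (fun _ => ?_) (fun _ => by norm_num)
  linarith [norm_sub_le (Kv p f j (x.1, ε * x.2)) (L x.1), Kv_bound hp hE hb j (x.1, ε * x.2),
    hL x.1]

/-- Convergence of the mean values. -/
theorem lim_Kp (hp : IsConvexPolygon p) (hf : Measurable f) (hb : ∀ x, ‖f x‖ ≤ 1)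
    (hE : IsEigenfunction p 0 χ f) (j : Fin (n + 3)) (ε : ℝ) {L : ℝ → ℂ} (hL : Measurable L)
    (hLb : ∀ θ, ‖L θ‖ ≤ 1) (h : Tendsto (fun r : ℝ => (1 / r) * ∫ s in (0 : ℝ)..r,
        ∫ θ in (0 : ℝ)..(2 * π), (Inc p j).indicator (fun θ => ‖Kv p f j (θ, ε * s) - L θ‖) θ)
        (𝓝[>] 0) (𝓝 0)) :
    Tendsto (fun ρ : ℝ => ∫ θ in (0 : ℝ)..(2 * π), (Inc p j).indicator
      (fun θ => ‖Kp p f j (ε * ρ) θ - L θ‖) θ) (𝓝[>] 0) (𝓝 0) := by
  have hpi := Real.pi_pos
  have hpi2 : (0 : ℝ) ≤ 2 * π := by positivity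
  have hdm := dev_meas hp hf j ε hL
  have hd0 := dev_nonneg (p := p) (f := f) j ε L
  have hd2 := dev_le hp hE hb j ε hLb
  refine tendsto_of_tendsto_of_tendsto_of_le_of_le' tendsto_const_nhds h ?_ ?_
  · refine Filter.Eventually.of_forall fun ρ => ?_
    exact intervalIntegral.integral_nonneg hpi2 fun θ _ => indicator_nonneg (fun _ _ => norm_nonneg _) _
  · filter_upwards [self_mem_nhdsWithin] with ρ hρ
    have hρ0 : (0 : ℝ) < ρ := hρ
    haveI : IsFiniteMeasure (volume.restrict (Ioc (0 : ℝ) (2 * π))) :=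
      ⟨by rw [Measure.restrict_apply_univ]; exact measure_Ioc_lt_top⟩
    haveI : IsFiniteMeasure (volume.restrict (Ioc (0 : ℝ) ρ)) :=
      ⟨by rw [Measure.restrict_apply_univ]; exact measure_Ioc_lt_top⟩
    have hI : Integrable (Function.uncurry fun (s : ℝ) (θ : ℝ) => dev p f j ε L (θ, s))
        ((volume.restrict (Ioc 0 ρ)).prod (volume.restrict (Ioc 0 (2 * π)))) := by
      refine (integrable_const (2 : ℝ)).mono' (hdm.comp measurable_swap).aestronglyMeasurable
        (Filter.Eventually.of_forall fun x => ?_)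
      rw [Real.norm_eq_abs]
      show |dev p f j ε L (x.2, x.1)| ≤ 2
      rw [abs_of_nonneg (hd0 _)]
      exact hd2 _
    have e1 : ∫ s in (0 : ℝ)..ρ, ∫ θ in (0 : ℝ)..(2 * π), (Inc p j).indicator
        (fun θ => ‖Kv p f j (θ, ε * s) - L θ‖) θ =
        ∫ θ in (0 : ℝ)..(2 * π), ∫ s in (0 : ℝ)..ρ, dev p f j ε L (θ, s) := by
      simp only [intervalIntegral.integral_of_le hpi2, intervalIntegral.integral_of_le hρ0.le]
      exact integral_integral_swap hI
    rw [e1, ← intervalIntegral.integral_const_mul]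
    refine intervalIntegral.integral_mono_on hpi2 ?_ ?_ fun θ _ => ?_
    · have hm : Measurable fun θ => (Inc p j).indicator (fun θ => ‖Kp p f j (ε * ρ) θ - L θ‖) θ :=
        Measurable.indicator (((Kp_meas hp hf j (σ := fun _ => ε * ρ) measurable_const).sub
          hL).norm) (inc_meas j)
      refine (intervalIntegrable_const (c := (2 : ℝ))).mono_fun hm.aestronglyMeasurable
        (Filter.Eventually.of_forall fun θ => ?_)
      show ‖_‖ ≤ ‖_‖
      rw [Real.norm_eq_abs, abs_of_nonneg (indicator_nonneg (fun _ _ => norm_nonneg _) _),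
        Real.norm_eq_abs, abs_of_pos (by norm_num : (0 : ℝ) < 2)]
      refine indicator_apply_le' (fun _ => ?_) (fun _ => by norm_num)
      linarith [norm_sub_le (Kp p f j (ε * ρ) θ) (L θ), Kp_bound hp hE hb j (ε * ρ) θ, hLb θ]
    · have hm : Measurable fun θ : ℝ => (1 / ρ) * ∫ s in (0 : ℝ)..ρ, dev p f j ε L (θ, s) := by
        simp only [intervalIntegral.integral_of_le hρ0.le]
        exact (hdm.stronglyMeasurable.integral_prod_right'
          (ν := volume.restrict (Ioc 0 ρ))).measurable.const_mul _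
      refine (intervalIntegrable_const (c := (2 : ℝ))).mono_fun hm.aestronglyMeasurable
        (Filter.Eventually.of_forall fun θ => ?_)
      have h1 := intervalIntegral.norm_integral_le_of_norm_le_const (a := 0) (b := ρ) (C := 2)
        (f := fun s : ℝ => dev p f j ε L (θ, s)) (fun s _ => by
          rw [Real.norm_eq_abs, abs_of_nonneg (hd0 _)]; exact hd2 _)
      rw [sub_zero, abs_of_pos hρ0] at h1
      show ‖_‖ ≤ ‖_‖
      rw [norm_mul, Real.norm_eq_abs (1 / ρ), abs_of_pos (by positivity : (0 : ℝ) < 1 / ρ),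
        Real.norm_eq_abs (2 : ℝ), abs_of_pos (by norm_num : (0 : ℝ) < 2)]
      calc 1 / ρ * _ ≤ 1 / ρ * (2 * ρ) := by gcongr
        _ = 2 := by field_simp
    · by_cases hθ : θ ∈ Inc p j
      · rw [indicator_of_mem hθ]
        have e2 : ∀ s, dev p f j ε L (θ, s) = ‖Kv p f j (θ, ε * s) - L θ‖ := by
          intro s
          unfold dev
          rw [indicator_of_mem hθ]
        simp only [e2]
        have hKm : Measurable fun s : ℝ => Kv p f j (θ, ε * s) :=
          (Kv_meas hp hf j).comp (measurable_const.prodMk (measurable_id.const_mul _))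
        have hKi : IntervalIntegrable (fun s : ℝ => Kv p f j (θ, ε * s)) volume 0 ρ :=
          bdd_ii hKm (fun s => Kv_bound hp hE hb j _) _ _
        have e3 : Kp p f j (ε * ρ) θ - L θ = (1 / (ρ : ℂ)) *
            ∫ s in (0 : ℝ)..ρ, (Kv p f j (θ, ε * s) - L θ) := by
          rw [intervalIntegral.integral_sub hKi intervalIntegrable_const, mul_sub, Kp_eq j hρ0,
            intervalIntegral.integral_const, sub_zero, real_smul]
          have : (ρ : ℂ) ≠ 0 := by exact_mod_cast hρ0.ne'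
          field_simp
        rw [e3, norm_mul]
        have e4 : ‖(1 / (ρ : ℂ))‖ = 1 / ρ := by
          rw [norm_div, norm_one, Complex.norm_real, Real.norm_eq_abs, abs_of_pos hρ0]
        rw [e4]
        have := intervalIntegral.norm_integral_le_integral_norm
          (f := fun s : ℝ => Kv p f j (θ, ε * s) - L θ) (μ := volume) hρ0.le
        gcongr
      · rw [indicator_of_notMem hθ]
        refine mul_nonneg (by positivity) ?_
        exact intervalIntegral.integral_nonneg hρ0.le fun s _ => hd0 _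

/-- The lines near the vertex `k`, on the side `ε`, on which the function deviates. -/
def BadK (p : Fin (n + 3) → ℂ) (g : ℂ × ℝ → ℂ) (k : Fin (n + 3)) (ε : ℝ) (N : ℝ → ℂ) (η r : ℝ) :
    Set (ℝ × ℝ) :=
  {x | x.1 ∈ Inc p k ∧ ε * x.2 ∈ Ioo 0 r ∧ η < ‖Kv p g k x - N x.1‖}

theorem BadK_meas (hp : IsConvexPolygon p) {g : ℂ × ℝ → ℂ} (hg : Measurable g) (k : Fin (n + 3))
    (ε : ℝ) {N : ℝ → ℂ} (hN : Measurable N) (η r : ℝ) : MeasurableSet (BadK p g k ε N η r) := by
  refine (measurable_fst (inc_meas k)).inter (MeasurableSet.inter ?_ ?_)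
  · exact (measurable_snd.const_mul ε) measurableSet_Ioo
  · exact measurableSet_lt measurable_const (((Kv_meas hp hg k).sub (hN.comp measurable_fst)).norm)

theorem BadK_le (hp : IsConvexPolygon p) {g : ℂ × ℝ → ℂ} (hg : Measurable g)
    (hb : ∀ x, ‖g x‖ ≤ 1) (hE : IsEigenfunction p 0 χ g) (k : Fin (n + 3)) {ε : ℝ}
    (hε : ε = 1 ∨ ε = -1) {N : ℝ → ℂ} (hN : Measurable N) (hNb : ∀ θ, ‖N θ‖ ≤ 1) {η r : ℝ}
    (hη : 0 < η) (hr : 0 ≤ r) : volume (BadK p g k ε N η r ∩ (Ico 0 (2 * π) ×ˢ univ)) ≤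
      ENNReal.ofReal ((1 / η) * ∫ s in (0 : ℝ)..r, ∫ θ in (0 : ℝ)..(2 * π),
        (Inc p k).indicator (fun θ => ‖Kv p g k (θ, ε * s) - N θ‖) θ) := by
  have hεε : ε * ε = 1 := by rcases hε with h | h <;> rw [h] <;> norm_num
  have h1 : MeasurePreserving (fun s : ℝ => ε * s) (volume : Measure ℝ) volume := by
    rcases hε with h | h
    · rw [h]
      simp only [one_mul]
      exact MeasurePreserving.id _
    · rw [h]
      simp only [neg_mul, one_mul]
      exact Measure.measurePreserving_neg (volume : Measure ℝ)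
  have h2 : MeasurePreserving (fun q : ℝ × ℝ => (q.1, ε * q.2)) (volume : Measure (ℝ × ℝ))
      volume := (MeasurePreserving.id (volume : Measure ℝ)).prod h1
  have h3 := markov (dev_meas hp hg k ε hN) (dev_nonneg k ε N) (dev_le hp hE hb k ε hNb) hη hr
  refine le_trans ?_ h3
  have hms : MeasurableSet {x : ℝ × ℝ | x.1 ∈ Ico 0 (2 * π) ∧ x.2 ∈ Ioo 0 r ∧
      η < dev p g k ε N x} := by
    refine (measurable_fst measurableSet_Ico).inter (MeasurableSet.inter ?_ ?_)
    · exact measurable_snd measurableSet_Ioo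
    · exact measurableSet_lt measurable_const (dev_meas hp hg k ε hN)
  rw [← h2.measure_preimage hms.nullMeasurableSet]
  refine measure_mono ?_
  rintro x ⟨⟨a1, a2, a3⟩, a4, -⟩
  refine ⟨a4, a2, ?_⟩
  unfold dev
  simp only
  rw [indicator_of_mem a1, ← mul_assoc, hεε, one_mul]
  exact a3

end Pool.Agent.Zk55.RF
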