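import Pool.Agent.Zk55.CF.Fin2

set_option autoImplicit false

/-!
Strips of lines near a vertex and periodic strips: definitions.
-/

namespace Pool.Agent.Zk55.RF

open Complex Set MeasureTheory Filter Topology Pool.Agent.W780.PG Pool.Agent.W780.BB
  Pool.Agent.TH578.BE Pool.Agent.K3h17.BK Pool.Agent.Zk55.CF

open scoped Real ComplexConjugate

variable {n : ℕ}

/-- The directions `φ` for which all lines in the direction `φ` at a distance at most `r` from `v`
cross the sides in the list `w`. -/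
def As (p : Fin (n + 3) → ℂ) (v : ℂ) (w : List (Fin (n + 3))) (r : ℝ) : Set ℝ :=
  {φ | RW p w (lb v φ r) ∧ RW p w (lb v φ (-r))}

/-- The averages of `f (z, ·)` on the side `ε` of every direction `θ` converge to `G z θ`. -/
def Sided (p : Fin (n + 3) → ℂ) (f : ℂ × ℝ → ℂ) (ε : ℝ) (G : ℂ → ℝ → ℂ) : Prop :=
  ∀ᵐ z : ℂ, z ∈ reg p → ∀ θ : ℝ, Tendsto (fun δ : ℝ => (1 / δ) *
    ∫ η in (0 : ℝ)..δ, ‖f (z, θ + ε * η) - G z θ‖) (𝓝[>] 0) (𝓝 0)

/-- All lines `(θ, σ)`, `σ ∈ [s1, s2]`, meet the polygon, cross the sides in the list `u` and return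
to themselves, with the same orientation. -/
structure PerStrip (p : Fin (n + 3) → ℂ) (θ s1 s2 : ℝ) (u : List (Fin (n + 3))) : Prop where
  lt : s1 < s2
  ne : u ≠ []
  even : Even u.length
  cross : ∀ σ ∈ Icc s1 s2, RW p u (θ, σ)
  meet : ∀ σ ∈ Icc s1 s2, ∃ y ∈ reg p, ph (θ, σ) y = 0
  ret : ∃ k : ℤ, ∀ σ : ℝ, fw p u (θ, σ) = (θ + 2 * π * k, σ)

end Pool.Agent.Zk55.RF
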