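import Pool.Agent.Zk55.RF.Word

set_option autoImplicit false

/-!
Regulated fibres and their classes at the visible vertices: definitions.
-/

namespace Pool.Agent.Zk55.RF

open Complex Set MeasureTheory Filter Topology Pool.Agent.W780.PG Pool.Agent.W780.BB
  Pool.Agent.TH578.BE Pool.Agent.K3h17.BK Pool.Agent.Zk55.CF

open scoped Real ComplexConjugate

variable {n : ℕ}

/-- A function of the direction with limits from the left and from the right everywhere. -/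
def Regulated (g : ℝ → ℂ) : Prop :=
  ∀ θ : ℝ, (∃ l : ℂ, Tendsto g (𝓝[<] θ) (𝓝 l)) ∧ ∃ r : ℂ, Tendsto g (𝓝[>] θ) (𝓝 r)

/-- For almost every position `z` in the polygon the function `θ ↦ f (z, θ)` of the direction agrees
almost everywhere with a regulated function. Nothing is required of the dependence on `z`. -/
def RegulatedFibres (p : Fin (n + 3) → ℂ) (f : ℂ × ℝ → ℂ) : Prop :=
  ∀ᵐ z : ℂ, z ∈ region p → ∃ g : ℝ → ℂ, Regulated g ∧ ∀ᵐ θ : ℝ, f (z, θ) = g θ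

/-- The vertex `k` is visible from `z` in the direction `θ` or in the opposite direction. -/
def Sees (p : Fin (n + 3) → ℂ) (z : ℂ) (k : Fin (n + 3)) (θ : ℝ) : Prop :=
  ∃ w, VisAt p z w k θ ∨ VisAt p z w k (θ + π)

/-- The properties of the limits `P z θ` from the right (`φ > θ`) and `M z θ` from the left of the
fibre over a typical point `z`. -/
structure Typ (p : Fin (n + 3) → ℂ) (c : Fin (n + 3) → ℂ) (P M : ℂ → ℝ → ℂ) (z : ℂ) : Prop where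
  perP : ∀ θ, P z (θ + 2 * π) = P z θ
  perM : ∀ θ, M z (θ + 2 * π) = M z θ
  vis : ∀ k θ, Sees p z k θ → P z θ = c k ∧ M z θ = c k
  right : ∀ θ, ∃ δ : ℝ, 0 < δ ∧ ∀ φ ∈ Ioo θ (θ + δ), ∀ k, Sees p z k φ → c k = P z θ
  left : ∀ θ, ∃ δ : ℝ, 0 < δ ∧ ∀ φ ∈ Ioo (θ - δ) θ, ∀ k, Sees p z k φ → c k = M z θ
  dense : ∀ a b : ℝ, a < b → ∃ θ ∈ Ioo a b, ∃ w k, VisAt p z w k θ
  rightP : ∀ θ, ∃ δ : ℝ, 0 < δ ∧ ∀ φ ∈ Ioo θ (θ + δ), P z φ = P z θ ∧ M z φ = P z θ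
  leftM : ∀ θ, ∃ δ : ℝ, 0 < δ ∧ ∀ φ ∈ Ioo (θ - δ) θ, P z φ = M z θ ∧ M z φ = M z θ

/-- A jump at `g`: in the window `(q1, q2)` the classes are `a` on the left (`φ > g`) and `b` on the
right. -/
structure Jm (p : Fin (n + 3) → ℂ) (c : Fin (n + 3) → ℂ) (a b : ℂ) (q1 q2 g : ℝ) (z : ℂ) :
    Prop where
  lo : q1 < g
  hi : g < q2
  up : ∀ φ ∈ Ioo g q2, ∀ k, Sees p z k φ → c k = a
  dn : ∀ φ ∈ Ioo q1 g, ∀ k, Sees p z k φ → c k = b
  not_at : ∀ k, ¬ Sees p z k g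

end Pool.Agent.Zk55.RF
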