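import Pool.Agent.Zk55.RF.Pair

set_option autoImplicit false
set_option maxHeartbeats 400000

/-!
Invariant functions with regulated fibres are constant.
-/

namespace Pool.Agent.Zk55.RF

open Complex Set MeasureTheory Filter Topology Pool.Agent.W780.PG Pool.Agent.W780.BB
  Pool.Agent.TH578.BE Pool.Agent.K3h17.BK Pool.Agent.Zk55.CF

open scoped Real ComplexConjugate

variable {n : ℕ} {p : Fin (n + 3) → ℂ} {χ : Fin (n + 3) → ℂ} {f : ℂ × ℝ → ℂ}

/-- A strip of lines on which the two limits differ. -/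
theorem no_strip (hp : IsConvexPolygon p) (hf : Measurable f) (hb : ∀ x, ‖f x‖ ≤ 1)
    (hE : IsEigenfunction p 0 (fun _ => 1) f) {P M : ℂ → ℝ → ℂ} (hP : Sided p f 1 P)
    (hM : Sided p f (-1) M) {c : Fin (n + 3) → ℂ} (hT : ∀ᵐ z : ℂ, z ∈ reg p → Typ p c P M z)
    {a b : ℂ} (hab : a ≠ b) {zm : ℂ} {g ρ : ℝ} (hρ : 0 < ρ) (hball : Metric.ball zm ρ ⊆ reg p)
    (hfree : ∀ l : ℕ, ∃ W : List (Fin (n + 3)), W.length = l ∧
      ∀ σ, |σ - (conj (dir g) * zm).im| < ρ → RW p W (g, σ))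
    (hPa : ∀ᵐ z : ℂ, z ∈ Metric.ball zm ρ → P z g = a)
    (hMb : ∀ᵐ z : ℂ, z ∈ Metric.ball zm ρ → M z g = b) : False := by
  choose W hl hRW using hfree
  set s0 := (conj (dir g) * zm).im with hs0
  have h0 : ph (g, s0) zm = 0 := by
    unfold ph
    rw [hs0, sub_self]
  have hρ4 : 0 < ρ / 4 := by linarith
  have hmeet : ∀ σ, |σ - s0| < ρ → ∃ y ∈ reg p, ph (g, σ) y = 0 := by
    intro σ hσ
    refine ⟨zm + (((σ - s0 : ℝ) : ℂ) * I) * dir g, hball ?_, ?_⟩
    · rw [Metric.mem_ball, dist_eq_norm, add_sub_cancel_left, norm_mul, nd, mul_one, norm_mul,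
        Complex.norm_I, mul_one, Complex.norm_real, Real.norm_eq_abs]
      exact hσ
    · unfold ph
      have e : conj (dir g) * (zm + (((σ - s0 : ℝ) : ℂ) * I) * dir g) =
          conj (dir g) * zm + ((σ - s0 : ℝ) : ℂ) * I := by
        rw [mul_add, mul_left_comm, conj_dir_mul, mul_one]
      simp only
      rw [e, Complex.add_im, ← hs0, Complex.im_ofReal_mul, Complex.I_im]
      ring
  -- the limits differ along the strip
  have hin : ∀ l, ∀ᵐ z : ℂ, z ∈ reg p → |ph (fw p (W l) (g, s0)) z| < ρ / 4 →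
      (fw p (W l) (g, s0)).1 ∈ {θ : ℝ | P z θ ≠ M z θ} := by
    intro l
    rcases Nat.even_or_odd (W l).length with hev | hod
    · have hG1 : Sided p f ((-1) ^ (W l).length * 1) P := by
        rw [hev.neg_one_pow, one_mul]; exact hP
      have hG2 : Sided p f ((-1) ^ (W l).length * (-1)) M := by
        rw [hev.neg_one_pow, one_mul]; exact hM
      filter_upwards [pers hp hf hb hE (Or.inl rfl) hP hG1 hρ hball h0 (hRW l) hPa,
        pers hp hf hb hE (Or.inr rfl) hM hG2 hρ hball h0 (hRW l) hMb] with z h1 h2 hz hz'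
      show P z _ ≠ M z _
      rw [h1 hz hz', h2 hz hz']
      exact hab
    · have hG1 : Sided p f ((-1) ^ (W l).length * 1) M := by
        rw [hod.neg_one_pow, mul_one]; exact hM
      have hG2 : Sided p f ((-1) ^ (W l).length * (-1)) P := by
        rw [hod.neg_one_pow, neg_one_mul, neg_neg]; exact hP
      filter_upwards [pers hp hf hb hE (Or.inl rfl) hP hG1 hρ hball h0 (hRW l) hPa,
        pers hp hf hb hE (Or.inr rfl) hM hG2 hρ hball h0 (hRW l) hMb] with z h1 h2 hz hz'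
      show P z _ ≠ M z _
      rw [h1 hz hz', h2 hz hz']
      exact hab.symm
  -- the strip returns
  obtain ⟨l, m, hlm, hev, σ, σ', hσ, hσ', k, he⟩ := returns hp hρ4 hl
    (fun l σ hσ => hRW l σ (hσ.trans (by linarith))) (hmeet s0 (by simpa using hρ))
    (J := fun z => {θ : ℝ | P z θ ≠ M z θ}) (by
      filter_upwards [hT] with z hz hzr
      refine ⟨jumps_finite (hz hzr), fun θ => ?_⟩
      show P z (θ + 2 * π) ≠ M z (θ + 2 * π) ↔ P z θ ≠ M z θ
      rw [(hz hzr).perP, (hz hzr).perM]) hin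
  have hI : ∀ τ ∈ Icc (s0 - ρ / 4) (s0 + ρ / 4), |τ - s0| < ρ := by
    intro τ hτ
    rw [abs_lt]
    constructor <;> linarith [hτ.1, hτ.2]
  obtain ⟨u, hu⟩ := per_of_return hp (show s0 - ρ / 4 < s0 + ρ / 4 by linarith) hl
    (fun l τ hτ => hRW l τ (hI τ hτ)) (fun τ hτ => hmeet τ (hI τ hτ)) hlm hev
    (σ := σ) (σ' := σ') (k := k) (by
      rw [abs_lt] at hσ
      constructor <;> linarith [hσ.1, hσ.2]) (by
      rw [abs_lt] at hσ'
      constructor <;> linarith [hσ'.1, hσ'.2]) he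
  -- a typical point near the middle
  obtain ⟨z, hz, hzT, hzP, hzM⟩ : ∃ z ∈ Metric.ball zm (ρ / 4), Typ p c P M z ∧ P z g = a ∧
      M z g = b := by
    have h1 : ∀ᵐ z : ℂ, z ∈ Metric.ball zm (ρ / 4) → Typ p c P M z ∧ P z g = a ∧ M z g = b := by
      filter_upwards [hT, hPa, hMb] with z h1 h2 h3 hz
      have hz' : z ∈ Metric.ball zm ρ := Metric.ball_subset_ball (by linarith) hz
      exact ⟨h1 (hball hz'), h2 hz', h3 hz'⟩
    obtain ⟨z, h2, h3⟩ := (Measure.dense_of_ae h1).exists_mem_open Metric.isOpen_ball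
      ⟨zm, Metric.mem_ball_self hρ4⟩
    exact ⟨z, h3, h2 h3⟩
  have hzr : z ∈ reg p := hball (Metric.ball_subset_ball (by linarith) hz)
  have hdist : |(conj (dir g) * z).im - s0| < ρ / 4 := by
    rw [hs0, ← Complex.sub_im, ← mul_sub]
    refine lt_of_le_of_lt (abs_im_le g _) ?_
    rwa [Metric.mem_ball, dist_eq_norm] at hz
  rw [abs_lt] at hdist
  obtain ⟨k', hk'⟩ := per_vis hp hu hzr (by linarith [hdist.1]) (by linarith [hdist.2])
  obtain ⟨δ1, hδ1, hr⟩ := hzT.right g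
  obtain ⟨δ2, hδ2, hle⟩ := hzT.left g
  obtain ⟨⟨α, hα, w1, v1⟩, -⟩ := hk' δ1 hδ1
  obtain ⟨-, ⟨β, hβ, w2, v2⟩⟩ := hk' δ2 hδ2
  have e1 : c k' = a := by
    rw [← hzP]
    exact hr (g + α) ⟨by linarith [hα.1], by linarith [hα.2]⟩ k' ⟨w1, Or.inl v1⟩
  have e2 : c k' = b := by
    rw [← hzM]
    refine hle (g - β) ⟨by linarith [hβ.2], by linarith [hβ.1]⟩ k' ⟨w2, Or.inr ?_⟩
    rwa [show g - β + π = g + π - β by ring]
  exact hab (e1.symm.trans e2)

/-- Two jumps of the same kind at nearby points on different sides lead to a contradiction. -/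
theorem no_pair (hp : IsConvexPolygon p) (hf : Measurable f) (hb : ∀ x, ‖f x‖ ≤ 1)
    (hE : IsEigenfunction p 0 (fun _ => 1) f) {P M : ℂ → ℝ → ℂ} (hP : Sided p f 1 P)
    (hM : Sided p f (-1) M) {c : Fin (n + 3) → ℂ} (hT : ∀ᵐ z : ℂ, z ∈ reg p → Typ p c P M z)
    {a b : ℂ} (hab : a ≠ b) {z0 zR zL : ℂ} {q1 q2 gR gL ε ρ : ℝ} (hε : 0 < ε) (hεπ : 2 * ε < π)
    (hTE : TE p z0 ε ρ) (hTM : TM p z0 ε ρ) (hball : Metric.ball z0 ρ ⊆ reg p)
    (hR : zR ∈ Metric.ball z0 ρ) (hL : zL ∈ Metric.ball z0 ρ) (jR : Jm p c a b q1 q2 gR zR)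
    (jL : Jm p c a b q1 q2 gL zL) (h1 : q1 + ε < gR) (h1' : q1 + ε < gL) (h2 : gR + ε < q2)
    (h2' : gL + ε < q2) (hTR : Typ p c P M zR)
    {θ : ℝ} (hθ : θ = gR ∨ θ = gL) (hpos : 0 < (conj (dir θ) * (zL - zR)).im) : False := by
  have heq : gR = gL := pair_eq hab hTE hR hL jR jL h1 h1' h2 h2' hTR.dense hθ hpos
  subst heq
  have hθ' : θ = gR := by
    rcases hθ with h | h <;> exact h
  subst hθ'
  have hfree := pair_free hab hTM hR hL jR jL h1 h2 hpos
  have hRr := hball hR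
  have hLr := hball hL
  have hlt : (conj (dir θ) * zR).im < (conj (dir θ) * zL).im := by
    rw [mul_sub, Complex.sub_im] at hpos
    linarith
  set D := (conj (dir θ) * zL).im - (conj (dir θ) * zR).im with hD
  have hD0 : 0 < D := by rw [hD]; linarith
  set zm : ℂ := (1 / 2 : ℝ) • zR + (1 / 2 : ℝ) • zL with hzm
  have hzmb : zm ∈ Metric.ball z0 ρ :=
    (convex_ball z0 ρ) hR hL (by norm_num) (by norm_num) (by norm_num)
  have hσm : (conj (dir θ) * zm).im = ((conj (dir θ) * zR).im + (conj (dir θ) * zL).im) / 2 := by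
    rw [hzm, mul_add, Complex.add_im, mul_smul_comm, mul_smul_comm, Complex.smul_im,
      Complex.smul_im, smul_eq_mul, smul_eq_mul]
    ring
  obtain ⟨r, hr, hrb⟩ := Metric.isOpen_iff.1 Metric.isOpen_ball zm hzmb
  have hρ1 : 0 < min r (D / 2) := lt_min hr (by linarith)
  have hb1 : Metric.ball zm (min r (D / 2)) ⊆ Metric.ball z0 ρ :=
    (Metric.ball_subset_ball (min_le_left _ _)).trans hrb
  have hin : ∀ z ∈ Metric.ball zm (min r (D / 2)), (conj (dir θ) * zR).im < (conj (dir θ) * z).im ∧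
      (conj (dir θ) * z).im < (conj (dir θ) * zL).im := by
    intro z hz
    have h3 : |(conj (dir θ) * z).im - (conj (dir θ) * zm).im| < D / 2 := by
      rw [← Complex.sub_im, ← mul_sub]
      refine lt_of_le_of_lt (abs_im_le θ _) ?_
      rw [Metric.mem_ball, dist_eq_norm] at hz
      exact hz.trans_le (min_le_right _ _)
    rw [abs_lt, hσm] at h3
    constructor <;> linarith [h3.1, h3.2]
  refine no_strip hp hf hb hE hP hM hT hab (zm := zm) (g := θ) hρ1 (hb1.trans hball) ?_ ?_ ?_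
  · intro l
    obtain ⟨W, hl, hW⟩ := free_words hp hRr hLr (θ := θ)
      (fun y hy w k h => hfree y hy k ⟨w, Or.inl h⟩) l
    refine ⟨W, hl, fun σ hσ => ?_⟩
    have h3 := hσ.trans_le (min_le_right _ _)
    rw [abs_lt, hσm] at h3
    obtain ⟨y, hy, e⟩ := seg_lvl (A := zR) (B := zL) (g := θ) (s := σ) (by linarith [h3.1])
      (by linarith [h3.2])
    have h4 := hW y hy
    unfold ln at h4
    rwa [e] at h4
  · filter_upwards [hT] with z hz hzb
    exact local_P hp hε hεπ hTE hball hR hL jR h2 hfree (hb1 hzb) (hz (hball (hb1 hzb)))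
      (hin z hzb).1 (hin z hzb).2
  · filter_upwards [hT] with z hz hzb
    exact local_M hp hε hεπ hTE hball hR hL jL h1 hfree (hb1 hzb) (hz (hball (hb1 hzb)))
      (hin z hzb).1 (hin z hzb).2

theorem line_null (g : ℝ) (z1 : ℂ) : volume {z : ℂ | (conj (dir g) * (z - z1)).im = 0} = 0 := by
  set L : ℂ →ₗ[ℝ] ℝ := Complex.imLm.comp (LinearMap.mulLeft ℝ (conj (dir g))) with hL
  have h1 : volume ((LinearMap.ker L : Submodule ℝ ℂ) : Set ℂ) = 0 := by
    refine Measure.addHaar_submodule volume _ ?_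
    intro h
    have h2 : I * dir g ∈ LinearMap.ker L := by
      rw [h]
      trivial
    rw [LinearMap.mem_ker, hL] at h2
    have h3 : (conj (dir g) * (I * dir g)).im = 0 := h2
    rw [mul_left_comm, conj_dir_mul, mul_one, Complex.I_im] at h3
    exact one_ne_zero h3
  have h2 := (measurePreserving_sub_right (volume : Measure ℂ) z1).quasiMeasurePreserving.preimage_null h1
  exact h2

/-- The limits from both sides agree. -/
theorem no_jumps (hp : IsConvexPolygon p) (hf : Measurable f) (hb : ∀ x, ‖f x‖ ≤ 1)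
    (hE : IsEigenfunction p 0 (fun _ => 1) f) {P M : ℂ → ℝ → ℂ} (hP : Sided p f 1 P)
    (hM : Sided p f (-1) M) {c : Fin (n + 3) → ℂ} (hT : ∀ᵐ z : ℂ, z ∈ reg p → Typ p c P M z) :
    ∀ᵐ z : ℂ, z ∈ reg p → ∀ θ, P z θ = M z θ := by
  have hpi := Real.pi_pos
  set Z : Fin (n + 3) × Fin (n + 3) × ℚ × ℚ × ℚ × ℚ → Set ℂ := fun D =>
    {z | z ∈ reg p ∧ Typ p c P M z ∧ c D.1 ≠ c D.2.1 ∧ D.2.2.1 < D.2.2.2.1 ∧
      D.2.2.2.2.1 < D.2.2.2.2.2 ∧ ∃ g : ℝ, (D.2.2.2.1 : ℝ) < g ∧ g < (D.2.2.2.2.1 : ℝ) ∧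
        Jm p c (c D.1) (c D.2.1) (D.2.2.1 : ℝ) (D.2.2.2.2.2 : ℝ) g z} with hZ
  have hnull : ∀ D, volume (Z D) = 0 := by
    rintro ⟨k1, k2, q1, q1', q2', q2⟩
    by_contra hne
    obtain ⟨z1, hz1, hpos⟩ := exists_mem_forall_mem_nhdsWithin_pos_measure hne
    obtain ⟨hz1r, hT1, hab, h11, h22, g1, hg1, hg1', j1⟩ := hz1
    have h11' : (q1 : ℝ) < (q1' : ℝ) := by exact_mod_cast h11
    have h22' : (q2' : ℝ) < (q2 : ℝ) := by exact_mod_cast h22
    obtain ⟨ε, hε, hε1, hε2, hε3⟩ : ∃ ε : ℝ, 0 < ε ∧ ε ≤ (q1' : ℝ) - q1 ∧ ε ≤ (q2 : ℝ) - q2' ∧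
        2 * ε < π := by
      refine ⟨min (min ((q1' : ℝ) - q1) ((q2 : ℝ) - q2')) 1, ?_, ?_, ?_, ?_⟩
      · exact lt_min (lt_min (by linarith) (by linarith)) one_pos
      · exact (min_le_left _ _).trans (min_le_left _ _)
      · exact (min_le_left _ _).trans (min_le_right _ _)
      · have := min_le_right (min ((q1' : ℝ) - q1) ((q2 : ℝ) - q2')) 1
        linarith [Real.pi_gt_three]
    obtain ⟨ρ1, hρ1, hb1, hTE1⟩ := tri_end hp hz1r hε
    obtain ⟨ρ2, hρ2, hb2, hTM2⟩ := tri_mid hp hz1r hε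
    have hρ : 0 < min ρ1 ρ2 := lt_min hρ1 hρ2
    have hs1 : Metric.ball z1 (min ρ1 ρ2) ⊆ Metric.ball z1 ρ1 :=
      Metric.ball_subset_ball (min_le_left _ _)
    have hs2 : Metric.ball z1 (min ρ1 ρ2) ⊆ Metric.ball z1 ρ2 :=
      Metric.ball_subset_ball (min_le_right _ _)
    have hTE : TE p z1 ε (min ρ1 ρ2) := fun B hB C hC => hTE1 B (hs1 hB) C (hs1 hC)
    have hTM : TM p z1 ε (min ρ1 ρ2) := fun B hB C hC => hTM2 B (hs2 hB) C (hs2 hC)
    have hm : 0 < volume (Z (k1, k2, q1, q1', q2', q2) ∩ Metric.ball z1 (min ρ1 ρ2)) :=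
      hpos _ (inter_mem_nhdsWithin _ (Metric.ball_mem_nhds z1 hρ))
    obtain ⟨z2, ⟨hz2Z, hz2b⟩, hz2l⟩ : ∃ z2 ∈ Z (k1, k2, q1, q1', q2', q2) ∩
        Metric.ball z1 (min ρ1 ρ2), (conj (dir g1) * (z2 - z1)).im ≠ 0 := by
      by_contra hcon
      push Not at hcon
      exact absurd (measure_mono_null hcon (line_null g1 z1)) hm.ne'
    obtain ⟨hz2r, hT2, -, -, -, g2, hg2, hg2', j2⟩ := hz2Z
    simp only at hg1 hg1' hg2 hg2' hab
    rcases lt_or_gt_of_ne hz2l with h | h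
    · refine no_pair hp hf hb hE hP hM hT hab hε hε3 hTE hTM (hs1.trans hb1) hz2b
        (Metric.mem_ball_self hρ) j2 j1 (by linarith) (by linarith) (by linarith) (by linarith)
        hT2 (Or.inr rfl) ?_
      rw [im_swap]
      linarith
    · exact no_pair hp hf hb hE hP hM hT hab hε hε3 hTE hTM (hs1.trans hb1)
        (Metric.mem_ball_self hρ) hz2b j1 j2 (by linarith) (by linarith) (by linarith) (by linarith)
        hT1 (Or.inl rfl) h
  have hU : volume (⋃ D, Z D) = 0 := measure_iUnion_null hnull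
  filter_upwards [hT, measure_eq_zero_iff_ae_notMem.1 hU] with z hz hzU hzr g
  by_contra hne
  apply hzU
  have hTz := hz hzr
  obtain ⟨δ1, hδ1, hr⟩ := hTz.right g
  obtain ⟨δ2, hδ2, hl⟩ := hTz.left g
  obtain ⟨x1, hx1, w1, k1, v1⟩ := hTz.dense g (g + δ1) (by linarith)
  obtain ⟨x2, hx2, w2, k2, v2⟩ := hTz.dense (g - δ2) g (by linarith)
  have e1 : c k1 = P z g := hr x1 hx1 k1 ⟨w1, Or.inl v1⟩
  have e2 : c k2 = M z g := hl x2 hx2 k2 ⟨w2, Or.inl v2⟩
  obtain ⟨q1, a1, a2⟩ := exists_rat_btwn (show g - δ2 < g by linarith)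
  obtain ⟨q1', a3, a4⟩ := exists_rat_btwn a2
  obtain ⟨q2, b1, b2⟩ := exists_rat_btwn (show g < g + δ1 by linarith)
  obtain ⟨q2', b3, b4⟩ := exists_rat_btwn b1
  refine mem_iUnion.2 ⟨(k1, k2, q1, q1', q2', q2), hzr, hTz, ?_, by exact_mod_cast a3,
    by exact_mod_cast b4, g, a4, b3, ?_⟩
  · rw [e1, e2]
    exact hne
  · refine ⟨a2, b1, fun φ hφ k hk => ?_, fun φ hφ k hk => ?_, fun k hk => ?_⟩
    · rw [e1]
      exact hr φ ⟨hφ.1, by linarith [hφ.2]⟩ k hk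
    · rw [e2]
      exact hl φ ⟨by linarith [hφ.1], hφ.2⟩ k hk
    · obtain ⟨h1, h2⟩ := hTz.vis k g hk
      exact hne (h1.trans h2.symm)

/-- The bounded case. -/
theorem bdd (hp : IsConvexPolygon p)
    (hir : ∀ j : Fin (n + 3), Irrational ((tau p j - tau p (j - 1)) / π))
    (hf : Measurable f) (hb : ∀ x, ‖f x‖ ≤ 1)
    (hE : IsEigenfunction p 0 (fun _ => 1) f) (h : RegulatedFibres p f) :
    ∃ c : ℂ, ∀ᵐ x : ℂ × ℝ, x ∈ phase p → f x = c := by
  obtain ⟨P, M, hP, hM, hreg⟩ := regulated_sided hp hf hb h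
  obtain ⟨c, hT⟩ := typ_ae hp hir hf hb hE hP hM hreg
  have hno := no_jumps hp hf hb hE hP hM hT
  refine ⟨c 0, const_of_right hp hf hb hP ?_⟩
  filter_upwards [hT, hno] with z h1 h2 hz θ
  obtain ⟨δ, hδ, hr⟩ := (h1 hz).right θ
  obtain ⟨x, hx, w, k, v⟩ := (h1 hz).dense θ (θ + δ) (by linarith)
  rw [← hr x hx k ⟨w, Or.inl v⟩]
  exact all_equal hp hz (h1 hz) (h2 hz) k 0

end Pool.Agent.Zk55.RF
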