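import Pool.Agent.Zk55.RF.Fin

set_option autoImplicit false
set_option maxHeartbeats 400000

/-!
The theorem for unbounded functions, functions of bounded variation and sets.
-/

namespace Pool.Agent.Zk55.RF

open Complex Set MeasureTheory Filter Topology Pool.Agent.W780.PG Pool.Agent.W780.BB
  Pool.Agent.TH578.BE Pool.Agent.K3h17.BK Pool.Agent.Zk55.CF

open scoped Real ComplexConjugate

variable {n : ℕ} {p : Fin (n + 3) → ℂ} {χ : Fin (n + 3) → ℂ} {f : ℂ × ℝ → ℂ}

/-- For almost every position `z` in the polygon the function `θ ↦ f (z, θ)` of the direction agrees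
almost everywhere with a function of locally bounded variation. Nothing is required of the
dependence of the variation on `z`. -/
def BVFibres (p : Fin (n + 3) → ℂ) (f : ℂ × ℝ → ℂ) : Prop :=
  ∀ᵐ z : ℂ, z ∈ region p → ∃ g : ℝ → ℂ, LocallyBoundedVariationOn g univ ∧
    ∀ᵐ θ : ℝ, f (z, θ) = g θ

/-- For almost every position `z` in the polygon the set of the directions `θ` in `[0, 2 π)` with
`(z, θ) ∈ A` agrees up to a null set with a finite union of open intervals. Nothing is required of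
the dependence of the intervals or of their number on `z`. -/
def ArcFibres (p : Fin (n + 3) → ℂ) (A : Set (ℂ × ℝ)) : Prop :=
  ∀ᵐ z : ℂ, z ∈ region p → ∃ S : Finset (ℝ × ℝ), ∀ᵐ θ : ℝ, θ ∈ Ico 0 (2 * π) →
    ((z, θ) ∈ A ↔ ∃ I ∈ S, I.1 < θ ∧ θ < I.2)

theorem reg_of_bv {g : ℝ → ℂ} (h : LocallyBoundedVariationOn g univ) : Regulated g := by
  intro θ
  have h1 : BoundedVariationOn g (univ ∩ Icc (θ - 1) (θ + 1)) := h _ _ trivial trivial
  obtain ⟨l, hl⟩ := h1.exists_tendsto_left θ
  obtain ⟨r, hr⟩ := h1.exists_tendsto_right θ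
  refine ⟨⟨l, hl.mono_left (nhdsWithin_le_of_mem ?_)⟩, ⟨r, hr.mono_left (nhdsWithin_le_of_mem ?_)⟩⟩
  · rw [univ_inter]
    exact inter_mem (mem_nhdsWithin_of_mem_nhds (Icc_mem_nhds (by linarith) (by linarith)))
      self_mem_nhdsWithin
  · rw [univ_inter]
    exact inter_mem (mem_nhdsWithin_of_mem_nhds (Icc_mem_nhds (by linarith) (by linarith)))
      self_mem_nhdsWithin

/-- Eventually true or eventually false. -/
def EC (Q : ℝ → Prop) (l : Filter ℝ) : Prop := (∀ᶠ x in l, Q x) ∨ ∀ᶠ x in l, ¬ Q x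

theorem ec_right (I : ℝ × ℝ) (t : ℝ) : EC (fun x => I.1 < x ∧ x < I.2) (𝓝[>] t) := by
  by_cases h1 : I.1 ≤ t ∧ t < I.2
  · left
    filter_upwards [Ioo_mem_nhdsGT h1.2] with x hx
    exact ⟨by linarith [hx.1, h1.1], hx.2⟩
  · right
    rcases lt_or_ge t I.1 with h2 | h2
    · filter_upwards [Ioo_mem_nhdsGT h2] with x hx
      rintro ⟨h3, -⟩
      linarith [hx.2]
    · have h3 : I.2 ≤ t := by
        by_contra hcon
        push Not at hcon
        exact h1 ⟨h2, hcon⟩
      filter_upwards [self_mem_nhdsWithin] with x hx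
      rintro ⟨-, h4⟩
      have h5 : t < x := hx
      linarith

theorem ec_left (I : ℝ × ℝ) (t : ℝ) : EC (fun x => I.1 < x ∧ x < I.2) (𝓝[<] t) := by
  by_cases h1 : I.1 < t ∧ t ≤ I.2
  · left
    filter_upwards [Ioo_mem_nhdsLT h1.1] with x hx
    exact ⟨hx.1, by linarith [hx.2, h1.2]⟩
  · right
    rcases lt_or_ge I.2 t with h2 | h2
    · filter_upwards [Ioo_mem_nhdsLT h2] with x hx
      rintro ⟨-, h3⟩
      linarith [hx.1]
    · have h3 : t ≤ I.1 := by
        by_contra hcon
        push Not at hcon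
        exact h1 ⟨hcon, h2⟩
      filter_upwards [self_mem_nhdsWithin] with x hx
      rintro ⟨h4, -⟩
      have h5 : x < t := hx
      linarith

theorem ec_fin {l : Filter ℝ} (S : Finset (ℝ × ℝ))
    (h : ∀ I ∈ S, EC (fun x => I.1 < x ∧ x < I.2) l) :
    EC (fun x => ∃ I ∈ S, I.1 < x ∧ x < I.2) l := by
  by_cases hex : ∃ I ∈ S, ∀ᶠ x in l, I.1 < x ∧ x < I.2
  · obtain ⟨I, hI, he⟩ := hex
    left
    filter_upwards [he] with x hx
    exact ⟨I, hI, hx⟩
  · right
    have h1 : ∀ I ∈ S, ∀ᶠ x in l, ¬ (I.1 < x ∧ x < I.2) := by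
      intro I hI
      rcases h I hI with h2 | h2
      · exact absurd ⟨I, hI, h2⟩ hex
      · exact h2
    have h2 := (Filter.eventually_all_finset S).2 h1
    filter_upwards [h2] with x hx
    rintro ⟨I, hI, h3⟩
    exact hx I hI h3

open Classical in
/-- The indicator function of a periodic union of arcs. -/
noncomputable def arcf (S : Finset (ℝ × ℝ)) (θ : ℝ) : ℂ :=
  if ∃ I ∈ S, I.1 < toIcoMod Real.two_pi_pos 0 θ ∧ toIcoMod Real.two_pi_pos 0 θ < I.2 then 1 else 0

theorem lim_of_ec {Q : ℝ → Prop} [DecidablePred Q] {l : Filter ℝ} (h : EC Q l) :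
    ∃ v : ℂ, Tendsto (fun x => if Q x then (1 : ℂ) else 0) l (𝓝 v) := by
  rcases h with h | h
  · refine ⟨1, tendsto_const_nhds.congr' ?_⟩
    filter_upwards [h] with x hx
    rw [if_pos hx]
  · refine ⟨0, tendsto_const_nhds.congr' ?_⟩
    filter_upwards [h] with x hx
    rw [if_neg hx]

theorem arcf_reg (S : Finset (ℝ × ℝ)) : Regulated (arcf S) := by
  classical
  have hpi := Real.two_pi_pos
  intro θ
  constructor
  · -- from the left
    obtain ⟨hm, k, hk⟩ := (toIocMod_eq_iff Real.two_pi_pos (a := 0) (b := θ)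
      (c := toIocMod Real.two_pi_pos 0 θ)).1 rfl
    set t := toIocMod Real.two_pi_pos 0 θ with ht
    have hmod : ∀ᶠ x in 𝓝[<] θ, toIcoMod Real.two_pi_pos 0 x = x - (θ - t) := by
      filter_upwards [Ioo_mem_nhdsLT (show θ - t < θ by linarith [hm.1])] with x hx
      rw [toIcoMod_eq_iff]
      refine ⟨⟨by linarith [hx.1], by linarith [hx.2, hm.2]⟩, k, ?_⟩
      linarith
    have hto : Tendsto (fun x => x - (θ - t)) (𝓝[<] θ) (𝓝[<] t) := by
      rw [tendsto_nhdsWithin_iff]
      constructor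
      · have : Tendsto (fun x : ℝ => x - (θ - t)) (𝓝 θ) (𝓝 (θ - (θ - t))) :=
          (continuous_id.sub continuous_const).tendsto θ
        rw [sub_sub_cancel] at this
        exact this.mono_left nhdsWithin_le_nhds
      · filter_upwards [self_mem_nhdsWithin] with x hx
        have : x < θ := hx
        show x - (θ - t) < t
        linarith
    obtain ⟨v, hv⟩ := lim_of_ec (ec_fin S (fun I _ => ec_left I t))
    refine ⟨v, (hv.comp hto).congr' ?_⟩
    filter_upwards [hmod] with x hx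
    unfold arcf
    simp only [Function.comp, hx]
  · obtain ⟨hm, k, hk⟩ := (toIcoMod_eq_iff Real.two_pi_pos (a := 0) (b := θ)
      (c := toIcoMod Real.two_pi_pos 0 θ)).1 rfl
    set t := toIcoMod Real.two_pi_pos 0 θ with ht
    have hmod : ∀ᶠ x in 𝓝[>] θ, toIcoMod Real.two_pi_pos 0 x = x - (θ - t) := by
      filter_upwards [Ioo_mem_nhdsGT (show θ < θ + (2 * π - t) by linarith [hm.2])] with x hx
      rw [toIcoMod_eq_iff]
      refine ⟨⟨by linarith [hx.1, hm.1], by linarith [hx.2, hm.2]⟩, k, ?_⟩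
      linarith
    have hto : Tendsto (fun x => x - (θ - t)) (𝓝[>] θ) (𝓝[>] t) := by
      rw [tendsto_nhdsWithin_iff]
      constructor
      · have : Tendsto (fun x : ℝ => x - (θ - t)) (𝓝 θ) (𝓝 (θ - (θ - t))) :=
          (continuous_id.sub continuous_const).tendsto θ
        rw [sub_sub_cancel] at this
        exact this.mono_left nhdsWithin_le_nhds
      · filter_upwards [self_mem_nhdsWithin] with x hx
        have : θ < x := hx
        show t < x - (θ - t)
        linarith
    obtain ⟨v, hv⟩ := lim_of_ec (ec_fin S (fun I _ => ec_right I t))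
    refine ⟨v, (hv.comp hto).congr' ?_⟩
    filter_upwards [hmod] with x hx
    unfold arcf
    simp only [Function.comp, hx]

theorem ae_int {Q : ℝ → Prop} (h : ∀ᵐ θ : ℝ, Q θ) : ∀ᵐ θ : ℝ, ∀ k : ℤ, Q (θ - k • (2 * π)) := by
  rw [ae_all_iff]
  intro k
  exact (measurePreserving_sub_right (volume : Measure ℝ) (k • (2 * π))).quasiMeasurePreserving.ae h

theorem reg_of_arc {A : Set (ℂ × ℝ)} (hI : IsInvariant p A) (h : ArcFibres p A) :
    RegulatedFibres p (A.indicator fun _ => (1 : ℂ)) := by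
  classical
  filter_upwards [h] with z hz hzr
  obtain ⟨S, hS⟩ := hz hzr
  refine ⟨arcf S, arcf_reg S, ?_⟩
  filter_upwards [ae_int hS] with θ hθ
  have h1 := hθ (toIcoDiv Real.two_pi_pos 0 θ)
  rw [self_sub_toIcoDiv_zsmul] at h1
  have h2 := h1 (by
    have := toIcoMod_mem_Ico Real.two_pi_pos 0 θ
    rwa [zero_add] at this)
  have hper : Function.Periodic (fun θ : ℝ => (z, θ) ∈ A) (2 * π) := fun θ =>
    propext (hI.periodic z θ)
  have h3 : ((z, toIcoMod Real.two_pi_pos 0 θ) ∈ A) = ((z, θ) ∈ A) := by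
    rw [← self_sub_toIcoDiv_zsmul]
    exact hper.sub_zsmul_eq (x := θ) (toIcoDiv Real.two_pi_pos 0 θ)
  rw [h3] at h2
  unfold arcf
  rw [indicator_apply]
  by_cases h4 : (z, θ) ∈ A
  · rw [if_pos h4, if_pos (h2.1 h4)]
  · rw [if_neg h4, if_neg fun h5 => h4 (h2.2 h5)]

theorem reg_comp {g : ℝ → ℂ} (h : Regulated g) {Φ : ℂ → ℂ} (hΦ : Continuous Φ) :
    Regulated fun θ => Φ (g θ) := by
  intro θ
  obtain ⟨⟨l, hl⟩, ⟨r, hr⟩⟩ := h θ
  exact ⟨⟨Φ l, (hΦ.tendsto l).comp hl⟩, ⟨Φ r, (hΦ.tendsto r).comp hr⟩⟩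

/-- Invariant functions with regulated fibres are constant. -/
theorem final_reg (hp : IsConvexPolygon p) (hi : ∀ i, Irrational (ang p i / π))
    (hf : Measurable f) (hE : IsEigenfunction p 0 (fun _ => 1) f) (hC : RegulatedFibres p f) :
    ∃ c : ℂ, ∀ᵐ x : ℂ × ℝ, x ∈ phase p → f x = c := by
  have hir : ∀ j, Irrational ((tau p j - tau p (j - 1)) / π) := fun j =>
    irr_tau Pool.Agent.W337.BB.tau_th hp (hi j)
  obtain ⟨c, hc⟩ := bdd hp hir (meas_cp.comp hf) (fun x => cp_le _)
    (eigen_cp (fun _ => norm_one) hE) (by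
      filter_upwards [hC] with z hz hzr
      obtain ⟨g, hg, hgae⟩ := hz hzr
      refine ⟨fun θ => cp (g θ), reg_comp hg cp_cont, ?_⟩
      filter_upwards [hgae] with θ hθ
      simp only [Function.comp]
      rw [hθ])
  refine ⟨ci c, ?_⟩
  filter_upwards [hc] with x hx hxr
  rw [← hx hxr]
  exact (ci_cp (f x)).symm

theorem final_bv (hp : IsConvexPolygon p) (hi : ∀ i, Irrational (ang p i / π))
    (hf : Measurable f) (hE : IsEigenfunction p 0 (fun _ => 1) f) (hC : BVFibres p f) :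
    ∃ c : ℂ, ∀ᵐ x : ℂ × ℝ, x ∈ phase p → f x = c := by
  refine final_reg hp hi hf hE ?_
  filter_upwards [hC] with z hz hzr
  obtain ⟨g, hg, hgae⟩ := hz hzr
  exact ⟨g, reg_of_bv hg, hgae⟩

theorem final_arc (hp : IsConvexPolygon p) (hi : ∀ i, Irrational (ang p i / π))
    {A : Set (ℂ × ℝ)} (hA : MeasurableSet A) (hI : IsInvariant p A) (hC : ArcFibres p A) :
    IsTrivial p A := by
  classical
  obtain ⟨c, hc⟩ := final_reg hp hi (measurable_const.indicator hA) (eigen_ind hI)
    (reg_of_arc hI hC)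
  by_cases h : c = 0
  · left
    rw [measure_eq_zero_iff_ae_notMem]
    filter_upwards [hc] with x hx
    rintro ⟨h1, h2⟩
    have h3 := hx h1
    rw [indicator_of_mem h2, h] at h3
    exact one_ne_zero h3
  · right
    rw [measure_eq_zero_iff_ae_notMem]
    filter_upwards [hc] with x hx
    rintro ⟨h1, h2⟩
    have h3 := hx h1
    rw [indicator_of_notMem h2] at h3
    exact h h3.symm

end Pool.Agent.Zk55.RF
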