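import Pool.Agent.Zk55.RF.Word

set_option autoImplicit false

/-!
Strips of lines at a vertex: the first vertex in the strip.
-/

namespace Pool.Agent.Zk55.RF

open Complex Set MeasureTheory Filter Topology Pool.Agent.W780.PG Pool.Agent.W780.BB
  Pool.Agent.TH578.BE Pool.Agent.K3h17.BK Pool.Agent.Zk55.CF

open scoped Real ComplexConjugate

variable {n : ℕ} {p : Fin (n + 3) → ℂ}

theorem exit_vertex (hp : IsConvexPolygon p) {w : List (Fin (n + 3))}
    (hw : w ≠ []) {x : ℝ × ℝ} (h : RW p w x) {k : Fin (n + 3)}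
    (hk : ph x (uf p w (p k)) = 0) : ∃ u : ℝ, 0 < u ∧ p k - u • dir (fw p w x).1 ∈ reg p := by
  obtain ⟨hr1, -⟩ := Pool.Agent.W347.BB.ref n p hp
  obtain ⟨i, a1, a2, v, hv⟩ := last_entry hp hw h
  obtain ⟨y, hy, hy0⟩ := meets hp hw h
  have hk' : ph (fw p w x) (p k) = 0 := by
    rw [ph_fw hr1, hk, mul_zero]
  have n3 : k ≠ i := by rintro rfl; linarith
  have n4 : k ≠ i + 1 := by rintro rfl; linarith
  obtain ⟨Y', hY', hY'0, hY'1, -⟩ := entry_pt hp a1 a2
  have h1 : tt (fw p w x) y < tt (fw p w x) (p k) := by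
    by_contra hcon
    push Not at hcon
    rcases hcon.eq_or_lt with h2 | h2
    · have h3 := on_line hk' hy0
      rw [h2, sub_self, zero_smul, add_zero] at h3
      have h4 : 0 < sf p k y := hy k
      rw [h3] at h4
      have e3 : sf p k (p k) = 0 := Pool.Agent.W174.PG.lft_left _ _
      linarith
    · exact btw hp hY'0 hy0 hk' (hY'1 _ hk' (hp.pos i k n3 n4)) h2 (side_pos hp hY' n3) (hy k)
  refine ⟨tt (fw p w x) (p k) - tt (fw p w x) y, by linarith, ?_⟩
  have h3 := on_line hk' hy0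
  have e : p k - (tt (fw p w x) (p k) - tt (fw p w x) y) • dir (fw p w x).1 = y := by
    conv_rhs => rw [h3]
    rw [sub_smul, sub_smul]
    abel
  rw [e]
  exact hy

theorem meets0 (hp : IsConvexPolygon p) {w : List (Fin (n + 3))}
    (hw : w ≠ []) {x : ℝ × ℝ} (h : RW p w x) : ∃ z ∈ reg p, ph x z = 0 := by
  cases w with
  | nil => exact absurd rfl hw
  | cons i w =>
    obtain ⟨Y, -, r, -, h1, -, h3, -⟩ := cross hp h.1 h.2.1
    exact ⟨_, h1, h3⟩

theorem ph_lb0 (v : ℂ) (φ s : ℝ) (U : ℂ) : ph (lb v φ s) U = ph (lb v φ 0) U - s := by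
  rw [ph_lb, ph_lb]
  ring

theorem lb_shift (v U : ℂ) (φ s : ℝ) : lb v φ s = lb U φ (s - ph (lb v φ 0) U) := by
  rw [ph_lb]
  unfold lb
  ext
  · rfl
  · show _ = (conj (dir φ) * U).im + (s - ((conj (dir φ) * (U - v)).im - 0))
    rw [mul_sub, Complex.sub_im]
    ring

/-- A maximal word. -/
theorem exists_max {v : ℂ} {r φ : ℝ} {N : ℕ}
    (hN : ∀ w : List (Fin (n + 3)), w.length = N → φ ∉ As p v w r) {w0 : List (Fin (n + 3))}
    (hw0 : w0 ≠ []) (h0 : φ ∈ As p v w0 r) :
    ∃ w : List (Fin (n + 3)), w ≠ [] ∧ φ ∈ As p v w r ∧ ∀ i, φ ∉ As p v (w ++ [i]) r := by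
  by_contra hcon
  push Not at hcon
  have key : ∀ m : ℕ, ∃ w : List (Fin (n + 3)), w ≠ [] ∧ φ ∈ As p v w r ∧ m ≤ w.length := by
    intro m
    induction m with
    | zero => exact ⟨w0, hw0, h0, Nat.zero_le _⟩
    | succ m ih =>
      obtain ⟨w, h1, h2, h3⟩ := ih
      obtain ⟨i, hi⟩ := hcon w h1 h2
      exact ⟨w ++ [i], by simp, hi, by simp; omega⟩
  obtain ⟨w, -, h2, h3⟩ := key N
  refine hN (w.take N) (by simp [h3]) ⟨?_, ?_⟩
  · have := h2.1
    rw [← List.take_append_drop N w] at this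
    exact RW_prefix this
  · have := h2.2
    rw [← List.take_append_drop N w] at this
    exact RW_prefix this

/-- The first vertex in the strip. -/
theorem blocker (hp : IsConvexPolygon p) {v : ℂ} {r φ : ℝ} (hr : 0 < r) {w : List (Fin (n + 3))}
    (hw : w ≠ []) (h : φ ∈ As p v w r) (hmax : ∀ i, φ ∉ As p v (w ++ [i]) r) :
    ∃ k, |ph (lb v φ 0) (uf p w (p k))| ≤ r := by
  obtain ⟨hr1, -⟩ := Pool.Agent.W347.BB.ref n p hp
  by_contra hcon
  push Not at hcon
  have h0 : RW p w (lb v φ 0) := RW_of_As h (by rw [abs_zero]; exact hr.le)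
  obtain ⟨y, hy, hy0⟩ := meets hp hw h0
  have hne : ∀ k, ph (fw p w (lb v φ 0)) (p k) ≠ 0 := by
    intro k hk
    have h1 := ph_fw hr1 w (lb v φ 0) (p k)
    rw [hk] at h1
    have h2 := hcon k
    rcases mul_eq_zero.1 h1.symm with h3 | h3
    · exact pow_ne_zero _ (by norm_num) h3
    · rw [h3, abs_zero] at h2
      linarith
  obtain ⟨i, ⟨h1, h2⟩ | ⟨h1, -⟩⟩ := exit hp hy hy0
  · -- all lines of the strip leave through this side
    have key : ∀ s : ℝ, |s| = r → RW p w (lb v φ s) → RW p (w ++ [i]) (lb v φ s) := by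
      intro s hs hRW
      rw [RW_append]
      refine ⟨hRW, ?_, ?_, trivial⟩
      · rw [ph_fw hr1, ph_lb0]
        rw [ph_fw hr1] at h1
        have h3 := hcon i
        rcases neg_one_pow_eq_or ℝ w.length with e | e
        · rw [e, one_mul] at h1 ⊢
          rw [abs_of_neg h1] at h3
          have := abs_le.1 hs.le
          linarith
        · rw [e] at h1 ⊢
          have h4 : 0 < ph (lb v φ 0) (uf p w (p i)) := by linarith
          rw [abs_of_pos h4] at h3
          have := abs_le.1 hs.le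
          linarith
      · rw [ph_fw hr1, ph_lb0]
        rw [ph_fw hr1] at h2
        have h3 := hcon (i + 1)
        rcases neg_one_pow_eq_or ℝ w.length with e | e
        · rw [e, one_mul] at h2 ⊢
          rw [abs_of_pos h2] at h3
          have := abs_le.1 hs.le
          linarith
        · rw [e] at h2 ⊢
          have h4 : ph (lb v φ 0) (uf p w (p (i + 1))) < 0 := by linarith
          rw [abs_of_neg h4] at h3
          have := abs_le.1 hs.le
          linarith
    exact hmax i ⟨key r (abs_of_pos hr) h.1, key (-r) (by rw [abs_neg, abs_of_pos hr]) h.2⟩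
  · exact hne i h1

/-- The direction in which the first vertex is reached. -/
theorem inc_blocker (hp : IsConvexPolygon p) {v : ℂ} {r φ : ℝ} {w : List (Fin (n + 3))}
    (hw : w ≠ []) (h : φ ∈ As p v w r) {k : Fin (n + 3)}
    (hk : |ph (lb v φ 0) (uf p w (p k))| ≤ r) (s : ℝ) : (fw p w (lb v φ s)).1 ∈ Inc p k := by
  have h1 : RW p w (lb v φ (ph (lb v φ 0) (uf p w (p k)))) := RW_of_As h hk
  obtain ⟨u, hu, h2⟩ := exit_vertex hp hw h1 (k := k) (by rw [ph_lb0, sub_self])
  have h3 := inc_of_mem hp hu h2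
  have e := (fw_snd_aff (p := p) w φ ((conj (dir φ) * v).im + s)
    ((conj (dir φ) * v).im + ph (lb v φ 0) (uf p w (p k)))).2
  unfold lb at h3 ⊢
  rw [e]
  exact h3

theorem sg_one (w : List (Fin (n + 3))) : sg (fun _ => (1 : ℂ)) w = 1 := by
  induction w with
  | nil => rfl
  | cons i w ih => rw [sg, ih, mul_one]

theorem Fv_fw1 (hp : IsConvexPolygon p) {g : ℂ × ℝ → ℂ}
    (hE : IsEigenfunction p 0 (fun _ => 1) g) {w : List (Fin (n + 3))} (hw : w ≠ []) {x : ℝ × ℝ}
    (h : RW p w x) : Fv p g (fw p w x) = Fv p g x := by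
  obtain ⟨z, hz, hz0⟩ := meets0 hp hw h
  obtain ⟨y, hy, hy0⟩ := meets hp hw h
  rw [Fv_fw hp hE hz hz0 h hy hy0, sg_one, one_mul, Fv_eq hp hE hz hz0]

/-- The value on a line of the strip, in the coordinates at the first vertex. -/
theorem Kv_strip (hp : IsConvexPolygon p) {g : ℂ × ℝ → ℂ}
    (hE : IsEigenfunction p 0 (fun _ => 1) g) {j : Fin (n + 3)} {r φ s : ℝ}
    {w : List (Fin (n + 3))} (hw : w ≠ []) (h : φ ∈ As p (p j) w r) (hs : |s| ≤ r)
    (k : Fin (n + 3)) : fw p w (lb (p j) φ s) = lb (p k) (fw p w (lb (p j) φ s)).1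
      ((-1) ^ w.length * (s - ph (lb (p j) φ 0) (uf p w (p k)))) ∧
    Kv p g j (φ, s) = Kv p g k ((fw p w (lb (p j) φ s)).1,
      (-1) ^ w.length * (s - ph (lb (p j) φ 0) (uf p w (p k)))) := by
  obtain ⟨e, c, he, hec⟩ := fw_fst (p := p) w
  have h1 : fw p w (lb (p j) φ s) = lb (p k) (fw p w (lb (p j) φ s)).1
      ((-1) ^ w.length * (s - ph (lb (p j) φ 0) (uf p w (p k)))) := by
    rw [lb_shift (p j) (uf p w (p k)) φ s, fw_lb hp k hec]
    rfl
  refine ⟨h1, ?_⟩
  unfold Kv
  simp only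
  rw [← h1, Fv_fw1 hp hE hw (RW_of_As h hs)]

theorem open_As (v : ℂ) (w : List (Fin (n + 3))) (r : ℝ) : IsOpen (As p v w r) := by
  have h : ∀ s : ℝ, Continuous fun φ : ℝ => lb v φ s := fun s =>
    (cont_lb v).comp (continuous_id.prodMk continuous_const)
  exact ((isOpen_RW w).preimage (h r)).inter ((isOpen_RW w).preimage (h (-r)))

theorem As_mono {v : ℂ} {w : List (Fin (n + 3))} {r r' φ : ℝ} (h : φ ∈ As p v w r) (h0 : 0 ≤ r')
    (h1 : r' ≤ r) : φ ∈ As p v w r' :=
  ⟨RW_of_As h (by rw [abs_of_nonneg h0]; exact h1), RW_of_As h (by rw [abs_neg, abs_of_nonneg h0]; exact h1)⟩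

/-- For almost all directions leading into the polygon the lines near the vertex leave through one
side. -/
theorem first_side (hp : IsConvexPolygon p) (j : Fin (n + 3)) : ∀ᵐ φ : ℝ, φ ∈ Out p j →
    ∃ (i : Fin (n + 3)) (r : ℝ), 0 < r ∧ φ ∈ As p (p j) [i] r := by
  have hne : ∀ k : Fin (n + 3), k ≠ j → ∀ᵐ φ : ℝ, ph (lb (p j) φ 0) (p k) ≠ 0 := by
    intro k hk
    have h1 : p k - p j ≠ 0 := sub_ne_zero.2 fun h => hk ((Pool.Agent.W174.PG.basic n p hp).1 h)
    filter_upwards [ae_sin (arg (p k - p j))] with φ hφ h0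
    rw [ph_lb, sub_zero] at h0
    have e : p k - p j = (‖p k - p j‖ : ℂ) * dir (arg (p k - p j)) := by
      unfold dir
      exact (Complex.norm_mul_exp_arg_mul_I _).symm
    rw [e, dir_conj, mul_left_comm, dir_mul, Complex.im_ofReal_mul] at h0
    unfold dir at h0
    rw [Complex.exp_ofReal_mul_I_im] at h0
    rcases mul_eq_zero.1 h0 with h2 | h2
    · exact h1 (norm_eq_zero.1 h2)
    · apply hφ
      rw [← neg_sub, Real.sin_neg, show arg (p k - p j) - φ = -φ + arg (p k - p j) by ring, h2,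
        neg_zero]
  have hall : ∀ᵐ φ : ℝ, ∀ k : Fin (n + 3), k ≠ j → ph (lb (p j) φ 0) (p k) ≠ 0 := by
    rw [ae_all_iff]
    intro k
    by_cases hk : k = j
    · exact Filter.Eventually.of_forall fun φ h => absurd hk h
    · filter_upwards [hne k hk] with φ h _ using h
  filter_upwards [hall] with φ hφ hout
  obtain ⟨r2, hr2, hin⟩ := mem_of_inc hp j
  have h1 : φ - π ∈ Inc p j := by
    rw [← out_iff]
    simpa using hout
  have h2 := hin _ h1 r2 hr2 le_rfl
  set z := p j - r2 • dir (φ - π) with hz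
  have h3 : z = p j + r2 • dir φ := by
    have h4 := dirpi (φ - π)
    rw [sub_add_cancel] at h4
    rw [hz, h4, smul_neg, sub_eq_add_neg]
  have hl : ln z φ = lb (p j) φ 0 := by
    rw [ln_lb (p j), h3, add_sub_cancel_left, real_smul, mul_left_comm, conj_dir_mul, mul_one,
      Complex.ofReal_im]
  rcases vis_of_exit hp h2 (w := []) (θ := φ) trivial with ⟨i, hi⟩ | ⟨k, hk⟩
  · rw [hl, List.nil_append] at hi
    have hopen : ∀ᶠ s in 𝓝 (0 : ℝ), RW p [i] (lb (p j) φ s) := by
      have hc : Continuous fun s : ℝ => lb (p j) φ s :=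
        (cont_lb (p j)).comp (continuous_const.prodMk continuous_id)
      exact ((isOpen_RW [i]).preimage hc).mem_nhds hi
    obtain ⟨r, hr, hball⟩ := Metric.eventually_nhds_iff.1 hopen
    refine ⟨i, r / 2, by linarith, hball ?_, hball ?_⟩
    · rw [dist_zero_right, Real.norm_eq_abs, abs_of_pos (by linarith)]
      linarith
    · rw [dist_zero_right, Real.norm_eq_abs, abs_neg, abs_of_pos (by linarith)]
      linarith
  · exfalso
    obtain ⟨-, k1, k2, -⟩ := hk
    rw [hl] at k1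
    have k3 : uf p [] (p k) = p k := rfl
    rw [k3] at k1 k2
    by_cases hkj : k = j
    · subst hkj
      unfold rr at k2
      rw [h3] at k2
      have : conj (dir φ) * (p k - (p k + r2 • dir φ)) = -((r2 : ℂ) * (conj (dir φ) * dir φ)) := by
        rw [real_smul]; ring
      rw [this, conj_dir_mul, mul_one, Complex.neg_re, Complex.ofReal_re] at k2
      linarith
    · exact hφ k hkj k1

/-- The exceptional set is small. -/
theorem exc_small (hp : IsConvexPolygon p) (j : Fin (n + 3)) {a c : ℝ} (hout : Icc a c ⊆ Out p j) :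
    Tendsto (fun m : ℕ => volume {φ : ℝ | φ ∈ Icc a c ∧ ∀ i, φ ∉ As p (p j) [i]
      (1 / ((m : ℝ) + 1))}) atTop (𝓝 0) := by
  set T : ℕ → Set ℝ := fun m => {φ : ℝ | φ ∈ Icc a c ∧ ∀ i, φ ∉ As p (p j) [i]
      (1 / ((m : ℝ) + 1))} with hT
  have hTm : ∀ m, MeasurableSet (T m) := by
    intro m
    have e : T m = Icc a c ∩ ⋂ i, (As p (p j) [i] (1 / ((m : ℝ) + 1)))ᶜ := by
      ext φ
      simp [hT]
    rw [e]
    exact measurableSet_Icc.inter (MeasurableSet.iInter fun i => (open_As _ _ _).measurableSet.compl)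
  have hanti : Antitone T := by
    intro m m' hmm φ hφ
    refine ⟨hφ.1, fun i hi => hφ.2 i ?_⟩
    refine As_mono hi (by positivity) ?_
    have : (m : ℝ) ≤ m' := by exact_mod_cast hmm
    gcongr
  have hz : volume (⋂ m, T m) = 0 := by
    have h1 := first_side hp j
    refine measure_mono_null (t := {φ : ℝ | ¬ (φ ∈ Out p j → ∃ (i : Fin (n + 3)) (r : ℝ), 0 < r ∧
      φ ∈ As p (p j) [i] r)}) ?_ h1
    intro φ hφ hcon
    rw [mem_iInter] at hφ
    obtain ⟨i, r, hr, h2⟩ := hcon (hout (hφ 0).1)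
    obtain ⟨m, hm⟩ := exists_nat_one_div_lt hr
    exact (hφ m).2 i (As_mono h2 (by positivity) hm.le)
  have h := tendsto_measure_iInter_atTop (μ := volume) (fun m => (hTm m).nullMeasurableSet)
    hanti ⟨0, ((measure_mono (fun φ hφ => hφ.1)).trans_lt measure_Icc_lt_top).ne⟩
  rwa [hz] at h

end Pool.Agent.Zk55.RF
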