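import Pool.Agent.Zk55.RF.Word
import Pool.Agent.Zk9.RFD
import Pool.Agent.Zk80.RFB
import Pool.Agent.Zk99.RFC
import Pool.Agent.Zk58.RFG
import Pool.Agent.Zk86.RFH
import Pool.Agent.Zk40.RFF
import Pool.Agent.Zk98.RFK
import Pool.Agent.Zk77.RFJ.B
import Pool.Agent.Zk86.RFO

set_option autoImplicit false

namespace Pool.Agent.Zk55.RF

open Complex Set MeasureTheory Filter Topology Pool.Agent.W780.PG Pool.Agent.W780.BB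
  Pool.Agent.TH578.BE Pool.Agent.K3h17.BK Pool.Agent.Zk55.CF

open scoped Real ComplexConjugate

variable {n : ℕ} {p : Fin (n + 3) → ℂ} {χ : Fin (n + 3) → ℂ} {f : ℂ × ℝ → ℂ}

theorem side_lim (hp : IsConvexPolygon p) (hf : Measurable f) (hb : ∀ x, ‖f x‖ ≤ 1)
    (hE : IsEigenfunction p 0 χ f) {G : ℂ → ℝ → ℂ} {ε : ℝ} (hε : ε = 1 ∨ ε = -1)
    (hG : Sided p f ε G) (j : Fin (n + 3)) : ∃ L : ℝ → ℂ, Measurable L ∧ (∀ θ, ‖L θ‖ ≤ 1) ∧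
      (∀ θ, L (θ + 2 * π) = L θ) ∧ Tendsto (fun r : ℝ => (1 / r) * ∫ s in (0 : ℝ)..r,
        ∫ θ in (0 : ℝ)..(2 * π), (Inc p j).indicator (fun θ => ‖Kv p f j (θ, ε * s) - L θ‖) θ)
        (𝓝[>] 0) (𝓝 0) := Pool.Agent.Zk80.RF.side_lim hp hf hb hE hε hG j

theorem small_offset (hp : IsConvexPolygon p) (j : Fin (n + 3)) {a c : ℝ} (hac : a < c)
    (hout : Icc a c ⊆ Out p j) : ∃ C r0 : ℝ, 0 < C ∧ 0 < r0 ∧ ∀ r κ : ℝ, 0 < r → r < r0 → 0 < κ →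
      κ ≤ 1 / 8 → volume (⋃ w ∈ {w : List (Fin (n + 3)) | w ≠ []}, ⋃ k : Fin (n + 3),
        {φ : ℝ | φ ∈ Icc a c ∧ φ ∈ As p (p j) w r ∧
          |ph (lb (p j) φ 0) (uf p w (p k))| ≤ κ * r}) ≤ ENNReal.ofReal (C * κ) := Pool.Agent.Zk99.RF.small_offset hp j hac hout

theorem flux (hp : IsConvexPolygon p) (j : Fin (n + 3)) {a c r : ℝ} (hac : c < a + 2 * π)
    (hr : 0 < r) {S : List (Fin (n + 3)) → Set (ℝ × ℝ)} (hSm : ∀ w, MeasurableSet (S w))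
    (hS : ∀ w, ∀ x ∈ S w, w ≠ [] ∧ x.1 ∈ Icc a c ∧ x.1 ∈ As p (p j) w r ∧ |x.2| ≤ r / 2)
    {B : Set (ℝ × ℝ)} (hB : MeasurableSet B)
    (hper : ∀ θ s, (θ + 2 * π, s) ∈ B ↔ (θ, s) ∈ B) :
    ∑' w, volume {x ∈ S w | fw p w (lb (p j) x.1 x.2) ∈ B} ≤
      volume (B ∩ (Ico 0 (2 * π) ×ˢ univ)) := Pool.Agent.Zk9.RF.flux hp j hac hr hSm hS hB hper

theorem blocked (hp : IsConvexPolygon p) (j : Fin (n + 3)) {r : ℝ} (hr : 0 < r) :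
    ∀ᵐ φ : ℝ, ∃ N : ℕ, ∀ w : List (Fin (n + 3)), w.length = N → φ ∉ As p (p j) w r :=
  Pool.Agent.Zk9.RF.blocked hp j hr

theorem tri (hp : IsConvexPolygon p) {B C y0 : ℂ} (hB : B ∈ reg p) (hC : C ∈ reg p)
    (hy0 : y0 ∈ segment ℝ B C) {w : List (Fin (n + 3))} {k : Fin (n + 3)} {θ : ℝ}
    (hv : VisAt p y0 w k θ) : ∃ (u : List (Fin (n + 3))) (l : Fin (n + 3)),
      uf p u (p l) ∈ convexHull ℝ ({uf p w (p k), B, C} : Set ℂ) ∧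
      ∀ y ∈ segment ℝ B C, ∃ φ : ℝ, VisAt p y u l φ := Pool.Agent.Zk58.RF.tri hp hB hC hy0 hv

theorem pers (hp : IsConvexPolygon p) (hf : Measurable f) (hb : ∀ x, ‖f x‖ ≤ 1)
    (hE : IsEigenfunction p 0 (fun _ => 1) f) {ε : ℝ} (hε : ε = 1 ∨ ε = -1) {G G' : ℂ → ℝ → ℂ}
    (hG : Sided p f ε G) {W : List (Fin (n + 3))} (hG' : Sided p f ((-1) ^ W.length * ε) G')
    {θ0 s0 ρ : ℝ} {z0 : ℂ} {a : ℂ} (hρ : 0 < ρ) (hz0 : Metric.ball z0 ρ ⊆ reg p)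
    (h0 : ph (θ0, s0) z0 = 0) (hRW : ∀ σ, |σ - s0| < ρ → RW p W (θ0, σ))
    (ha : ∀ᵐ z : ℂ, z ∈ Metric.ball z0 ρ → G z θ0 = a) :
    ∀ᵐ z : ℂ, z ∈ reg p → |ph (fw p W (θ0, s0)) z| < ρ / 4 →
      G' z (fw p W (θ0, s0)).1 = a := Pool.Agent.Zk86.RF.pers hp hf hb hE hε hG hG' hρ hz0 h0 hRW ha

theorem per_vis (hp : IsConvexPolygon p) {θ s1 s2 : ℝ} {u : List (Fin (n + 3))}
    (h : PerStrip p θ s1 s2 u) {z : ℂ} (hz : z ∈ reg p) (h1 : s1 < (conj (dir θ) * z).im)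
    (h2 : (conj (dir θ) * z).im < s2) : ∃ k : Fin (n + 3), ∀ ε : ℝ, 0 < ε →
      (∃ α ∈ Ioo 0 ε, ∃ w, VisAt p z w k (θ + α)) ∧
      (∃ α ∈ Ioo 0 ε, ∃ w, VisAt p z w k (θ + π - α)) := Pool.Agent.Zk77.RF.per_vis hp h hz h1 h2

theorem ident_sided (hp : IsConvexPolygon p) (hf : Measurable f) (hb : ∀ x, ‖f x‖ ≤ 1)
    (hE : IsEigenfunction p 0 (fun _ => 1) f) {ε : ℝ} (hε : ε = 1 ∨ ε = -1) {G : ℂ → ℝ → ℂ}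
    (hG : Sided p f ε G) {c : Fin (n + 3) → ℂ}
    (hc : ∀ j, ∀ σ : ℝ, (σ = 1 ∨ σ = -1) → ∀ ψ : ℝ → ℂ, Continuous ψ → (∀ θ, ψ (θ + 2 * π) = ψ θ) →
      (∀ θ, ψ θ ≠ 0 → θ ∈ Inc p j) → Tendsto (fun ρ : ℝ => ∫ θ in (0 : ℝ)..(2 * π),
        ψ θ * Kp p f j (σ * ρ) θ) (𝓝[>] 0) (𝓝 (c j * ∫ θ in (0 : ℝ)..(2 * π), ψ θ))) :
    ∀ᵐ z : ℂ, z ∈ reg p → ∀ w j θ, VisAt p z w j θ → G z θ = c j := Pool.Agent.Zk40.RF.ident_sided hp hf hb hE hε hG hc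

theorem vtx_const_sided (hp : IsConvexPolygon p) (hf : Measurable f) (hb : ∀ x, ‖f x‖ ≤ 1)
    (hE : IsEigenfunction p 0 (fun _ => 1) f) (j : Fin (n + 3))
    (hir : Irrational ((tau p j - tau p (j - 1)) / π))
    (hJ : Tendsto (fun ρ : ℝ => ∫ θ in (0 : ℝ)..(2 * π), (Inc p j).indicator
      (fun θ => ‖Kp p f j ρ θ - Kp p f j (-ρ) θ‖) θ) (𝓝[>] 0) (𝓝 0))
    (hJ' : Tendsto (fun ρ : ℝ => ∫ θ in (0 : ℝ)..(2 * π), (Inc p j).indicator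
      (fun θ => ‖Kp p (frev f) j ρ θ - Kp p (frev f) j (-ρ) θ‖) θ) (𝓝[>] 0) (𝓝 0))
    {L : ℝ → ℂ} (hL : Measurable L) (hLb : ∀ θ, ‖L θ‖ ≤ 1)
    (hlim : Tendsto (fun ρ : ℝ => ∫ θ in (0 : ℝ)..(2 * π), (Inc p j).indicator
      (fun θ => ‖Kp p f j ρ θ - L θ‖) θ) (𝓝[>] 0) (𝓝 0)) :
    ∃ c : ℂ, ∀ g : ℂ × ℝ → ℂ, (g = f ∨ g = frev f) → ∀ σ : ℝ, (σ = 1 ∨ σ = -1) →
      ∀ ψ : ℝ → ℂ, Continuous ψ → (∀ θ, ψ (θ + 2 * π) = ψ θ) → (∀ θ, ψ θ ≠ 0 → θ ∈ Inc p j) →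
      Tendsto (fun ρ : ℝ => ∫ θ in (0 : ℝ)..(2 * π), ψ θ * Kp p g j (σ * ρ) θ) (𝓝[>] 0)
        (𝓝 (c * ∫ θ in (0 : ℝ)..(2 * π), ψ θ)) := Pool.Agent.Zk98.RF.vtx_const_sided hp hf hb hE j hir hJ hJ' hL hLb hlim

theorem returns (hp : IsConvexPolygon p) {θ0 s0 ρ : ℝ} (hρ : 0 < ρ)
    {W : ℕ → List (Fin (n + 3))} (hl : ∀ l, (W l).length = l)
    (hRW : ∀ l, ∀ σ, |σ - s0| < ρ → RW p (W l) (θ0, σ))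
    (hmeet : ∃ y ∈ reg p, ph (θ0, s0) y = 0) {J : ℂ → Set ℝ}
    (hJ : ∀ᵐ z : ℂ, z ∈ reg p → (J z ∩ Ico 0 (2 * π)).Finite ∧ ∀ θ, θ + 2 * π ∈ J z ↔ θ ∈ J z)
    (hin : ∀ l, ∀ᵐ z : ℂ, z ∈ reg p → |ph (fw p (W l) (θ0, s0)) z| < ρ →
      (fw p (W l) (θ0, s0)).1 ∈ J z) :
    ∃ l m : ℕ, l < m ∧ Even (m - l) ∧ ∃ σ σ' : ℝ, |σ - s0| < ρ ∧ |σ' - s0| < ρ ∧
      ∃ k : ℤ, fw p (W l) (θ0, σ) =
        ((fw p (W m) (θ0, σ')).1 + 2 * π * k, (fw p (W m) (θ0, σ')).2) :=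
  Pool.Agent.Zk86.RF.returns hp hρ hl hRW hmeet hJ hin

end Pool.Agent.Zk55.RF
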