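import Pool.Agent.Zk55.RF.Mods
import Pool.Agent.Zk55.RF.Base2
import Pool.Agent.Zk40.RFL
import Pool.Agent.Zk86.RFM
import Pool.Agent.Zk62.RFN
import Pool.Agent.Zk80.RFP
import Pool.Agent.Zk80.RFQ
import Pool.Agent.Zk86.RFR

set_option autoImplicit false

namespace Pool.Agent.Zk55.RF

open Complex Set MeasureTheory Filter Topology Pool.Agent.W780.PG Pool.Agent.W780.BB
  Pool.Agent.TH578.BE Pool.Agent.K3h17.BK Pool.Agent.Zk55.CF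

open scoped Real ComplexConjugate

variable {n : ℕ} {p : Fin (n + 3) → ℂ} {f : ℂ × ℝ → ℂ}

theorem regulated_sided (hp : IsConvexPolygon p) (hf : Measurable f) (hb : ∀ x, ‖f x‖ ≤ 1)
    (h : RegulatedFibres p f) : ∃ P M : ℂ → ℝ → ℂ, Sided p f 1 P ∧ Sided p f (-1) M ∧
      ∀ᵐ z : ℂ, z ∈ reg p → ∀ θ : ℝ, Tendsto (P z) (𝓝[>] θ) (𝓝 (P z θ)) ∧
        Tendsto (M z) (𝓝[>] θ) (𝓝 (P z θ)) ∧ Tendsto (P z) (𝓝[<] θ) (𝓝 (M z θ)) ∧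
        Tendsto (M z) (𝓝[<] θ) (𝓝 (M z θ)) := Pool.Agent.Zk80.RF.regulated_sided hp hf hb h

theorem const_of_right (hp : IsConvexPolygon p) (hf : Measurable f) (hb : ∀ x, ‖f x‖ ≤ 1)
    {P : ℂ → ℝ → ℂ} (hP : Sided p f 1 P) {c : ℂ} (h : ∀ᵐ z : ℂ, z ∈ reg p → ∀ θ, P z θ = c) :
    ∀ᵐ x : ℂ × ℝ, x ∈ phase p → f x = c := Pool.Agent.Zk80.RF.const_of_right hp hf hb hP h

theorem tri_end (hp : IsConvexPolygon p) {z0 : ℂ} (hz0 : z0 ∈ reg p) {ε : ℝ} (hε : 0 < ε) :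
    ∃ ρ : ℝ, 0 < ρ ∧ Metric.ball z0 ρ ⊆ reg p ∧ ∀ B ∈ Metric.ball z0 ρ, ∀ C ∈ Metric.ball z0 ρ,
      ∀ (θ : ℝ) (w : List (Fin (n + 3))) (k : Fin (n + 3)), VisAt p B w k θ →
      ∃ (u : List (Fin (n + 3))) (l : Fin (n + 3)),
        (∀ y ∈ segment ℝ B C, ∃ φ ∈ Ioo (θ - ε) (θ + ε), VisAt p y u l φ) ∧
        (∃ φ ∈ Ioo (θ - ε) (θ + ε), VisAt p B u l φ ∧
          0 ≤ (conj (dir θ) * (C - B)).im * (φ - θ)) ∧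
        (∃ φ ∈ Ioo (θ - ε) (θ + ε), VisAt p C u l φ ∧
          (conj (dir θ) * (C - B)).im * (φ - θ) ≤ 0) := Pool.Agent.Zk40.RF.tri_end hp hz0 hε

theorem tri_mid (hp : IsConvexPolygon p) {z0 : ℂ} (hz0 : z0 ∈ reg p) {ε : ℝ} (hε : 0 < ε) :
    ∃ ρ : ℝ, 0 < ρ ∧ Metric.ball z0 ρ ⊆ reg p ∧ ∀ B ∈ Metric.ball z0 ρ, ∀ C ∈ Metric.ball z0 ρ,
      ∀ y0 ∈ openSegment ℝ B C, ∀ (θ : ℝ) (w : List (Fin (n + 3))) (k : Fin (n + 3)),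
      VisAt p y0 w k θ → 0 < (conj (dir θ) * (C - B)).im →
      ∃ (u : List (Fin (n + 3))) (l : Fin (n + 3)),
        (∃ φ ∈ Ioo θ (θ + ε), VisAt p B u l φ) ∧ (∃ φ ∈ Ioo (θ - ε) θ, VisAt p C u l φ) :=
  Pool.Agent.Zk40.RF.tri_mid hp hz0 hε

theorem free_words (hp : IsConvexPolygon p) {B C : ℂ} (hB : B ∈ reg p) (hC : C ∈ reg p) {θ : ℝ}
    (hfree : ∀ y ∈ segment ℝ B C, ∀ w k, ¬ VisAt p y w k θ) (l : ℕ) :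
    ∃ W : List (Fin (n + 3)), W.length = l ∧ ∀ y ∈ segment ℝ B C, RW p W (ln y θ) :=
  Pool.Agent.Zk86.RF.free_words hp hB hC hfree l

theorem per_of_return (hp : IsConvexPolygon p) {θ0 s1 s2 : ℝ} (h12 : s1 < s2)
    {W : ℕ → List (Fin (n + 3))} (hl : ∀ l, (W l).length = l)
    (hRW : ∀ l, ∀ σ ∈ Icc s1 s2, RW p (W l) (θ0, σ))
    (hmeet : ∀ σ ∈ Icc s1 s2, ∃ y ∈ reg p, ph (θ0, σ) y = 0) {l m : ℕ} (hlm : l < m)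
    (hev : Even (m - l)) {σ σ' : ℝ} (hσ : σ ∈ Icc s1 s2) (hσ' : σ' ∈ Icc s1 s2) {k : ℤ}
    (he : fw p (W l) (θ0, σ) =
      ((fw p (W m) (θ0, σ')).1 + 2 * π * k, (fw p (W m) (θ0, σ')).2)) :
    ∃ u, PerStrip p θ0 s1 s2 u :=
  Pool.Agent.Zk62.RF.per_of_return hp h12 hl hRW hmeet hlm hev hσ hσ' he

theorem jumps_finite {c : Fin (n + 3) → ℂ} {P M : ℂ → ℝ → ℂ} {z : ℂ} (h : Typ p c P M z) :
    ({θ : ℝ | P z θ ≠ M z θ} ∩ Ico 0 (2 * π)).Finite := Pool.Agent.Zk86.RF.jumps_finite h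

theorem all_equal (hp : IsConvexPolygon p) {c : Fin (n + 3) → ℂ} {P M : ℂ → ℝ → ℂ} {z : ℂ}
    (hz : z ∈ reg p) (h : Typ p c P M z) (hno : ∀ θ, P z θ = M z θ) (i j : Fin (n + 3)) :
    c i = c j := Pool.Agent.Zk86.RF.all_equal hp hz h hno i j

end Pool.Agent.Zk55.RF
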