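import Pool.Agent.Zk55.RF.Typ
import Pool.Agent.Zk55.RF.Mods2

set_option autoImplicit false
set_option maxHeartbeats 400000

/-!
Two jumps of the same kind at nearby points.
-/

namespace Pool.Agent.Zk55.RF

open Complex Set MeasureTheory Filter Topology Pool.Agent.W780.PG Pool.Agent.W780.BB
  Pool.Agent.TH578.BE Pool.Agent.K3h17.BK Pool.Agent.Zk55.CF

open scoped Real ComplexConjugate

variable {n : ℕ} {p : Fin (n + 3) → ℂ} {χ : Fin (n + 3) → ℂ} {f : ℂ × ℝ → ℂ}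

theorem vis_pt {z : ℂ} {w : List (Fin (n + 3))} {k : Fin (n + 3)} {φ : ℝ} (h : VisAt p z w k φ) :
    ∃ T : ℝ, 0 < T ∧ uf p w (p k) = z + (T : ℂ) * dir φ := by
  obtain ⟨-, h1, h2, -⟩ := h
  rw [ph_ln] at h1
  unfold rr at h2
  refine ⟨_, h2, ?_⟩
  have h3 : conj (dir φ) * (uf p w (p k) - z) =
      (((conj (dir φ) * (uf p w (p k) - z)).re : ℝ) : ℂ) := by
    apply Complex.ext
    · rw [Complex.ofReal_re]
    · rw [Complex.ofReal_im, h1]
  rw [← h3]
  have h4 := conj_dir_mul φ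
  calc uf p w (p k) = z + (conj (dir φ) * dir φ) * (uf p w (p k) - z) := by rw [h4]; ring
    _ = _ := by ring

theorem cd_im (g φ : ℝ) : (conj (dir g) * dir φ).im = Real.sin (φ - g) := by
  rw [dir_conj, dir_mul]
  unfold dir
  rw [Complex.exp_ofReal_mul_I_im]
  congr 1
  ring

theorem off_pt {z : ℂ} {w : List (Fin (n + 3))} {k : Fin (n + 3)} {φ T : ℝ} (g : ℝ)
    (h : uf p w (p k) = z + (T : ℂ) * dir φ) :
    (conj (dir g) * uf p w (p k)).im - (conj (dir g) * z).im = T * Real.sin (φ - g) := by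
  rw [h, mul_add, Complex.add_im, add_sub_cancel_left, mul_left_comm, Complex.im_ofReal_mul, cd_im]

/-- Visibility in a fixed direction depends only on the line. -/
theorem free_line (hp : IsConvexPolygon p) {z y : ℂ} (hz : z ∈ reg p) (hy : y ∈ reg p) {g : ℝ}
    (hl : (conj (dir g) * z).im = (conj (dir g) * y).im) {w : List (Fin (n + 3))}
    {k : Fin (n + 3)} (h : VisAt p z w k g) : VisAt p y w k g := by
  have e : ln z g = ln y g := by
    unfold ln
    rw [hl]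
  by_cases hw : w = []
  · subst hw
    obtain ⟨h1, h2, h3, h4⟩ := h
    rw [e] at h1 h2 h4
    refine ⟨h1, h2, ?_, h4⟩
    rw [tt_rr] at h3 ⊢
    rw [e] at h3
    have h2' : ph (ln y g) (p k) = 0 := h2
    have h3' : 0 < tt (ln y g) (p k) - tt (ln y g) z := h3
    show 0 < tt (ln y g) (p k) - tt (ln y g) y
    by_contra hcon
    have h5 : tt (ln y g) (p k) ≠ tt (ln y g) y := by
      intro h6
      have h7 : p k = y := by
        have e1 : ph (ln y g) y = 0 := ph_ln_self y g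
        unfold ph tt at *
        have e2 : conj (dir (ln y g).1) * p k = conj (dir (ln y g).1) * y :=
          Complex.ext h6 (by linarith)
        have e3 := congrArg (fun v => dir (ln y g).1 * v) e2
        simp only [← mul_assoc] at e3
        rwa [mul_comm (dir (ln y g).1), conj_dir_mul, one_mul, one_mul] at e3
      have h8 := hy k
      rw [← h7] at h8
      rw [Pool.Agent.W174.PG.lft_left] at h8
      exact lt_irrefl _ h8
    have h6 : tt (ln y g) (p k) < tt (ln y g) y := lt_of_le_of_ne (by linarith) h5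
    refine btw hp (x := ln y g) (k := k) (A := z) (B := y) ?_ (ph_ln_self y g) h2' (by linarith) h6
      (hz k) (hy k)
    rw [← e]
    exact ph_ln_self z g
  · refine visAt_of hp hy hw ?_ ?_
    · rw [← e]; exact h.1
    · rw [← e]; exact h.2.1

/-- The conclusion of `tri_end`. -/
def TE (p : Fin (n + 3) → ℂ) (z0 : ℂ) (ε ρ : ℝ) : Prop :=
  ∀ B ∈ Metric.ball z0 ρ, ∀ C ∈ Metric.ball z0 ρ,
      ∀ (θ : ℝ) (w : List (Fin (n + 3))) (k : Fin (n + 3)), VisAt p B w k θ →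
      ∃ (u : List (Fin (n + 3))) (l : Fin (n + 3)),
        (∀ y ∈ segment ℝ B C, ∃ φ ∈ Ioo (θ - ε) (θ + ε), VisAt p y u l φ) ∧
        (∃ φ ∈ Ioo (θ - ε) (θ + ε), VisAt p B u l φ ∧
          0 ≤ (conj (dir θ) * (C - B)).im * (φ - θ)) ∧
        (∃ φ ∈ Ioo (θ - ε) (θ + ε), VisAt p C u l φ ∧
          (conj (dir θ) * (C - B)).im * (φ - θ) ≤ 0)

/-- The conclusion of `tri_mid`. -/
def TM (p : Fin (n + 3) → ℂ) (z0 : ℂ) (ε ρ : ℝ) : Prop :=
  ∀ B ∈ Metric.ball z0 ρ, ∀ C ∈ Metric.ball z0 ρ,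
      ∀ y0 ∈ openSegment ℝ B C, ∀ (θ : ℝ) (w : List (Fin (n + 3))) (k : Fin (n + 3)),
      VisAt p y0 w k θ → 0 < (conj (dir θ) * (C - B)).im →
      ∃ (u : List (Fin (n + 3))) (l : Fin (n + 3)),
        (∃ φ ∈ Ioo θ (θ + ε), VisAt p B u l φ) ∧ (∃ φ ∈ Ioo (θ - ε) θ, VisAt p C u l φ)

theorem near_pos {g : ℝ} {v : ℂ} (h : 0 < (conj (dir g) * v).im) :
    ∃ δ : ℝ, 0 < δ ∧ ∀ φ, |φ - g| < δ → 0 < (conj (dir φ) * v).im := by
  have hc : Continuous fun φ : ℝ => (conj (dir φ) * v).im := by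
    unfold dir
    fun_prop
  obtain ⟨δ, hδ, hs⟩ := Metric.mem_nhds_iff.1 (hc.continuousAt.eventually_const_lt h)
  exact ⟨δ, hδ, fun φ hφ => hs (by rwa [Metric.mem_ball, Real.dist_eq])⟩

theorem rot_pi (θ : ℝ) (v : ℂ) : (conj (dir (θ + π)) * v).im = - (conj (dir θ) * v).im := by
  rw [dirpi, map_neg, neg_mul, Complex.neg_im]

theorem im_swap (θ : ℝ) (A B : ℂ) : (conj (dir θ) * (A - B)).im = - (conj (dir θ) * (B - A)).im := by
  rw [← Complex.neg_im]
  congr 1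
  ring

theorem seg_lvl {A B : ℂ} {g s : ℝ} (hA : (conj (dir g) * A).im ≤ s)
    (hB : s ≤ (conj (dir g) * B).im) : ∃ y ∈ segment ℝ A B, (conj (dir g) * y).im = s := by
  have hc : Continuous fun y : ℂ => (conj (dir g) * y).im := by fun_prop
  obtain ⟨y, hy, h⟩ := (convex_segment (𝕜 := ℝ) A B).isPreconnected.intermediate_value
    (left_mem_segment ℝ A B) (right_mem_segment ℝ A B) hc.continuousOn ⟨hA, hB⟩
  exact ⟨y, hy, h⟩

theorem pair_eq {c : Fin (n + 3) → ℂ} {a b : ℂ} (hab : a ≠ b) {z0 zR zL : ℂ}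
    {q1 q2 gR gL ε ρ : ℝ} (hTE : TE p z0 ε ρ) (hR : zR ∈ Metric.ball z0 ρ)
    (hL : zL ∈ Metric.ball z0 ρ) (jR : Jm p c a b q1 q2 gR zR) (jL : Jm p c a b q1 q2 gL zL)
    (h1 : q1 + ε < gR) (h1' : q1 + ε < gL) (h2 : gR + ε < q2) (h2' : gL + ε < q2)
    (hd : ∀ a b : ℝ, a < b → ∃ θ ∈ Ioo a b, ∃ w k, VisAt p zR w k θ)
    {θ : ℝ} (hθ : θ = gR ∨ θ = gL) (hpos : 0 < (conj (dir θ) * (zL - zR)).im) : gR = gL := by
  obtain ⟨δ, hδ, hnear⟩ := near_pos hpos
  by_contra hne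
  rcases lt_or_gt_of_ne hne with h | h
  · obtain ⟨a', b', hab', hsub⟩ : ∃ a' b' : ℝ, a' < b' ∧ ∀ x ∈ Ioo a' b',
        gR < x ∧ x < gL ∧ |x - θ| < δ := by
      rcases hθ with rfl | rfl
      · refine ⟨θ, min gL (θ + δ), lt_min h (by linarith), fun x hx => ⟨hx.1, ?_, ?_⟩⟩
        · exact lt_of_lt_of_le hx.2 (min_le_left _ _)
        · have := lt_of_lt_of_le hx.2 (min_le_right _ _)
          rw [abs_lt]
          constructor <;> linarith [hx.1]
      · refine ⟨max gR (θ - δ), θ, max_lt h (by linarith), fun x hx => ⟨?_, hx.2, ?_⟩⟩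
        · exact lt_of_le_of_lt (le_max_left _ _) hx.1
        · have := lt_of_le_of_lt (le_max_right gR (θ - δ)) hx.1
          rw [abs_lt]
          constructor <;> linarith [hx.2]
    obtain ⟨x, hx, w, k, hv⟩ := hd a' b' hab'
    obtain ⟨x1, x2, x3⟩ := hsub x hx
    have hp' := hnear x x3
    obtain ⟨u, l, -, ⟨φB, hB, vB, sB⟩, ⟨φC, hC, vC, sC⟩⟩ := hTE zR hR zL hL x w k hv
    have e1 : 0 ≤ φB - x := nonneg_of_mul_nonneg_right sB hp'
    have e2 : φC - x ≤ 0 := by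
      by_contra hcon
      push Not at hcon
      have := mul_pos hp' hcon
      linarith
    apply hab
    rw [← jR.up φB ⟨by linarith, by linarith [hB.2]⟩ l ⟨u, Or.inl vB⟩,
      ← jL.dn φC ⟨by linarith [hC.1], by linarith⟩ l ⟨u, Or.inl vC⟩]
  · obtain ⟨a', b', hab', hsub⟩ : ∃ a' b' : ℝ, a' < b' ∧ ∀ x ∈ Ioo a' b',
        gL < x ∧ x < gR ∧ |x - θ| < δ := by
      rcases hθ with rfl | rfl
      · refine ⟨max gL (θ - δ), θ, max_lt h (by linarith), fun x hx => ⟨?_, hx.2, ?_⟩⟩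
        · exact lt_of_le_of_lt (le_max_left _ _) hx.1
        · have := lt_of_le_of_lt (le_max_right gL (θ - δ)) hx.1
          rw [abs_lt]
          constructor <;> linarith [hx.2]
      · refine ⟨θ, min gR (θ + δ), lt_min h (by linarith), fun x hx => ⟨hx.1, ?_, ?_⟩⟩
        · exact lt_of_lt_of_le hx.2 (min_le_left _ _)
        · have := lt_of_lt_of_le hx.2 (min_le_right _ _)
          rw [abs_lt]
          constructor <;> linarith [hx.1]
    obtain ⟨x', hx', w, k, hv⟩ := hd (a' + π) (b' + π) (by linarith)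
    obtain ⟨x1, x2, x3⟩ := hsub (x' - π) ⟨by linarith [hx'.1], by linarith [hx'.2]⟩
    have hp' := hnear (x' - π) x3
    obtain ⟨u, l, -, ⟨φB, hB, vB, sB⟩, ⟨φC, hC, vC, sC⟩⟩ := hTE zR hR zL hL x' w k hv
    have hr := rot_pi (x' - π) (zL - zR)
    rw [sub_add_cancel] at hr
    rw [hr] at sB sC
    have e1 : φB - x' ≤ 0 := by
      by_contra hcon
      push Not at hcon
      have := mul_pos hp' hcon
      linarith
    have e2 : 0 ≤ φC - x' := by
      by_contra hcon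
      push Not at hcon
      have := mul_pos hp' (show 0 < -(φC - x') by linarith)
      linarith
    apply hab
    rw [← jL.up (φC - π) ⟨by linarith, by linarith [hC.2]⟩ l
        ⟨u, Or.inr (by rwa [sub_add_cancel])⟩,
      ← jR.dn (φB - π) ⟨by linarith [hB.1], by linarith⟩ l
        ⟨u, Or.inr (by rwa [sub_add_cancel])⟩]

theorem pair_free {c : Fin (n + 3) → ℂ} {a b : ℂ} (hab : a ≠ b) {z0 zR zL : ℂ}
    {q1 q2 g ε ρ : ℝ} (hTM : TM p z0 ε ρ) (hR : zR ∈ Metric.ball z0 ρ)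
    (hL : zL ∈ Metric.ball z0 ρ) (jR : Jm p c a b q1 q2 g zR) (jL : Jm p c a b q1 q2 g zL)
    (h1 : q1 + ε < g) (h2 : g + ε < q2) (hpos : 0 < (conj (dir g) * (zL - zR)).im) :
    ∀ y ∈ segment ℝ zR zL, ∀ k, ¬ Sees p y k g := by
  intro y hy
  rw [← insert_endpoints_openSegment] at hy
  rcases hy with rfl | rfl | hy
  · exact jR.not_at
  · exact jL.not_at
  · rintro k ⟨w, h | h⟩
    · obtain ⟨u, l, ⟨φB, hB, vB⟩, ⟨φC, hC, vC⟩⟩ := hTM zR hR zL hL y hy g w k h hpos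
      apply hab
      rw [← jR.up φB ⟨hB.1, by linarith [hB.2]⟩ l ⟨u, Or.inl vB⟩,
        ← jL.dn φC ⟨by linarith [hC.1], hC.2⟩ l ⟨u, Or.inl vC⟩]
    · have hpos' : 0 < (conj (dir (g + π)) * (zR - zL)).im := by
        rw [rot_pi, im_swap, neg_neg]
        exact hpos
      rw [openSegment_symm] at hy
      obtain ⟨u, l, ⟨φB, hB, vB⟩, ⟨φC, hC, vC⟩⟩ := hTM zL hL zR hR y hy (g + π) w k h hpos'
      apply hab
      rw [← jL.up (φB - π) ⟨by linarith [hB.1], by linarith [hB.2]⟩ l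
          ⟨u, Or.inr (by rwa [sub_add_cancel])⟩,
        ← jR.dn (φC - π) ⟨by linarith [hC.1], by linarith [hC.2]⟩ l
          ⟨u, Or.inr (by rwa [sub_add_cancel])⟩]

/-- No vertex is visible in the direction `g` from a point between the lines. -/
theorem free_all (hp : IsConvexPolygon p) {zR zL : ℂ} (hR : zR ∈ reg p) (hL : zL ∈ reg p) {g : ℝ}
    (hfree : ∀ y ∈ segment ℝ zR zL, ∀ k, ¬ Sees p y k g) {y : ℂ} (hy : y ∈ reg p)
    (h1 : (conj (dir g) * zR).im ≤ (conj (dir g) * y).im)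
    (h2 : (conj (dir g) * y).im ≤ (conj (dir g) * zL).im) (w : List (Fin (n + 3)))
    (k : Fin (n + 3)) : ¬ VisAt p y w k g := by
  intro h
  obtain ⟨y', hy', e⟩ := seg_lvl h1 h2
  exact hfree y' hy' k ⟨w, Or.inl (free_line hp hy ((reg_cv hp).segment_subset hR hL hy') e.symm h)⟩

theorem local_P (hp : IsConvexPolygon p) {c : Fin (n + 3) → ℂ} {P M : ℂ → ℝ → ℂ} {a b : ℂ}
    {z0 zR zL : ℂ} {q1 q2 g ε ρ : ℝ} (hε : 0 < ε) (hεπ : 2 * ε < π) (hTE : TE p z0 ε ρ)
    (hball : Metric.ball z0 ρ ⊆ reg p) (hR : zR ∈ Metric.ball z0 ρ)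
    (hL : zL ∈ Metric.ball z0 ρ) (jR : Jm p c a b q1 q2 g zR) (h2 : g + ε < q2)
    (hfree : ∀ y ∈ segment ℝ zR zL, ∀ k, ¬ Sees p y k g) {z : ℂ} (hz : z ∈ Metric.ball z0 ρ)
    (hT : Typ p c P M z) (hσ1 : (conj (dir g) * zR).im < (conj (dir g) * z).im)
    (hσ2 : (conj (dir g) * z).im < (conj (dir g) * zL).im) : P z g = a := by
  obtain ⟨δ1, hδ1, hr⟩ := hT.right g
  have hpos : 0 < (conj (dir g) * (z - zR)).im := by
    rw [mul_sub, Complex.sub_im]
    linarith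
  obtain ⟨δ2, hδ2, hnear⟩ := near_pos hpos
  obtain ⟨m, hm0, hm1, hm2, hm3, hm4⟩ : ∃ m : ℝ, 0 < m ∧ m ≤ δ1 ∧ m ≤ δ2 ∧ m ≤ ε ∧
      m ≤ q2 - ε - g := by
    refine ⟨min (min δ1 δ2) (min ε (q2 - ε - g)), lt_min (lt_min hδ1 hδ2)
      (lt_min hε (by linarith)), ?_, ?_, ?_, ?_⟩
    · exact (min_le_left _ _).trans (min_le_left _ _)
    · exact (min_le_left _ _).trans (min_le_right _ _)
    · exact (min_le_right _ _).trans (min_le_left _ _)
    · exact (min_le_right _ _).trans (min_le_right _ _)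
  obtain ⟨x, hx, w, k, hv⟩ := hT.dense g (g + m) (by linarith)
  obtain ⟨u, l, hseg, ⟨φB, hB, vB, sB⟩, ⟨φC, hC, vC, sC⟩⟩ := hTE z hz zR hR x w k hv
  have hp' : 0 < (conj (dir x) * (z - zR)).im := hnear x (by
    rw [abs_lt]; constructor <;> linarith [hx.1, hx.2])
  rw [im_swap] at sB sC
  have e1 : φB - x ≤ 0 := by
    by_contra hcon
    push Not at hcon
    have := mul_pos hp' hcon
    linarith
  have e2 : 0 ≤ φC - x := by
    by_contra hcon
    push Not at hcon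
    have := mul_pos hp' (show 0 < -(φC - x) by linarith)
    linarith
  have ha : c l = a := jR.up φC ⟨by linarith [hx.1], by linarith [hC.2, hx.2]⟩ l ⟨u, Or.inl vC⟩
  rcases lt_or_ge g φB with hlt | hge
  · rw [← ha]
    exact (hr φB ⟨hlt, by linarith [hx.2]⟩ l ⟨u, Or.inl vB⟩).symm
  · exfalso
    obtain ⟨T, hT0, eT⟩ := vis_pt vB
    obtain ⟨T', hT0', eT'⟩ := vis_pt vC
    have o1 := off_pt g eT
    have o2 := off_pt g eT'
    have s1 : Real.sin (φB - g) ≤ 0 := Real.sin_nonpos_of_nonpos_of_neg_pi_le (by linarith)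
      (by linarith [hB.1, hx.1])
    have s2 : 0 < Real.sin (φC - g) := Real.sin_pos_of_pos_of_lt_pi (by linarith [hx.1])
      (by linarith [hC.2, hx.2])
    have o1' : T * Real.sin (φB - g) ≤ 0 := mul_nonpos_of_nonneg_of_nonpos hT0.le s1
    have o2' := mul_pos hT0' s2
    obtain ⟨y, hy, ey⟩ := seg_lvl (A := zR) (B := z) (g := g) (s := (conj (dir g) * uf p u (p l)).im)
      (by linarith) (by linarith)
    obtain ⟨φy, hφy, vy⟩ := hseg y (by rw [segment_symm]; exact hy)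
    obtain ⟨T3, hT3, eT3⟩ := vis_pt vy
    have o3 := off_pt g eT3
    rw [ey, sub_self] at o3
    have s3 : Real.sin (φy - g) = 0 := by
      rcases mul_eq_zero.1 o3.symm with h | h
      · exact absurd h hT3.ne'
      · exact h
    have s4 : φy - g = 0 := (Real.sin_eq_zero_iff_of_lt_of_lt (by linarith [hφy.1, hx.1])
      (by linarith [hφy.2, hx.2])).1 s3
    have s5 : φy = g := by linarith
    rw [s5] at vy
    exact free_all hp (hball hR) (hball hL) hfree ((reg_cv hp).segment_subset (hball hR) (hball hz) hy)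
      (by rw [ey]; linarith) (by rw [ey]; linarith) u l vy

theorem local_M (hp : IsConvexPolygon p) {c : Fin (n + 3) → ℂ} {P M : ℂ → ℝ → ℂ} {a b : ℂ}
    {z0 zR zL : ℂ} {q1 q2 g ε ρ : ℝ} (hε : 0 < ε) (hεπ : 2 * ε < π) (hTE : TE p z0 ε ρ)
    (hball : Metric.ball z0 ρ ⊆ reg p) (hR : zR ∈ Metric.ball z0 ρ)
    (hL : zL ∈ Metric.ball z0 ρ) (jL : Jm p c a b q1 q2 g zL) (h1 : q1 + ε < g)
    (hfree : ∀ y ∈ segment ℝ zR zL, ∀ k, ¬ Sees p y k g) {z : ℂ} (hz : z ∈ Metric.ball z0 ρ)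
    (hT : Typ p c P M z) (hσ1 : (conj (dir g) * zR).im < (conj (dir g) * z).im)
    (hσ2 : (conj (dir g) * z).im < (conj (dir g) * zL).im) : M z g = b := by
  obtain ⟨δ1, hδ1, hr⟩ := hT.left g
  have hpos : 0 < (conj (dir g) * (zL - z)).im := by
    rw [mul_sub, Complex.sub_im]
    linarith
  obtain ⟨δ2, hδ2, hnear⟩ := near_pos hpos
  obtain ⟨m, hm0, hm1, hm2, hm3, hm4⟩ : ∃ m : ℝ, 0 < m ∧ m ≤ δ1 ∧ m ≤ δ2 ∧ m ≤ ε ∧
      m ≤ g - ε - q1 := by
    refine ⟨min (min δ1 δ2) (min ε (g - ε - q1)), lt_min (lt_min hδ1 hδ2)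
      (lt_min hε (by linarith)), ?_, ?_, ?_, ?_⟩
    · exact (min_le_left _ _).trans (min_le_left _ _)
    · exact (min_le_left _ _).trans (min_le_right _ _)
    · exact (min_le_right _ _).trans (min_le_left _ _)
    · exact (min_le_right _ _).trans (min_le_right _ _)
  obtain ⟨x, hx, w, k, hv⟩ := hT.dense (g - m) g (by linarith)
  obtain ⟨u, l, hseg, ⟨φB, hB, vB, sB⟩, ⟨φC, hC, vC, sC⟩⟩ := hTE z hz zL hL x w k hv
  have hp' : 0 < (conj (dir x) * (zL - z)).im := hnear x (by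
    rw [abs_lt]; constructor <;> linarith [hx.1, hx.2])
  have e1 : 0 ≤ φB - x := nonneg_of_mul_nonneg_right sB hp'
  have e2 : φC - x ≤ 0 := by
    by_contra hcon
    push Not at hcon
    have := mul_pos hp' hcon
    linarith
  have ha : c l = b := jL.dn φC ⟨by linarith [hC.1, hx.1], by linarith [hx.2]⟩ l ⟨u, Or.inl vC⟩
  rcases lt_or_ge φB g with hlt | hge
  · rw [← ha]
    exact (hr φB ⟨by linarith [hx.1], hlt⟩ l ⟨u, Or.inl vB⟩).symm
  · exfalso
    obtain ⟨T, hT0, eT⟩ := vis_pt vB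
    obtain ⟨T', hT0', eT'⟩ := vis_pt vC
    have o1 := off_pt g eT
    have o2 := off_pt g eT'
    have s1 : 0 ≤ Real.sin (φB - g) := Real.sin_nonneg_of_nonneg_of_le_pi (by linarith)
      (by linarith [hB.2, hx.2])
    have s2 : Real.sin (φC - g) < 0 := Real.sin_neg_of_neg_of_neg_pi_lt (by linarith [hx.2])
      (by linarith [hC.1, hx.1])
    have o1' : 0 ≤ T * Real.sin (φB - g) := mul_nonneg hT0.le s1
    have o2' := mul_neg_of_pos_of_neg hT0' s2
    obtain ⟨y, hy, ey⟩ := seg_lvl (A := z) (B := zL) (g := g) (s := (conj (dir g) * uf p u (p l)).im)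
      (by linarith) (by linarith)
    obtain ⟨φy, hφy, vy⟩ := hseg y hy
    obtain ⟨T3, hT3, eT3⟩ := vis_pt vy
    have o3 := off_pt g eT3
    rw [ey, sub_self] at o3
    have s3 : Real.sin (φy - g) = 0 := by
      rcases mul_eq_zero.1 o3.symm with h | h
      · exact absurd h hT3.ne'
      · exact h
    have s4 : φy - g = 0 := (Real.sin_eq_zero_iff_of_lt_of_lt (by linarith [hφy.1, hx.1])
      (by linarith [hφy.2, hx.2])).1 s3
    have s5 : φy = g := by linarith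
    rw [s5] at vy
    exact free_all hp (hball hR) (hball hL) hfree ((reg_cv hp).segment_subset (hball hz) (hball hL) hy)
      (by rw [ey]; linarith) (by rw [ey]; linarith) u l vy

end Pool.Agent.Zk55.RF
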