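import Pool.Agent.Zk55.RF.Avg
import Pool.Agent.Zk55.RF.Mods

set_option autoImplicit false

/-!
The limits from both sides at a vertex agree.
-/

namespace Pool.Agent.Zk55.RF

open Complex Set MeasureTheory Filter Topology Pool.Agent.W780.PG Pool.Agent.W780.BB
  Pool.Agent.TH578.BE Pool.Agent.K3h17.BK Pool.Agent.Zk55.CF

open scoped Real ComplexConjugate

variable {n : ℕ} {p : Fin (n + 3) → ℂ} {χ : Fin (n + 3) → ℂ} {f : ℂ × ℝ → ℂ}

/-- Markov's inequality on a rectangle, for periodic functions. -/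
theorem markov_per {u : ℝ × ℝ → ℝ} (hu : Measurable u) (h0 : ∀ x, 0 ≤ u x) (h2 : ∀ x, u x ≤ 2)
    (hper : ∀ θ s, u (θ + 2 * π, s) = u (θ, s)) (a : ℝ)
    {η R : ℝ} (hη : 0 < η) (hR : 0 ≤ R) :
    volume {x : ℝ × ℝ | x.1 ∈ Ico a (a + 2 * π) ∧ x.2 ∈ Ioo 0 R ∧ η < u x} ≤
      ENNReal.ofReal ((1 / η) * ∫ s in (0 : ℝ)..R, ∫ θ in (0 : ℝ)..(2 * π), u (θ, s)) := by
  have hmp : MeasurePreserving (fun x : ℝ × ℝ => (x.1 + a, x.2)) (volume : Measure (ℝ × ℝ))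
      volume := (measurePreserving_add_right (volume : Measure ℝ) a).prod (MeasurePreserving.id _)
  have h := markov (u := fun x => u (x.1 + a, x.2)) (hu.comp hmp.measurable) (fun x => h0 _)
    (fun x => h2 _) hη hR
  have e : ∀ s : ℝ, ∫ θ in (0 : ℝ)..(2 * π), u (θ + a, s) = ∫ θ in (0 : ℝ)..(2 * π), u (θ, s) := by
    intro s
    have hp : Function.Periodic (fun θ => u (θ, s)) (2 * π) := fun θ => hper θ s
    rw [intervalIntegral.integral_comp_add_right (fun θ => u (θ, s)) a]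
    have := hp.intervalIntegral_add_eq a 0
    rw [zero_add, add_comm (2 * π) a, this, zero_add]
  simp only [e] at h
  refine le_trans (le_of_eq ?_) h
  have hms : MeasurableSet {x : ℝ × ℝ | x.1 ∈ Ico a (a + 2 * π) ∧ x.2 ∈ Ioo 0 R ∧ η < u x} := by
    refine (measurable_fst measurableSet_Ico).inter (MeasurableSet.inter ?_ ?_)
    · exact measurable_snd measurableSet_Ioo
    · exact measurableSet_lt measurable_const hu
  rw [← hmp.measure_preimage hms.nullMeasurableSet]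
  congr 1
  ext x
  simp only [mem_preimage, mem_ofPred_eq, mem_Ico, mem_Ioo]
  constructor
  · rintro ⟨⟨a1, a2⟩, a3, a4⟩
    exact ⟨⟨by linarith, by linarith⟩, a3, a4⟩
  · rintro ⟨⟨a1, a2⟩, a3, a4⟩
    exact ⟨⟨by linarith, by linarith⟩, a3, a4⟩

theorem inc_per (j : Fin (n + 3)) (θ : ℝ) : θ + 2 * π ∈ Inc p j ↔ θ ∈ Inc p j := by
  unfold Inc
  simp only [mem_ofPred_eq]
  rw [show θ + 2 * π - tau p j = θ - tau p j + 2 * π by ring,
    show θ + 2 * π - tau p (j - 1) = θ - tau p (j - 1) + 2 * π by ring, Real.sin_add_two_pi,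
    Real.sin_add_two_pi]

theorem dev_per (hE : IsEigenfunction p 0 χ f) (j : Fin (n + 3)) (ε : ℝ) {L : ℝ → ℂ}
    (hL : ∀ θ, L (θ + 2 * π) = L θ) (θ s : ℝ) :
    dev p f j ε L (θ + 2 * π, s) = dev p f j ε L (θ, s) := by
  unfold dev
  simp only
  by_cases h : θ ∈ Inc p j
  · rw [indicator_of_mem h, indicator_of_mem ((inc_per j θ).2 h), Kv_per hE, hL]
  · rw [indicator_of_notMem h, indicator_of_notMem fun h' => h ((inc_per j θ).1 h')]

/-- The coordinates at the vertex `k`. -/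
noncomputable def ck (p : Fin (n + 3) → ℂ) (k : Fin (n + 3)) (y : ℝ × ℝ) : ℝ × ℝ :=
  (y.1, y.2 - (conj (dir y.1) * p k).im)

theorem ck_lb (k : Fin (n + 3)) (θ t : ℝ) : ck p k (lb (p k) θ t) = (θ, t) := by
  unfold ck lb
  simp only
  ext
  · rfl
  · show (conj (dir θ) * p k).im + t - (conj (dir θ) * p k).im = t
    ring

theorem lb_ck (k : Fin (n + 3)) (y : ℝ × ℝ) : lb (p k) (ck p k y).1 (ck p k y).2 = y := by
  unfold ck lb
  simp only
  ext
  · rfl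
  · show (conj (dir y.1) * p k).im + (y.2 - (conj (dir y.1) * p k).im) = y.2
    ring

theorem ck_cont (k : Fin (n + 3)) : Continuous (ck p k) := by
  unfold ck
  have := cont_dir
  have := continuous_conj
  fun_prop

theorem ck_vol (k : Fin (n + 3)) {A : Set (ℝ × ℝ)} (hA : MeasurableSet A) :
    volume (ck p k ⁻¹' A) = volume A := by
  have h1 := Pool.Agent.Zk9.RF.lb_mp (p k)
  have h2 : MeasurableSet (ck p k ⁻¹' A) := (ck_cont k).measurable hA
  rw [← h1.measure_preimage h2.nullMeasurableSet]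
  congr 1
  ext x
  simp only [mem_preimage]
  rw [ck_lb]

/-- The bad lines. -/
def BadA (p : Fin (n + 3) → ℂ) (g : ℂ × ℝ → ℂ) (N : Fin (n + 3) → ℝ → ℝ → ℂ) (η r : ℝ) :
    Set (ℝ × ℝ) :=
  ⋃ k, (ck p k ⁻¹' BadK p g k 1 (N k 1) η r) ∪ (ck p k ⁻¹' BadK p g k (-1) (N k (-1)) η r)

theorem BadK_per {g : ℂ × ℝ → ℂ} (hE : IsEigenfunction p 0 χ g) (k : Fin (n + 3)) (ε : ℝ)
    {N : ℝ → ℂ} (hN : ∀ θ, N (θ + 2 * π) = N θ) (η r θ s : ℝ) :
    (θ + 2 * π, s) ∈ BadK p g k ε N η r ↔ (θ, s) ∈ BadK p g k ε N η r := by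
  unfold BadK
  simp only [mem_ofPred_eq]
  rw [inc_per, Kv_per hE, hN]

theorem ck_per (k : Fin (n + 3)) (θ s : ℝ) :
    ck p k (θ + 2 * π, s) = ((ck p k (θ, s)).1 + 2 * π, (ck p k (θ, s)).2) := by
  unfold ck
  simp only [dir_two_pi]

theorem BadA_per {g : ℂ × ℝ → ℂ} (hE : IsEigenfunction p 0 χ g)
    {N : Fin (n + 3) → ℝ → ℝ → ℂ} (hN : ∀ k ε θ, N k ε (θ + 2 * π) = N k ε θ) (η r θ s : ℝ) :
    (θ + 2 * π, s) ∈ BadA p g N η r ↔ (θ, s) ∈ BadA p g N η r := by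
  unfold BadA
  simp only [mem_iUnion, mem_union, mem_preimage]
  refine exists_congr fun k => ?_
  rw [ck_per, BadK_per hE k 1 (hN k 1), BadK_per hE k (-1) (hN k (-1))]

theorem BadA_meas (hp : IsConvexPolygon p) {g : ℂ × ℝ → ℂ} (hg : Measurable g)
    {N : Fin (n + 3) → ℝ → ℝ → ℂ} (hN : ∀ k ε, Measurable (N k ε)) (η r : ℝ) :
    MeasurableSet (BadA p g N η r) := by
  unfold BadA
  refine MeasurableSet.iUnion fun k => ?_
  exact ((ck_cont k).measurable (BadK_meas hp hg k 1 (hN k 1) η r)).union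
    ((ck_cont k).measurable (BadK_meas hp hg k (-1) (hN k (-1)) η r))

/-- The double integral of the deviation. -/
noncomputable def DI (p : Fin (n + 3) → ℂ) (g : ℂ × ℝ → ℂ) (k : Fin (n + 3)) (ε : ℝ) (N : ℝ → ℂ)
    (r : ℝ) : ℝ :=
  ∫ s in (0 : ℝ)..r, ∫ θ in (0 : ℝ)..(2 * π),
    (Inc p k).indicator (fun θ => ‖Kv p g k (θ, ε * s) - N θ‖) θ

theorem DI_nonneg (g : ℂ × ℝ → ℂ) (k : Fin (n + 3)) (ε : ℝ) (N : ℝ → ℂ) {r : ℝ} (hr : 0 ≤ r) :
    0 ≤ DI p g k ε N r := by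
  have hpi := Real.pi_pos
  unfold DI
  refine intervalIntegral.integral_nonneg hr fun s _ => ?_
  exact intervalIntegral.integral_nonneg (by positivity) fun θ _ =>
    indicator_nonneg (fun _ _ => norm_nonneg _) _

theorem BadA_vol (hp : IsConvexPolygon p) {g : ℂ × ℝ → ℂ} (hg : Measurable g)
    (hb : ∀ x, ‖g x‖ ≤ 1) (hE : IsEigenfunction p 0 χ g)
    {N : Fin (n + 3) → ℝ → ℝ → ℂ} (hN : ∀ k ε, Measurable (N k ε))
    (hNb : ∀ k ε θ, ‖N k ε θ‖ ≤ 1) {η r : ℝ} (hη : 0 < η) (hr : 0 ≤ r) :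
    volume (BadA p g N η r ∩ (Ico 0 (2 * π) ×ˢ univ)) ≤ ENNReal.ofReal ((1 / η) *
      ∑ k, (DI p g k 1 (N k 1) r + DI p g k (-1) (N k (-1)) r)) := by
  have hone : ∀ k : Fin (n + 3), ∀ ε : ℝ, (ε = 1 ∨ ε = -1) →
      volume ((ck p k ⁻¹' BadK p g k ε (N k ε) η r) ∩ (Ico 0 (2 * π) ×ˢ univ)) ≤
        ENNReal.ofReal ((1 / η) * DI p g k ε (N k ε) r) := by
    intro k ε hε
    have h1 := BadK_le hp hg hb hE k hε (hN k ε) (hNb k ε) hη hr
    refine le_trans (le_of_eq ?_) h1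
    have hm := BadK_meas hp hg k ε (hN k ε) η r
    rw [← ck_vol k (hm.inter (measurableSet_Ico.prod MeasurableSet.univ))]
    congr 1
  have hsub : BadA p g N η r ∩ (Ico 0 (2 * π) ×ˢ univ) ⊆ ⋃ k ∈ (Finset.univ : Finset (Fin (n + 3))),
      (((ck p k ⁻¹' BadK p g k 1 (N k 1) η r) ∩ (Ico 0 (2 * π) ×ˢ univ)) ∪
      ((ck p k ⁻¹' BadK p g k (-1) (N k (-1)) η r) ∩ (Ico 0 (2 * π) ×ˢ univ))) := by
    rintro x ⟨h1, h2⟩
    unfold BadA at h1
    rw [mem_iUnion] at h1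
    obtain ⟨k, h1⟩ := h1
    simp only [mem_iUnion]
    refine ⟨k, Finset.mem_univ _, ?_⟩
    rcases h1 with h1 | h1
    · exact Or.inl ⟨h1, h2⟩
    · exact Or.inr ⟨h1, h2⟩
  refine (measure_mono hsub).trans ((measure_biUnion_finset_le _ _).trans ?_)
  rw [Finset.mul_sum, ENNReal.ofReal_sum_of_nonneg (fun k _ => by
    have := DI_nonneg (p := p) g k 1 (N k 1) hr
    have := DI_nonneg (p := p) g k (-1) (N k (-1)) hr
    positivity)]
  refine Finset.sum_le_sum fun k _ => ?_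
  refine (measure_union_le _ _).trans ?_
  rw [mul_add, ENNReal.ofReal_add (by
    have := DI_nonneg (p := p) g k 1 (N k 1) hr
    positivity) (by
    have := DI_nonneg (p := p) g k (-1) (N k (-1)) hr
    positivity)]
  exact add_le_add (hone k 1 (Or.inl rfl)) (hone k (-1) (Or.inr rfl))

end Pool.Agent.Zk55.RF
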