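import Pool.Agent.Zk55.RF.Side

set_option autoImplicit false
set_option maxHeartbeats 400000

/-!
The limits from both sides at a vertex agree, end.
-/

namespace Pool.Agent.Zk55.RF

open Complex Set MeasureTheory Filter Topology Pool.Agent.W780.PG Pool.Agent.W780.BB
  Pool.Agent.TH578.BE Pool.Agent.K3h17.BK Pool.Agent.Zk55.CF

open scoped Real ComplexConjugate

variable {n : ℕ} {p : Fin (n + 3) → ℂ} {χ : Fin (n + 3) → ℂ} {f : ℂ × ℝ → ℂ}

theorem Kv_frev (hp : IsConvexPolygon p) (hE : IsEigenfunction p 0 (fun _ => 1) f)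
    (j : Fin (n + 3)) (φ s : ℝ) : Kv p (frev f) j (φ, s) = Kv p f j (φ - π, -s) := by
  rw [Kv_rev hp (fun _ => Or.inl rfl) hE]
  have := Kv_per hE j (φ - π) (-s)
  rw [← this]
  congr 2
  ring

/-- The value at the two symmetric lines of a strip. -/
theorem strip_pair (hp : IsConvexPolygon p) {g : ℂ × ℝ → ℂ}
    (hE : IsEigenfunction p 0 (fun _ => 1) g) {j k : Fin (n + 3)} {r φ s κ η : ℝ}
    {w : List (Fin (n + 3))} (hw : w ≠ []) (h : φ ∈ As p (p j) w r) (hκ1 : κ ≤ 1 / 8)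
    (hr : 0 < r) (hs0 : 0 < s) (hs : s < κ * r / 4)
    (hO1 : κ * r < |ph (lb (p j) φ 0) (uf p w (p k))|)
    (hO2 : |ph (lb (p j) φ 0) (uf p w (p k))| ≤ r) {N : Fin (n + 3) → ℝ → ℝ → ℂ}
    (hb1 : fw p w (lb (p j) φ s) ∉ BadA p g N η (2 * r))
    (hb2 : fw p w (lb (p j) φ (-s)) ∉ BadA p g N η (2 * r)) :
    ‖Kv p g j (φ, s) - Kv p g j (φ, -s)‖ ≤ 2 * η := by
  set O := ph (lb (p j) φ 0) (uf p w (p k)) with hO
  set e : ℝ := (-1) ^ w.length with he
  have hsr : |s| ≤ r := by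
    rw [abs_of_pos hs0]
    nlinarith
  have hsr' : |(-s)| ≤ r := by rwa [abs_neg]
  obtain ⟨a1, a2⟩ := Kv_strip hp hE hw h hsr k
  obtain ⟨b1, b2⟩ := Kv_strip hp hE hw h hsr' k
  rw [← hO, ← he] at a1 a2 b1 b2
  have hinc := inc_blocker hp hw h hO2 s
  have hdir : (fw p w (lb (p j) φ (-s))).1 = (fw p w (lb (p j) φ s)).1 :=
    (fw_snd_aff (p := p) w φ ((conj (dir φ) * p j).im + -s) ((conj (dir φ) * p j).im + s)).2
  rw [hdir] at b1 b2
  set θ := (fw p w (lb (p j) φ s)).1 with hθ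
  have hs4 : s < |O| / 4 := by
    have : κ * r / 4 < |O| / 4 := by linarith
    linarith
  have hO0 : 0 < |O| := by linarith
  -- the side
  obtain ⟨ς, hς, hςO⟩ : ∃ ς : ℝ, (ς = 1 ∨ ς = -1) ∧ ς * (-(e * O)) = |O| := by
    have hee : e = 1 ∨ e = -1 := neg_one_pow_eq_or ℝ _
    have habs : |e * O| = |O| := by
      rw [abs_mul]
      rcases hee with h1 | h1 <;> rw [h1] <;> simp
    rcases le_or_gt 0 (-(e * O)) with h1 | h1
    · refine ⟨1, Or.inl rfl, ?_⟩
      rw [one_mul, ← habs, abs_of_nonpos (by linarith)]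
    · refine ⟨-1, Or.inr rfl, ?_⟩
      rw [← habs, abs_of_pos (by linarith)]
      ring
  have hes : ∀ t : ℝ, |t| = s → ς * (e * (t - O)) ∈ Ioo 0 (2 * r) := by
    intro t ht
    have h1 : ς * (e * (t - O)) = ς * (e * t) + |O| := by rw [← hςO]; ring
    have h2 : |ς * (e * t)| = s := by
      have hee : e = 1 ∨ e = -1 := neg_one_pow_eq_or ℝ _
      rw [abs_mul, abs_mul, ht]
      rcases hς with h3 | h3 <;> rcases hee with h4 | h4 <;> rw [h3, h4] <;> simp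
    have h3 := abs_le.1 h2.le
    rw [h1]
    constructor <;> linarith [h3.1, h3.2]
  have hmem : ∀ t : ℝ, |t| = s → lb (p k) θ (e * (t - O)) ∉ BadA p g N η (2 * r) →
      ‖Kv p g k (θ, e * (t - O)) - N k ς θ‖ ≤ η := by
    intro t ht hnb
    by_contra hcon
    push Not at hcon
    apply hnb
    unfold BadA
    rw [mem_iUnion]
    refine ⟨k, ?_⟩
    have hB : (θ, e * (t - O)) ∈ BadK p g k ς (N k ς) η (2 * r) := ⟨hinc, hes t ht, hcon⟩
    rcases hς with h1 | h1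
    · left
      rw [mem_preimage, ck_lb]
      rw [h1] at hB
      exact hB
    · right
      rw [mem_preimage, ck_lb]
      rw [h1] at hB
      exact hB
  have c1 := hmem s (abs_of_pos hs0) (by rw [← a1]; exact hb1)
  have c2 := hmem (-s) (by rw [abs_neg, abs_of_pos hs0]) (by rw [← b1]; exact hb2)
  rw [a2, b2]
  have e1 : Kv p g k (θ, e * (s - O)) - Kv p g k (θ, e * (-s - O)) =
      (Kv p g k (θ, e * (s - O)) - N k ς θ) - (Kv p g k (θ, e * (-s - O)) - N k ς θ) := by ring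
  rw [e1]
  linarith [norm_sub_le (Kv p g k (θ, e * (s - O)) - N k ς θ)
    (Kv p g k (θ, e * (-s - O)) - N k ς θ)]

/-- The strips of lines over the words. -/
def St (p : Fin (n + 3) → ℂ) (j : Fin (n + 3)) (a c r : ℝ) (w : List (Fin (n + 3))) :
    Set (ℝ × ℝ) :=
  {x | w ≠ [] ∧ x.1 ∈ Icc a c ∧ x.1 ∈ As p (p j) w r ∧ |x.2| ≤ r / 2}

theorem St_meas (j : Fin (n + 3)) (a c r : ℝ) (w : List (Fin (n + 3))) :
    MeasurableSet (St p j a c r w) := by
  by_cases hw : w = []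
  · have e : St p j a c r w = ∅ := by
      rw [Set.eq_empty_iff_forall_notMem]
      rintro x ⟨h, -⟩
      exact h hw
    rw [e]
    exact MeasurableSet.empty
  · have e : St p j a c r w = (Prod.fst ⁻¹' (Icc a c ∩ As p (p j) w r)) ∩
        (Prod.snd ⁻¹' {s : ℝ | |s| ≤ r / 2}) := by
      ext x
      constructor
      · rintro ⟨-, h1, h2, h3⟩
        exact ⟨⟨h1, h2⟩, h3⟩
      · rintro ⟨⟨h1, h2⟩, h3⟩
        exact ⟨hw, h1, h2, h3⟩
    rw [e]
    refine (measurable_fst (measurableSet_Icc.inter (open_As _ _ _).measurableSet)).inter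
      (measurable_snd ?_)
    exact measurableSet_le (continuous_abs.measurable) measurable_const

theorem four_sum {η s1 s4 sQ : ℝ} (hη : 0 < η) (p1 : 0 ≤ s1) (p4 : 0 ≤ s4) (pQ : 0 ≤ sQ) :
    (ENNReal.ofReal ((1 / η) * s1) + ENNReal.ofReal ((1 / η) * s4)) +
      (ENNReal.ofReal ((1 / η) * sQ) + ENNReal.ofReal ((1 / η) * sQ)) =
      ENNReal.ofReal ((1 / η) * (s1 + s4 + 2 * sQ)) := by
  have q : 0 ≤ 1 / η := by positivity
  rw [← ENNReal.ofReal_add (mul_nonneg q p1) (mul_nonneg q p4),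
    ← ENNReal.ofReal_add (mul_nonneg q pQ) (mul_nonneg q pQ),
    ← ENNReal.ofReal_add (add_nonneg (mul_nonneg q p1) (mul_nonneg q p4))
      (add_nonneg (mul_nonneg q pQ) (mul_nonneg q pQ))]
  congr 1
  ring

/-- The estimate at one scale. -/
theorem scale (hp : IsConvexPolygon p) (hf : Measurable f) (hb : ∀ x, ‖f x‖ ≤ 1)
    (hE : IsEigenfunction p 0 (fun _ => 1) f) (j : Fin (n + 3)) {L1 L2 : ℝ → ℂ}
    (hL1 : Measurable L1) (hL1b : ∀ θ, ‖L1 θ‖ ≤ 1) (hL1p : ∀ θ, L1 (θ + 2 * π) = L1 θ)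
    (hL2 : Measurable L2) (hL2b : ∀ θ, ‖L2 θ‖ ≤ 1) (hL2p : ∀ θ, L2 (θ + 2 * π) = L2 θ)
    {N : Fin (n + 3) → ℝ → ℝ → ℂ} (hN : ∀ k ε, Measurable (N k ε))
    (hNb : ∀ k ε θ, ‖N k ε θ‖ ≤ 1) (hNp : ∀ k ε θ, N k ε (θ + 2 * π) = N k ε θ)
    {a c : ℝ} (hac : c < a + 2 * π) (hinc : Icc a c ⊆ Inc p j)
    {η κ r C : ℝ} (hη : 0 < η) (hκ : 0 < κ) (hκ1 : κ ≤ 1 / 8) (hr : 0 < r)
    (hC : volume (⋃ w ∈ {w : List (Fin (n + 3)) | w ≠ []}, ⋃ k : Fin (n + 3),
        {φ : ℝ | φ ∈ Icc (a + π) (c + π) ∧ φ ∈ As p (p j) w r ∧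
          |ph (lb (p j) φ 0) (uf p w (p k))| ≤ κ * r}) ≤ ENNReal.ofReal C) :
    volume {φ : ℝ | φ ∈ Icc (a + π) (c + π) ∧ 4 * η < ‖L1 (φ - π) - L2 (φ - π)‖} ≤
      volume {φ : ℝ | φ ∈ Icc (a + π) (c + π) ∧ ∀ i, φ ∉ As p (p j) [i] r} + ENNReal.ofReal C +
      ENNReal.ofReal ((4 / (κ * r)) * ((1 / η) * (DI p f j 1 L1 (κ * r / 4) +
        DI p f j (-1) L2 (κ * r / 4) + 2 * ∑ k, (DI p (frev f) k 1 (N k 1) (2 * r) +
          DI p (frev f) k (-1) (N k (-1)) (2 * r))))) := by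
  set g := frev f with hg
  have hgm : Measurable g := hf.comp (measurable_fst.prodMk (measurable_snd.add_const π))
  have hgb : ∀ x, ‖g x‖ ≤ 1 := fun x => hb _
  have hgE : IsEigenfunction p 0 (fun _ => 1) g := rev_eigen (fun _ => Or.inl rfl) hE
  set R := κ * r / 4 with hR
  have hR0 : 0 < R := by positivity
  set E : Set ℝ := {φ : ℝ | φ ∈ Icc (a + π) (c + π) ∧ 4 * η < ‖L1 (φ - π) - L2 (φ - π)‖} with hEs
  set T : Set ℝ := {φ : ℝ | φ ∈ Icc (a + π) (c + π) ∧ ∀ i, φ ∉ As p (p j) [i] r} with hT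
  set S1 : Set ℝ := ⋃ w ∈ {w : List (Fin (n + 3)) | w ≠ []}, ⋃ k : Fin (n + 3),
        {φ : ℝ | φ ∈ Icc (a + π) (c + π) ∧ φ ∈ As p (p j) w r ∧
          |ph (lb (p j) φ 0) (uf p w (p k))| ≤ κ * r} with hS1
  set D : Set ℝ := {φ : ℝ | φ ∈ E ∧ ∃ w : List (Fin (n + 3)), w ≠ [] ∧ φ ∈ As p (p j) w r ∧
    ∃ k, κ * r < |ph (lb (p j) φ 0) (uf p w (p k))| ∧ |ph (lb (p j) φ 0) (uf p w (p k))| ≤ r}
    with hD
  have hcover : volume E ≤ volume T + volume S1 + volume D := by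
    have h1 : ∀ᵐ φ : ℝ, φ ∈ E → φ ∈ T ∪ S1 ∪ D := by
      filter_upwards [blocked hp j hr] with φ hφ hφE
      obtain ⟨M, hM⟩ := hφ
      by_cases h2 : ∀ i, φ ∉ As p (p j) [i] r
      · exact Or.inl (Or.inl ⟨hφE.1, h2⟩)
      · push Not at h2
        obtain ⟨i, hi⟩ := h2
        obtain ⟨w, w1, w2, w3⟩ := exists_max hM (by simp) hi
        obtain ⟨k, hk⟩ := blocker hp hr w1 w2 w3
        rcases le_or_gt (|ph (lb (p j) φ 0) (uf p w (p k))|) (κ * r) with h3 | h3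
        · refine Or.inl (Or.inr ?_)
          rw [hS1]
          simp only [mem_iUnion]
          exact ⟨w, w1, k, hφE.1, w2, h3⟩
        · exact Or.inr ⟨hφE, w, w1, w2, k, h3, hk⟩
    have h2 : volume E ≤ volume (T ∪ S1 ∪ D) := measure_mono_ae h1
    refine h2.trans ((measure_union_le _ _).trans ?_)
    gcongr
    exact measure_union_le _ _
  refine hcover.trans ?_
  refine add_le_add (add_le_add le_rfl hC) ?_
  -- the four bad sets
  set M1 : Set (ℝ × ℝ) := {x | x.1 ∈ Ico a (a + 2 * π) ∧ x.2 ∈ Ioo 0 R ∧ η < dev p f j 1 L1 x}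
    with hM1
  set M4 : Set (ℝ × ℝ) := {x | x.1 ∈ Ico a (a + 2 * π) ∧ x.2 ∈ Ioo 0 R ∧ η < dev p f j (-1) L2 x}
    with hM4
  set Q : Set (ℝ × ℝ) := ⋃ w, {x ∈ St p j (a + π) (c + π) r w |
    fw p w (lb (p j) x.1 x.2) ∈ BadA p g N η (2 * r)} with hQ
  have mpT : MeasurePreserving (fun x : ℝ × ℝ => (x.1 - π, x.2)) (volume : Measure (ℝ × ℝ))
      volume := (measurePreserving_sub_right (volume : Measure ℝ) π).prod (MeasurePreserving.id _)
  have mpN : MeasurePreserving (fun x : ℝ × ℝ => (x.1, -x.2)) (volume : Measure (ℝ × ℝ))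
      volume := (MeasurePreserving.id (volume : Measure ℝ)).prod
        (Measure.measurePreserving_neg (volume : Measure ℝ))
  have hM1m : MeasurableSet M1 := by
    refine (measurable_fst measurableSet_Ico).inter (MeasurableSet.inter ?_ ?_)
    · exact measurable_snd measurableSet_Ioo
    · exact measurableSet_lt measurable_const (dev_meas hp hf j 1 hL1)
  have hM4m : MeasurableSet M4 := by
    refine (measurable_fst measurableSet_Ico).inter (MeasurableSet.inter ?_ ?_)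
    · exact measurable_snd measurableSet_Ioo
    · exact measurableSet_lt measurable_const (dev_meas hp hf j (-1) hL2)
  have hBm := BadA_meas hp hgm hN η (2 * r)
  have hQm : MeasurableSet Q := by
    refine MeasurableSet.iUnion fun w => (St_meas j _ _ r w).inter ?_
    exact ((Pool.Agent.Zk9.RF.fw_cont w).comp (cont_lb (p j))).measurable hBm
  have hsub : D ×ˢ Ioo 0 R ⊆ ((fun x : ℝ × ℝ => (x.1 - π, x.2)) ⁻¹' M1) ∪
      ((fun x : ℝ × ℝ => (x.1 - π, x.2)) ⁻¹' M4) ∪ (Q ∪ (fun x : ℝ × ℝ => (x.1, -x.2)) ⁻¹' Q) := by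
    rintro ⟨φ, s⟩ ⟨hφ, hs⟩
    simp only at hφ hs
    by_contra hcon
    simp only [mem_union, mem_preimage, not_or] at hcon
    obtain ⟨⟨n1, n2⟩, n3, n4⟩ := hcon
    obtain ⟨hφE, w, w1, w2, k, k1, k2⟩ := hφ
    have hφI : φ - π ∈ Icc a c := ⟨by linarith [hφE.1.1], by linarith [hφE.1.2]⟩
    have hφi : φ - π ∈ Inc p j := hinc hφI
    have hφJ : φ - π ∈ Ico a (a + 2 * π) := ⟨hφI.1, by linarith [hφI.2]⟩
    have hsr : |s| ≤ r / 2 := by
      rw [abs_of_pos hs.1]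
      have := hs.2
      nlinarith
    have c1 : ‖Kv p f j (φ - π, s) - L1 (φ - π)‖ ≤ η := by
      by_contra hc
      push Not at hc
      apply n1
      refine ⟨hφJ, hs, ?_⟩
      unfold dev
      rw [indicator_of_mem hφi]
      simp only [one_mul]
      exact hc
    have c2 : ‖Kv p f j (φ - π, -s) - L2 (φ - π)‖ ≤ η := by
      by_contra hc
      push Not at hc
      apply n2
      refine ⟨hφJ, hs, ?_⟩
      unfold dev
      rw [indicator_of_mem hφi]
      simp only [neg_mul, one_mul]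
      exact hc
    have c3 : fw p w (lb (p j) φ s) ∉ BadA p g N η (2 * r) := by
      intro hc
      apply n3
      rw [hQ, mem_iUnion]
      exact ⟨w, ⟨w1, hφE.1, w2, hsr⟩, hc⟩
    have c4 : fw p w (lb (p j) φ (-s)) ∉ BadA p g N η (2 * r) := by
      intro hc
      apply n4
      rw [hQ, mem_iUnion]
      exact ⟨w, ⟨w1, hφE.1, w2, by rw [abs_neg]; exact hsr⟩, hc⟩
    have c5 := strip_pair hp hgE w1 w2 hκ1 hr hs.1 hs.2 k1 k2 c3 c4
    rw [Kv_frev hp hE, Kv_frev hp hE, neg_neg] at c5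
    have c6 := hφE.2
    have e1 : L1 (φ - π) - L2 (φ - π) = -(Kv p f j (φ - π, s) - L1 (φ - π)) -
        (Kv p f j (φ - π, -s) - Kv p f j (φ - π, s)) + (Kv p f j (φ - π, -s) - L2 (φ - π)) := by
      ring
    rw [e1] at c6
    have d1 := norm_add_le (-(Kv p f j (φ - π, s) - L1 (φ - π)) -
        (Kv p f j (φ - π, -s) - Kv p f j (φ - π, s))) (Kv p f j (φ - π, -s) - L2 (φ - π))
    have d2 := norm_sub_le (-(Kv p f j (φ - π, s) - L1 (φ - π)))
        (Kv p f j (φ - π, -s) - Kv p f j (φ - π, s))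
    rw [norm_neg] at d2
    linarith
  have hvol : volume (D ×ˢ Ioo 0 R) ≤ ENNReal.ofReal ((1 / η) * (DI p f j 1 L1 R +
        DI p f j (-1) L2 R + 2 * ∑ k, (DI p g k 1 (N k 1) (2 * r) +
          DI p g k (-1) (N k (-1)) (2 * r)))) := by
    have v1 : volume ((fun x : ℝ × ℝ => (x.1 - π, x.2)) ⁻¹' M1) ≤
        ENNReal.ofReal ((1 / η) * DI p f j 1 L1 R) := by
      rw [mpT.measure_preimage hM1m.nullMeasurableSet]
      exact markov_per (dev_meas hp hf j 1 hL1) (dev_nonneg j 1 L1) (dev_le hp hE hb j 1 hL1b)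
        (dev_per hE j 1 hL1p) a hη hR0.le
    have v4 : volume ((fun x : ℝ × ℝ => (x.1 - π, x.2)) ⁻¹' M4) ≤
        ENNReal.ofReal ((1 / η) * DI p f j (-1) L2 R) := by
      rw [mpT.measure_preimage hM4m.nullMeasurableSet]
      exact markov_per (dev_meas hp hf j (-1) hL2) (dev_nonneg j (-1) L2)
        (dev_le hp hE hb j (-1) hL2b) (dev_per hE j (-1) hL2p) a hη hR0.le
    have vQ : volume Q ≤ ENNReal.ofReal ((1 / η) * ∑ k, (DI p g k 1 (N k 1) (2 * r) +
        DI p g k (-1) (N k (-1)) (2 * r))) := by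
      refine (measure_iUnion_le _).trans ?_
      refine (flux hp j (a := a + π) (c := c + π) (r := r) (by linarith) hr
        (St_meas j _ _ r) (fun w x hx => hx) hBm (BadA_per hgE hNp η (2 * r))).trans ?_
      exact BadA_vol hp hgm hgb hgE hN hNb hη (by linarith)
    have vQ' : volume ((fun x : ℝ × ℝ => (x.1, -x.2)) ⁻¹' Q) = volume Q :=
      mpN.measure_preimage hQm.nullMeasurableSet
    have p1 : 0 ≤ DI p f j 1 L1 R := DI_nonneg f j 1 L1 hR0.le
    have p4 : 0 ≤ DI p f j (-1) L2 R := DI_nonneg f j (-1) L2 hR0.le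
    have h2r : (0 : ℝ) ≤ 2 * r := by linarith
    have pQ : 0 ≤ ∑ k, (DI p g k 1 (N k 1) (2 * r) + DI p g k (-1) (N k (-1)) (2 * r)) :=
      Finset.sum_nonneg fun k _ => add_nonneg (DI_nonneg g k 1 (N k 1) h2r)
        (DI_nonneg g k (-1) (N k (-1)) h2r)
    rw [← four_sum hη p1 p4 pQ]
    refine (measure_mono hsub).trans ?_
    refine (measure_union_le _ _).trans (add_le_add ((measure_union_le _ _).trans
      (add_le_add v1 v4)) ((measure_union_le _ _).trans (add_le_add vQ ?_)))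
    rw [vQ']
    exact vQ
  have hprod : volume (D ×ˢ Ioo 0 R) = volume D * ENNReal.ofReal R := by
    rw [Measure.volume_eq_prod, Measure.prod_prod, Real.volume_Ioo, sub_zero]
  rw [hprod] at hvol
  have hRne : ENNReal.ofReal R ≠ 0 := by
    rw [Ne, ENNReal.ofReal_eq_zero, not_le]
    exact hR0
  rw [← ENNReal.le_div_iff_mul_le (Or.inl hRne) (Or.inl ENNReal.ofReal_ne_top),
    ← ENNReal.ofReal_div_of_pos hR0] at hvol
  refine hvol.trans (le_of_eq ?_)
  have hR' : R⁻¹ = 4 / (κ * r) := by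
    rw [hR, inv_div]
  rw [div_eq_inv_mul, hR']

end Pool.Agent.Zk55.RF
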