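import Pool.Agent.Zk55.RF.Side2
import Pool.Agent.Zk55.RF.Base2

set_option autoImplicit false
set_option maxHeartbeats 400000

/-!
The constants at the vertices, for regulated fibres.
-/

namespace Pool.Agent.Zk55.RF

open Complex Set MeasureTheory Filter Topology Pool.Agent.W780.PG Pool.Agent.W780.BB
  Pool.Agent.TH578.BE Pool.Agent.K3h17.BK Pool.Agent.Zk55.CF

open scoped Real ComplexConjugate

variable {n : ℕ} {p : Fin (n + 3) → ℂ} {χ : Fin (n + 3) → ℂ} {f : ℂ × ℝ → ℂ}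

theorem pos_scale {c : ℝ} (hc : 0 < c) : Tendsto (fun r : ℝ => c * r) (𝓝[>] 0) (𝓝[>] 0) := by
  rw [tendsto_nhdsWithin_iff]
  constructor
  · have h : Continuous fun r : ℝ => c * r := by fun_prop
    have h1 := h.tendsto 0
    rw [mul_zero] at h1
    exact h1.mono_left nhdsWithin_le_nhds
  · filter_upwards [self_mem_nhdsWithin] with r hr
    exact mul_pos hc hr

theorem DI_lim {g : ℂ × ℝ → ℂ} {k : Fin (n + 3)} {ε : ℝ} {N : ℝ → ℂ}
    (h : Tendsto (fun r : ℝ => (1 / r) * DI p g k ε N r) (𝓝[>] 0) (𝓝 0)) {κ c : ℝ} (hκ : 0 < κ)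
    (hc : 0 < c) : Tendsto (fun r : ℝ => (4 / (κ * r)) * DI p g k ε N (c * r)) (𝓝[>] 0) (𝓝 0) := by
  have h1 := (h.comp (pos_scale hc)).const_mul (4 * c / κ)
  rw [mul_zero] at h1
  refine h1.congr' ?_
  filter_upwards [self_mem_nhdsWithin] with r hr
  have hr0 : (0 : ℝ) < r := hr
  simp only [Function.comp_apply]
  field_simp

/-- The limits from both sides at a vertex agree almost everywhere. -/
theorem sides_ae (hp : IsConvexPolygon p) (hf : Measurable f) (hb : ∀ x, ‖f x‖ ≤ 1)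
    (hE : IsEigenfunction p 0 (fun _ => 1) f) (j : Fin (n + 3)) {L1 L2 : ℝ → ℂ}
    (hL1 : Measurable L1) (hL1b : ∀ θ, ‖L1 θ‖ ≤ 1) (hL1p : ∀ θ, L1 (θ + 2 * π) = L1 θ)
    (hL2 : Measurable L2) (hL2b : ∀ θ, ‖L2 θ‖ ≤ 1) (hL2p : ∀ θ, L2 (θ + 2 * π) = L2 θ)
    {N : Fin (n + 3) → ℝ → ℝ → ℂ} (hN : ∀ k ε, Measurable (N k ε))
    (hNb : ∀ k ε θ, ‖N k ε θ‖ ≤ 1) (hNp : ∀ k ε θ, N k ε (θ + 2 * π) = N k ε θ)
    (h1 : Tendsto (fun r : ℝ => (1 / r) * DI p f j 1 L1 r) (𝓝[>] 0) (𝓝 0))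
    (h2 : Tendsto (fun r : ℝ => (1 / r) * DI p f j (-1) L2 r) (𝓝[>] 0) (𝓝 0))
    (h3 : ∀ k, Tendsto (fun r : ℝ => (1 / r) * DI p (frev f) k 1 (N k 1) r) (𝓝[>] 0) (𝓝 0))
    (h4 : ∀ k, Tendsto (fun r : ℝ => (1 / r) * DI p (frev f) k (-1) (N k (-1)) r) (𝓝[>] 0) (𝓝 0))
    {a c : ℝ} (hac : a < c) (hac' : c < a + 2 * π) (hinc : Icc a c ⊆ Inc p j) :
    ∀ᵐ θ : ℝ, θ ∈ Icc a c → L1 θ = L2 θ := by
  have hout : Icc (a + π) (c + π) ⊆ Out p j := by
    intro φ hφ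
    have h5 := (out_iff j (φ - π)).2 (hinc ⟨by linarith [hφ.1], by linarith [hφ.2]⟩)
    have e : π + (φ - π) = φ := by ring
    rwa [e] at h5
  obtain ⟨C, r0, hC, hr0, hsm⟩ := small_offset hp j (show a + π < c + π by linarith) hout
  have key : ∀ η : ℝ, 0 < η →
      volume {φ : ℝ | φ ∈ Icc (a + π) (c + π) ∧ 4 * η < ‖L1 (φ - π) - L2 (φ - π)‖} = 0 := by
    intro η hη
    set V := volume {φ : ℝ | φ ∈ Icc (a + π) (c + π) ∧ 4 * η < ‖L1 (φ - π) - L2 (φ - π)‖} with hV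
    have hκ : ∀ κ : ℝ, 0 < κ → κ ≤ 1 / 8 → V ≤ ENNReal.ofReal (C * κ) := by
      intro κ hκ0 hκ1
      have t1 := exc_small hp j hout
      have t2 : Tendsto (fun r : ℝ => (4 / (κ * r)) * ((1 / η) * (DI p f j 1 L1 (κ * r / 4) +
        DI p f j (-1) L2 (κ * r / 4) + 2 * ∑ k, (DI p (frev f) k 1 (N k 1) (2 * r) +
          DI p (frev f) k (-1) (N k (-1)) (2 * r))))) (𝓝[>] 0) (𝓝 0) := by
        have u1 := DI_lim h1 hκ0 (show 0 < κ / 4 by positivity)
        have u2 := DI_lim h2 hκ0 (show 0 < κ / 4 by positivity)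
        have u3 : Tendsto (fun r : ℝ => ∑ k, ((4 / (κ * r)) * DI p (frev f) k 1 (N k 1) (2 * r) +
            (4 / (κ * r)) * DI p (frev f) k (-1) (N k (-1)) (2 * r))) (𝓝[>] 0)
            (𝓝 (∑ k : Fin (n + 3), ((0 : ℝ) + 0))) :=
          tendsto_finset_sum _ fun k _ =>
            (DI_lim (h3 k) hκ0 two_pos).add (DI_lim (h4 k) hκ0 two_pos)
        have u4 := ((u1.add u2).add (u3.const_mul 2)).const_mul (1 / η)
        simp only [add_zero, Finset.sum_const_zero, mul_zero] at u4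
        refine u4.congr fun r => ?_
        have e1 : κ * r / 4 = κ / 4 * r := by ring
        rw [e1]
        simp only [← mul_add, ← Finset.mul_sum]
        ring
      have t3 := (ENNReal.tendsto_ofReal (t2.comp seq_lim))
      rw [ENNReal.ofReal_zero] at t3
      have t4 := (t1.add (tendsto_const_nhds (x := ENNReal.ofReal (C * κ)))).add t3
      rw [zero_add, add_zero] at t4
      refine ge_of_tendsto t4 ?_
      have hsmall : ∀ᶠ m : ℕ in atTop, 1 / ((m : ℝ) + 1) < r0 := by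
        have := (seq_lim.mono_right nhdsWithin_le_nhds).eventually_lt_const hr0
        exact this
      filter_upwards [hsmall] with m hm
      have hmr : (0 : ℝ) < 1 / ((m : ℝ) + 1) := by positivity
      exact scale hp hf hb hE j hL1 hL1b hL1p hL2 hL2b hL2p hN hNb hNp hac' hinc hη hκ0 hκ1 hmr
        (hsm _ κ hmr hm hκ0 hκ1)
    have t5 : Tendsto (fun κ : ℝ => ENNReal.ofReal (C * κ)) (𝓝[>] 0) (𝓝 0) := by
      have := ENNReal.tendsto_ofReal ((pos_scale hC).mono_right nhdsWithin_le_nhds)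
      rwa [ENNReal.ofReal_zero] at this
    refine le_antisymm (ge_of_tendsto t5 ?_) bot_le
    filter_upwards [Ioo_mem_nhdsGT (show (0 : ℝ) < 1 / 8 by norm_num)] with κ hκ'
    exact hκ κ hκ'.1 hκ'.2.le
  -- all `η`
  have h5 : ∀ᵐ φ : ℝ, ∀ m : ℕ, ¬ (φ ∈ Icc (a + π) (c + π) ∧
      4 * (1 / ((m : ℝ) + 1)) < ‖L1 (φ - π) - L2 (φ - π)‖) := by
    rw [ae_all_iff]
    intro m
    have := key (1 / ((m : ℝ) + 1)) (by positivity)
    rw [ae_iff]
    simp only [not_not]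
    exact this
  have h6 : ∀ᵐ φ : ℝ, φ ∈ Icc (a + π) (c + π) → L1 (φ - π) = L2 (φ - π) := by
    filter_upwards [h5] with φ hφ hI
    by_contra hne
    have hpos : 0 < ‖L1 (φ - π) - L2 (φ - π)‖ := norm_pos_iff.2 (sub_ne_zero.2 hne)
    obtain ⟨m, hm⟩ := exists_nat_one_div_lt (show 0 < ‖L1 (φ - π) - L2 (φ - π)‖ / 4 by positivity)
    exact hφ m ⟨hI, by linarith⟩
  have h7 := (measurePreserving_add_right (volume : Measure ℝ) π).quasiMeasurePreserving.ae h6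
  filter_upwards [h7] with θ hθ hI
  have h8 := hθ ⟨by linarith [hI.1], by linarith [hI.2]⟩
  rwa [add_sub_cancel_right] at h8

theorem open_inc (j : Fin (n + 3)) : IsOpen (Inc p j) := by
  have h1 : Continuous fun θ : ℝ => Real.sin (θ - tau p j) := by fun_prop
  have h2 : Continuous fun θ : ℝ => Real.sin (θ - tau p (j - 1)) := by fun_prop
  exact (isOpen_lt h1 continuous_const).inter (isOpen_lt h2 continuous_const)

/-- From small intervals to all incoming directions. -/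
theorem ae_inc {j : Fin (n + 3)} {Q : ℝ → Prop} (h : ∀ a c : ℝ, a < c → c < a + 2 * π →
    Icc a c ⊆ Inc p j → ∀ᵐ θ : ℝ, θ ∈ Icc a c → Q θ) : ∀ᵐ θ : ℝ, θ ∈ Inc p j → Q θ := by
  have hpi := Real.pi_gt_three
  have h1 : ∀ᵐ θ : ℝ, ∀ a c : ℚ, (a : ℝ) < c → (c : ℝ) < a + 2 * π → Icc (a : ℝ) c ⊆ Inc p j →
      θ ∈ Icc (a : ℝ) c → Q θ := by
    rw [ae_all_iff]
    intro a
    rw [ae_all_iff]
    intro c
    by_cases h2 : (a : ℝ) < c ∧ (c : ℝ) < a + 2 * π ∧ Icc (a : ℝ) c ⊆ Inc p j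
    · filter_upwards [h a c h2.1 h2.2.1 h2.2.2] with θ hθ _ _ _ using hθ
    · refine Filter.Eventually.of_forall fun θ a1 a2 a3 => ?_
      exact absurd ⟨a1, a2, a3⟩ h2
  filter_upwards [h1] with θ hθ hI
  obtain ⟨δ, hδ, hball⟩ := Metric.isOpen_iff.1 (open_inc j) θ hI
  obtain ⟨a, ha1, ha2⟩ := exists_rat_btwn (show θ - min δ 1 / 2 < θ by
    have : 0 < min δ 1 := lt_min hδ one_pos
    linarith)
  obtain ⟨c, hc1, hc2⟩ := exists_rat_btwn (show θ < θ + min δ 1 / 2 by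
    have : 0 < min δ 1 := lt_min hδ one_pos
    linarith)
  have hm1 : min δ 1 ≤ δ := min_le_left _ _
  have hm2 : min δ 1 ≤ 1 := min_le_right _ _
  refine hθ a c (by linarith) (by linarith) ?_ ⟨ha2.le, hc1.le⟩
  intro φ hφ
  apply hball
  rw [Metric.mem_ball, Real.dist_eq, abs_lt]
  constructor <;> linarith [hφ.1, hφ.2]

theorem sided_rev {ε : ℝ} {G : ℂ → ℝ → ℂ} (h : Sided p f ε G) :
    Sided p (frev f) ε fun z θ => G z (θ + π) := by
  filter_upwards [h] with z hz hzr θ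
  have h1 := hz hzr (θ + π)
  refine h1.congr fun δ => ?_
  congr 1
  refine intervalIntegral.integral_congr fun η _ => ?_
  show ‖f (z, θ + π + ε * η) - G z (θ + π)‖ = ‖f (z, θ + ε * η + π) - G z (θ + π)‖
  rw [show θ + π + ε * η = θ + ε * η + π by ring]

/-- The mean values on both sides of a vertex. -/
theorem J_sided (hp : IsConvexPolygon p) (hf : Measurable f) (hb : ∀ x, ‖f x‖ ≤ 1)
    (hE : IsEigenfunction p 0 (fun _ => 1) f) {P M : ℂ → ℝ → ℂ} (hP : Sided p f 1 P)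
    (hM : Sided p f (-1) M) (j : Fin (n + 3)) :
    Tendsto (fun ρ : ℝ => ∫ θ in (0 : ℝ)..(2 * π), (Inc p j).indicator
      (fun θ => ‖Kp p f j ρ θ - Kp p f j (-ρ) θ‖) θ) (𝓝[>] 0) (𝓝 0) ∧
    ∃ L : ℝ → ℂ, Measurable L ∧ (∀ θ, ‖L θ‖ ≤ 1) ∧
      Tendsto (fun ρ : ℝ => ∫ θ in (0 : ℝ)..(2 * π), (Inc p j).indicator
        (fun θ => ‖Kp p f j ρ θ - L θ‖) θ) (𝓝[>] 0) (𝓝 0) := by
  have hpi := Real.pi_pos
  have hgm : Measurable (frev f) := hf.comp (measurable_fst.prodMk (measurable_snd.add_const π))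
  have hgb : ∀ x, ‖frev f x‖ ≤ 1 := fun x => hb _
  have hgE : IsEigenfunction p 0 (fun _ => 1) (frev f) := rev_eigen (fun _ => Or.inl rfl) hE
  obtain ⟨L1, m1, b1, p1, t1⟩ := side_lim hp hf hb hE (Or.inl rfl) hP j
  obtain ⟨L2, m2, b2, p2, t2⟩ := side_lim hp hf hb hE (Or.inr rfl) hM j
  choose N1 mN1 bN1 pN1 tN1 using fun k => side_lim hp hgm hgb hgE (Or.inl rfl) (sided_rev hP) k
  choose N2 mN2 bN2 pN2 tN2 using fun k => side_lim hp hgm hgb hgE (Or.inr rfl) (sided_rev hM) k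
  classical
  set N : Fin (n + 3) → ℝ → ℝ → ℂ := fun k ε => if ε = 1 then N1 k else N2 k with hN
  have eN1 : ∀ k, N k 1 = N1 k := fun k => by simp [hN]
  have eN2 : ∀ k, N k (-1) = N2 k := fun k => by
    simp only [hN]
    rw [if_neg (by norm_num)]
  have hNm : ∀ k ε, Measurable (N k ε) := by
    intro k ε
    simp only [hN]
    split_ifs
    · exact mN1 k
    · exact mN2 k
  have hNb : ∀ k ε θ, ‖N k ε θ‖ ≤ 1 := by
    intro k ε θ
    simp only [hN]
    split_ifs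
    · exact bN1 k θ
    · exact bN2 k θ
  have hNp : ∀ k ε θ, N k ε (θ + 2 * π) = N k ε θ := by
    intro k ε θ
    simp only [hN]
    split_ifs
    · exact pN1 k θ
    · exact pN2 k θ
  have hLL : ∀ᵐ θ : ℝ, θ ∈ Inc p j → L1 θ = L2 θ := by
    refine ae_inc fun a c hac hac' hinc => ?_
    refine sides_ae hp hf hb hE j m1 b1 p1 m2 b2 p2 hNm hNb hNp t1 t2 (fun k => ?_) (fun k => ?_)
      hac hac' hinc
    · rw [eN1]
      exact tN1 k
    · rw [eN2]
      exact tN2 k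
  have k1 := lim_Kp hp hf hb hE j 1 m1 b1 t1
  have k2 := lim_Kp hp hf hb hE j (-1) m2 b2 t2
  simp only [one_mul, neg_mul] at k1 k2
  refine ⟨?_, L1, m1, b1, k1⟩
  have hpi2 : (0 : ℝ) ≤ 2 * π := by positivity
  have k3 := k1.add k2
  rw [add_zero] at k3
  have hii : ∀ (L : ℝ → ℂ) (σ : ℝ), Measurable L → (∀ θ, ‖L θ‖ ≤ 1) → IntervalIntegrable
      (fun θ => (Inc p j).indicator (fun θ => ‖Kp p f j σ θ - L θ‖) θ) volume 0 (2 * π) := by
    intro L σ hL hLb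
    have hm : Measurable fun θ => (Inc p j).indicator (fun θ => ‖Kp p f j σ θ - L θ‖) θ :=
      Measurable.indicator (((Kp_meas hp hf j (σ := fun _ => σ) measurable_const).sub
        hL).norm) (inc_meas j)
    refine (intervalIntegrable_const (c := (2 : ℝ))).mono_fun hm.aestronglyMeasurable
      (Filter.Eventually.of_forall fun θ => ?_)
    show ‖_‖ ≤ ‖_‖
    rw [Real.norm_eq_abs, abs_of_nonneg (indicator_nonneg (fun _ _ => norm_nonneg _) _),
      Real.norm_eq_abs, abs_of_pos (by norm_num : (0 : ℝ) < 2)]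
    refine indicator_apply_le' (fun _ => ?_) (fun _ => by norm_num)
    linarith [norm_sub_le (Kp p f j σ θ) (L θ), Kp_bound hp hE hb j σ θ, hLb θ]
  refine tendsto_of_tendsto_of_tendsto_of_le_of_le' tendsto_const_nhds k3 ?_ ?_
  · refine Filter.Eventually.of_forall fun ρ => ?_
    exact intervalIntegral.integral_nonneg hpi2 fun θ _ => indicator_nonneg (fun _ _ => norm_nonneg _) _
  · refine Filter.Eventually.of_forall fun ρ => ?_
    rw [← intervalIntegral.integral_add (hii L1 ρ m1 b1) (hii L2 (-ρ) m2 b2)]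
    refine intervalIntegral.integral_mono_ae hpi2 ?_ ((hii L1 ρ m1 b1).add (hii L2 (-ρ) m2 b2)) ?_
    · exact hii (fun θ => Kp p f j (-ρ) θ) ρ (Kp_meas hp hf j (σ := fun _ => -ρ) measurable_const)
        (fun θ => Kp_bound hp hE hb j _ _)
    · filter_upwards [hLL] with θ hθ
      by_cases hI : θ ∈ Inc p j
      · simp only [indicator_of_mem hI]
        have e : Kp p f j ρ θ - Kp p f j (-ρ) θ = (Kp p f j ρ θ - L1 θ) -
            (Kp p f j (-ρ) θ - L2 θ) := by rw [hθ hI]; ring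
        rw [e]
        exact norm_sub_le _ _
      · simp only [indicator_of_notMem hI]
        norm_num

/-- The constants at the vertices. -/
theorem classes (hp : IsConvexPolygon p) (hir : ∀ j : Fin (n + 3), Irrational ((tau p j - tau p (j - 1)) / π))
    (hf : Measurable f) (hb : ∀ x, ‖f x‖ ≤ 1)
    (hE : IsEigenfunction p 0 (fun _ => 1) f) {P M : ℂ → ℝ → ℂ} (hP : Sided p f 1 P)
    (hM : Sided p f (-1) M) : ∃ c : Fin (n + 3) → ℂ, ∀ᵐ z : ℂ, z ∈ reg p → ∀ w j θ,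
      VisAt p z w j θ → P z θ = c j ∧ M z θ = c j ∧ P z (θ + π) = c j ∧ M z (θ + π) = c j := by
  have hgm : Measurable (frev f) := hf.comp (measurable_fst.prodMk (measurable_snd.add_const π))
  have hgb : ∀ x, ‖frev f x‖ ≤ 1 := fun x => hb _
  have hgE : IsEigenfunction p 0 (fun _ => 1) (frev f) := rev_eigen (fun _ => Or.inl rfl) hE
  have hex : ∀ j, ∃ c : ℂ, ∀ g : ℂ × ℝ → ℂ, (g = f ∨ g = frev f) → ∀ σ : ℝ, (σ = 1 ∨ σ = -1) →
      ∀ ψ : ℝ → ℂ, Continuous ψ → (∀ θ, ψ (θ + 2 * π) = ψ θ) → (∀ θ, ψ θ ≠ 0 → θ ∈ Inc p j) →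
      Tendsto (fun ρ : ℝ => ∫ θ in (0 : ℝ)..(2 * π), ψ θ * Kp p g j (σ * ρ) θ) (𝓝[>] 0)
        (𝓝 (c * ∫ θ in (0 : ℝ)..(2 * π), ψ θ)) := by
    intro j
    obtain ⟨hJ, L, m, b, t⟩ := J_sided hp hf hb hE hP hM j
    obtain ⟨hJ', -⟩ := J_sided hp hgm hgb hgE (sided_rev hP) (sided_rev hM) j
    exact vtx_const_sided hp hf hb hE j (hir j) hJ hJ' m b t
  choose c hc using hex
  refine ⟨c, ?_⟩
  filter_upwards [ident_sided hp hf hb hE (Or.inl rfl) hP (c := c) (fun j => hc j f (Or.inl rfl)),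
    ident_sided hp hf hb hE (Or.inr rfl) hM (c := c) (fun j => hc j f (Or.inl rfl)),
    ident_sided hp hgm hgb hgE (Or.inl rfl) (sided_rev hP) (c := c)
      (fun j => hc j (frev f) (Or.inr rfl)),
    ident_sided hp hgm hgb hgE (Or.inr rfl) (sided_rev hM) (c := c)
      (fun j => hc j (frev f) (Or.inr rfl))] with z h1 h2 h3 h4 hz w j θ hv
  exact ⟨h1 hz w j θ hv, h2 hz w j θ hv, h3 hz w j θ hv, h4 hz w j θ hv⟩

end Pool.Agent.Zk55.RF
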