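import Pool.Agent.Zk55.RF.Base2
import Pool.Agent.Zk55.RF.Side3

set_option autoImplicit false
set_option maxHeartbeats 400000

/-!
Almost every point of the polygon is typical.
-/

namespace Pool.Agent.Zk55.RF

open Complex Set MeasureTheory Filter Topology Pool.Agent.W780.PG Pool.Agent.W780.BB
  Pool.Agent.TH578.BE Pool.Agent.K3h17.BK Pool.Agent.Zk55.CF

open scoped Real ComplexConjugate

variable {n : ℕ} {p : Fin (n + 3) → ℂ} {χ : Fin (n + 3) → ℂ} {f : ℂ × ℝ → ℂ}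

theorem ln_per (z : ℂ) (θ : ℝ) (m : ℤ) : ln z (θ + 2 * π * m) = ((ln z θ).1 + 2 * π * m, (ln z θ).2) := by
  unfold ln
  simp only [dir_int]

theorem vis_per (z : ℂ) (w : List (Fin (n + 3))) (j : Fin (n + 3)) (θ : ℝ) (m : ℤ) :
    VisAt p z w j (θ + 2 * π * m) ↔ VisAt p z w j θ := by
  unfold VisAt
  have h1 : ∀ b : ℂ, rr b (θ + 2 * π * m) z = rr b θ z := by
    intro b
    unfold rr
    rw [dir_int]
  rw [ln_per, RW_per, ph_per, h1, fw_per]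
  simp only [dir_int]

theorem vis_per1 (z : ℂ) (w : List (Fin (n + 3))) (j : Fin (n + 3)) (θ : ℝ) :
    VisAt p z w j (θ + 2 * π) ↔ VisAt p z w j θ := by
  have := vis_per (p := p) z w j θ 1
  rwa [Int.cast_one, mul_one] at this

theorem sees_pi (z : ℂ) (k : Fin (n + 3)) (θ : ℝ) : Sees p z k (θ + π) ↔ Sees p z k θ := by
  unfold Sees
  have e : θ + π + π = θ + 2 * π := by ring
  simp only [e, vis_per1]
  constructor
  · rintro ⟨w, h | h⟩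
    · exact ⟨w, Or.inr h⟩
    · exact ⟨w, Or.inl h⟩
  · rintro ⟨w, h | h⟩
    · exact ⟨w, Or.inr h⟩
    · exact ⟨w, Or.inl h⟩

theorem freq_val {g : ℝ → ℂ} {l : Filter ℝ} {a b : ℂ} (h : Tendsto g l (𝓝 a))
    (hf : ∃ᶠ x in l, g x = b) : a = b := by
  by_contra hne
  have h1 : ∀ᶠ x in l, g x ≠ b := h.eventually_ne hne
  obtain ⟨x, hx, hx'⟩ := (hf.and_eventually h1).exists
  exact hx' hx

theorem freq_right {Q : ℝ → Prop} {φ δ : ℝ} (hδ : φ < δ) (h : ∀ a b : ℝ, φ < a → a < b → b ≤ δ →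
    ∃ x ∈ Ioo a b, Q x) : ∃ᶠ x in 𝓝[>] φ, Q x := by
  rw [frequently_iff]
  intro U hU
  obtain ⟨u, hu, hs⟩ := mem_nhdsGT_iff_exists_Ioo_subset.1 hU
  have hu' : φ < u := hu
  have hm : φ < min u δ := lt_min hu' hδ
  obtain ⟨x, hx, hQ⟩ := h ((φ + min u δ) / 2) (min u δ) (by linarith) (by linarith)
    (min_le_right _ _)
  exact ⟨x, hs ⟨by linarith [hx.1], lt_of_lt_of_le hx.2 (min_le_left _ _)⟩, hQ⟩

theorem freq_left {Q : ℝ → Prop} {φ δ : ℝ} (hδ : δ < φ) (h : ∀ a b : ℝ, δ ≤ a → a < b → b < φ →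
    ∃ x ∈ Ioo a b, Q x) : ∃ᶠ x in 𝓝[<] φ, Q x := by
  rw [frequently_iff]
  intro U hU
  obtain ⟨u, hu, hs⟩ := mem_nhdsLT_iff_exists_Ioo_subset.1 hU
  have hu' : u < φ := hu
  have hm : max u δ < φ := max_lt hu' hδ
  obtain ⟨x, hx, hQ⟩ := h (max u δ) ((φ + max u δ) / 2) (le_max_right _ _) (by linarith)
    (by linarith)
  exact ⟨x, hs ⟨lt_of_le_of_lt (le_max_left _ _) hx.1, by linarith [hx.2]⟩, hQ⟩

/-- The finitely many values `c k` different from `a` stay away from `a`. -/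
theorem gap {ι : Type*} [Finite ι] (c : ι → ℂ) (a : ℂ) : ∃ U ∈ 𝓝 a, ∀ k, c k ∈ U → c k = a := by
  refine ⟨(range c \ {a})ᶜ, ?_, ?_⟩
  · refine ((finite_range c).subset diff_subset).isClosed.isOpen_compl.mem_nhds ?_
    intro h
    exact h.2 rfl
  · intro k hk
    by_contra hne
    exact hk ⟨mem_range_self k, hne⟩

theorem sided_val (hf : Measurable f) (hb : ∀ x, ‖f x‖ ≤ 1) {z : ℂ} {θ ε : ℝ} {a b : ℂ}
    (ha : Tendsto (fun δ : ℝ => (1 / δ) * ∫ η in (0 : ℝ)..δ, ‖f (z, θ + ε * η) - a‖) (𝓝[>] 0) (𝓝 0))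
    (hb' : Tendsto (fun δ : ℝ => (1 / δ) * ∫ η in (0 : ℝ)..δ, ‖f (z, θ + ε * η) - b‖) (𝓝[>] 0)
      (𝓝 0)) : a = b := by
  have hm : Measurable fun η : ℝ => f (z, θ + ε * η) := by
    refine hf.comp (measurable_const.prodMk ?_)
    fun_prop
  have hint : ∀ (v : ℂ) (δ : ℝ), IntervalIntegrable (fun η : ℝ => ‖f (z, θ + ε * η) - v‖) volume 0 δ := by
    intro v δ
    refine (intervalIntegrable_const (c := 1 + ‖v‖)).mono_fun ?_ ?_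
    · exact ((hm.sub_const v).norm).aestronglyMeasurable
    · refine ae_of_all _ fun η => ?_
      show ‖‖f (z, θ + ε * η) - v‖‖ ≤ ‖1 + ‖v‖‖
      rw [Real.norm_of_nonneg (norm_nonneg _), Real.norm_of_nonneg (by positivity)]
      exact (norm_sub_le _ _).trans (by linarith [hb (z, θ + ε * η)])
  have h1 := ha.add hb'
  rw [add_zero] at h1
  have h2 : ∀ δ : ℝ, 0 < δ → ‖a - b‖ ≤ (1 / δ) * (∫ η in (0 : ℝ)..δ, ‖f (z, θ + ε * η) - a‖) +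
      (1 / δ) * ∫ η in (0 : ℝ)..δ, ‖f (z, θ + ε * η) - b‖ := by
    intro δ hδ
    rw [← mul_add, ← intervalIntegral.integral_add (hint a δ) (hint b δ)]
    have h3 : ∫ η in (0 : ℝ)..δ, ‖a - b‖ ≤
        ∫ η in (0 : ℝ)..δ, (‖f (z, θ + ε * η) - a‖ + ‖f (z, θ + ε * η) - b‖) := by
      refine intervalIntegral.integral_mono_on hδ.le intervalIntegrable_const
        ((hint a δ).add (hint b δ)) fun η _ => ?_
      have e : a - b = (f (z, θ + ε * η) - b) - (f (z, θ + ε * η) - a) := by ring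
      rw [e]
      exact (norm_sub_le _ _).trans (le_of_eq (by ring))
    rw [intervalIntegral.integral_const, sub_zero, smul_eq_mul] at h3
    calc ‖a - b‖ = (1 / δ) * (δ * ‖a - b‖) := by field_simp
      _ ≤ _ := mul_le_mul_of_nonneg_left h3 (by positivity)
  have h3 : ‖a - b‖ ≤ 0 := ge_of_tendsto h1 (by
    filter_upwards [self_mem_nhdsWithin] with δ hδ
    exact h2 δ hδ)
  exact sub_eq_zero.1 (norm_le_zero_iff.1 h3)

theorem typ_of (hper : ∀ (z : ℂ) (θ : ℝ), f (z, θ + 2 * π) = f (z, θ)) (hf : Measurable f)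
    (hb : ∀ x, ‖f x‖ ≤ 1) {c : Fin (n + 3) → ℂ} {P M : ℂ → ℝ → ℂ} {z : ℂ}
    (hP : ∀ θ : ℝ, Tendsto (fun δ : ℝ => (1 / δ) *
      ∫ η in (0 : ℝ)..δ, ‖f (z, θ + 1 * η) - P z θ‖) (𝓝[>] 0) (𝓝 0))
    (hM : ∀ θ : ℝ, Tendsto (fun δ : ℝ => (1 / δ) *
      ∫ η in (0 : ℝ)..δ, ‖f (z, θ + (-1) * η) - M z θ‖) (𝓝[>] 0) (𝓝 0))
    (hreg : ∀ θ : ℝ, Tendsto (P z) (𝓝[>] θ) (𝓝 (P z θ)) ∧
        Tendsto (M z) (𝓝[>] θ) (𝓝 (P z θ)) ∧ Tendsto (P z) (𝓝[<] θ) (𝓝 (M z θ)) ∧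
        Tendsto (M z) (𝓝[<] θ) (𝓝 (M z θ)))
    (hcl : ∀ w j θ, VisAt p z w j θ → P z θ = c j ∧ M z θ = c j ∧ P z (θ + π) = c j ∧
      M z (θ + π) = c j)
    (hd : ∀ a b : ℝ, a < b → ∃ θ ∈ Ioo a b, ∃ w k, VisAt p z w k θ) : Typ p c P M z := by
  have perG : ∀ (G : ℂ → ℝ → ℂ) (ε : ℝ), (∀ θ : ℝ, Tendsto (fun δ : ℝ => (1 / δ) *
      ∫ η in (0 : ℝ)..δ, ‖f (z, θ + ε * η) - G z θ‖) (𝓝[>] 0) (𝓝 0)) →
      ∀ θ, G z (θ + 2 * π) = G z θ := by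
    intro G ε hG θ
    refine sided_val hf hb (θ := θ) (ε := ε) (z := z) ?_ (hG θ)
    refine (hG (θ + 2 * π)).congr fun δ => ?_
    congr 1
    refine intervalIntegral.integral_congr fun η _ => ?_
    show ‖f (z, θ + 2 * π + ε * η) - G z (θ + 2 * π)‖ = ‖f (z, θ + ε * η) - G z (θ + 2 * π)‖
    rw [show θ + 2 * π + ε * η = θ + ε * η + 2 * π by ring, hper]
  have perP := perG P 1 hP
  have perM := perG M (-1) hM
  have hvis : ∀ k θ, Sees p z k θ → P z θ = c k ∧ M z θ = c k := by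
    rintro k θ ⟨w, h | h⟩
    · exact ⟨(hcl w k θ h).1, (hcl w k θ h).2.1⟩
    · obtain ⟨-, -, h3, h4⟩ := hcl w k _ h
      rw [show θ + π + π = θ + 2 * π by ring] at h3 h4
      rw [perP] at h3
      rw [perM] at h4
      exact ⟨h3, h4⟩
  have hright : ∀ θ, ∃ δ : ℝ, 0 < δ ∧ ∀ φ ∈ Ioo θ (θ + δ), ∀ k, Sees p z k φ → c k = P z θ := by
    intro θ
    obtain ⟨U, hU, hc⟩ := gap c (P z θ)
    have h1 : ∀ᶠ φ in 𝓝[>] θ, P z φ ∈ U := (hreg θ).1 hU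
    obtain ⟨u, hu, hs⟩ := mem_nhdsGT_iff_exists_Ioo_subset.1 h1
    have hu' : θ < u := hu
    refine ⟨u - θ, by linarith, fun φ hφ k hk => hc k ?_⟩
    have h2 : P z φ ∈ U := hs ⟨hφ.1, by linarith [hφ.2]⟩
    rwa [(hvis k φ hk).1] at h2
  have hleft : ∀ θ, ∃ δ : ℝ, 0 < δ ∧ ∀ φ ∈ Ioo (θ - δ) θ, ∀ k, Sees p z k φ → c k = M z θ := by
    intro θ
    obtain ⟨U, hU, hc⟩ := gap c (M z θ)
    have h1 : ∀ᶠ φ in 𝓝[<] θ, M z φ ∈ U := (hreg θ).2.2.2 hU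
    obtain ⟨u, hu, hs⟩ := mem_nhdsLT_iff_exists_Ioo_subset.1 h1
    have hu' : u < θ := hu
    refine ⟨θ - u, by linarith, fun φ hφ k hk => hc k ?_⟩
    have h2 : M z φ ∈ U := hs ⟨by linarith [hφ.1], hφ.2⟩
    rwa [(hvis k φ hk).2] at h2
  refine ⟨perP, perM, hvis, hright, hleft, hd, ?_, ?_⟩
  · intro θ
    obtain ⟨δ, hδ, h⟩ := hright θ
    refine ⟨δ, hδ, fun φ hφ => ⟨?_, ?_⟩⟩
    · refine freq_val (hreg φ).1 (freq_right (δ := θ + δ) hφ.2 fun a b ha hab hbδ => ?_)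
      obtain ⟨x, hx, w, k, hv⟩ := hd a b hab
      refine ⟨x, hx, ?_⟩
      have hs : Sees p z k x := ⟨w, Or.inl hv⟩
      rw [(hvis k x hs).1]
      exact h x ⟨by linarith [hx.1, hφ.1], by linarith [hx.2]⟩ k hs
    · refine freq_val (hreg φ).2.2.2 (freq_left (δ := θ) hφ.1 fun a b ha hab hbδ => ?_)
      obtain ⟨x, hx, w, k, hv⟩ := hd a b hab
      refine ⟨x, hx, ?_⟩
      have hs : Sees p z k x := ⟨w, Or.inl hv⟩
      rw [(hvis k x hs).2]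
      exact h x ⟨by linarith [hx.1], by linarith [hx.2, hφ.2]⟩ k hs
  · intro θ
    obtain ⟨δ, hδ, h⟩ := hleft θ
    refine ⟨δ, hδ, fun φ hφ => ⟨?_, ?_⟩⟩
    · refine freq_val (hreg φ).1 (freq_right (δ := θ) hφ.2 fun a b ha hab hbδ => ?_)
      obtain ⟨x, hx, w, k, hv⟩ := hd a b hab
      refine ⟨x, hx, ?_⟩
      have hs : Sees p z k x := ⟨w, Or.inl hv⟩
      rw [(hvis k x hs).1]
      exact h x ⟨by linarith [hx.1, hφ.1], by linarith [hx.2]⟩ k hs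
    · refine freq_val (hreg φ).2.2.2 (freq_left (δ := θ - δ) hφ.1 fun a b ha hab hbδ => ?_)
      obtain ⟨x, hx, w, k, hv⟩ := hd a b hab
      refine ⟨x, hx, ?_⟩
      have hs : Sees p z k x := ⟨w, Or.inl hv⟩
      rw [(hvis k x hs).2]
      exact h x ⟨by linarith [hx.1], by linarith [hx.2, hφ.2]⟩ k hs

theorem typ_ae (hp : IsConvexPolygon p)
    (hir : ∀ j : Fin (n + 3), Irrational ((tau p j - tau p (j - 1)) / π))
    (hf : Measurable f) (hb : ∀ x, ‖f x‖ ≤ 1)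
    (hE : IsEigenfunction p 0 (fun _ => 1) f) {P M : ℂ → ℝ → ℂ} (hP : Sided p f 1 P)
    (hM : Sided p f (-1) M)
    (hreg : ∀ᵐ z : ℂ, z ∈ reg p → ∀ θ : ℝ, Tendsto (P z) (𝓝[>] θ) (𝓝 (P z θ)) ∧
        Tendsto (M z) (𝓝[>] θ) (𝓝 (P z θ)) ∧ Tendsto (P z) (𝓝[<] θ) (𝓝 (M z θ)) ∧
        Tendsto (M z) (𝓝[<] θ) (𝓝 (M z θ))) :
    ∃ c : Fin (n + 3) → ℂ, ∀ᵐ z : ℂ, z ∈ reg p → Typ p c P M z := by
  obtain ⟨c, hc⟩ := classes hp hir hf hb hE hP hM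
  refine ⟨c, ?_⟩
  filter_upwards [hP, hM, hreg, hc, vis_dense hp] with z h1 h2 h3 h4 h5 hz
  exact typ_of hE.periodic hf hb (h1 hz) (h2 hz) (h3 hz) (h4 hz) (h5 hz)

end Pool.Agent.Zk55.RF
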