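import Pool.Agent.Zk55.RF.Base

set_option autoImplicit false

/-!
Words of lines: convexity, periodicity, reversal, uniqueness, vertices.
-/

namespace Pool.Agent.Zk55.RF

open Complex Set MeasureTheory Filter Topology Pool.Agent.W780.PG Pool.Agent.W780.BB
  Pool.Agent.TH578.BE Pool.Agent.K3h17.BK Pool.Agent.Zk55.CF

open scoped Real ComplexConjugate

variable {n : ℕ} {p : Fin (n + 3) → ℂ}

theorem rf_left (hp : IsConvexPolygon p) (i : Fin (n + 3)) : rf p i (p i) = p i :=
  (Pool.Agent.W347.BB.ref n p hp).2.2.2.1 i _ (Pool.Agent.W174.PG.lft_left _ _)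

theorem rf_right (hp : IsConvexPolygon p) (i : Fin (n + 3)) : rf p i (p (i + 1)) = p (i + 1) :=
  (Pool.Agent.W347.BB.ref n p hp).2.2.2.1 i _ (Pool.Agent.W174.PG.lft_right _ _)

theorem ph_fl_left (hp : IsConvexPolygon p) (i : Fin (n + 3)) (x : ℝ × ℝ) :
    ph (fl p i x) (p i) = - ph x (p i) := by
  have := ph_fl (p := p) i x (p i)
  rwa [rf_left hp] at this

theorem ph_fl_right (hp : IsConvexPolygon p) (i : Fin (n + 3)) (x : ℝ × ℝ) :
    ph (fl p i x) (p (i + 1)) = - ph x (p (i + 1)) := by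
  have := ph_fl (p := p) i x (p (i + 1))
  rwa [rf_right hp] at this

/-! ### Periodicity in the direction -/

theorem ph_per (x : ℝ × ℝ) (m : ℤ) (y : ℂ) : ph (x.1 + 2 * π * m, x.2) y = ph x y := by
  unfold ph
  simp only [dir_int]

theorem fl_per (i : Fin (n + 3)) (x : ℝ × ℝ) (m : ℤ) :
    fl p i (x.1 + 2 * π * m, x.2) = ((fl p i x).1 + 2 * π * ((-m : ℤ) : ℝ), (fl p i x).2) := by
  have h : dir (2 * tau p i - (x.1 + 2 * π * m)) = dir (2 * tau p i - x.1) := by
    have e : 2 * tau p i - (x.1 + 2 * π * m) = 2 * tau p i - x.1 + 2 * π * ((-m : ℤ) : ℝ) := by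
      push_cast; ring
    rw [e, dir_int]
  unfold fl
  simp only
  rw [h, dir_int]
  ext
  · show _ = _
    push_cast
    ring
  · rfl

theorem fw_per (w : List (Fin (n + 3))) : ∀ (x : ℝ × ℝ) (m : ℤ),
    fw p w (x.1 + 2 * π * m, x.2) =
      ((fw p w x).1 + 2 * π * (((-1) ^ w.length * m : ℤ) : ℝ), (fw p w x).2) := by
  induction w with
  | nil => intro x m; simp [fw]
  | cons i w ih =>
    intro x m
    rw [fw, fl_per, ih, fw, List.length_cons, pow_succ]
    congr 3
    push_cast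
    ring

theorem RW_per (w : List (Fin (n + 3))) : ∀ (x : ℝ × ℝ) (m : ℤ),
    RW p w (x.1 + 2 * π * m, x.2) ↔ RW p w x := by
  induction w with
  | nil => intro x m; simp [RW]
  | cons i w ih =>
    intro x m
    rw [RW, RW, ph_per, ph_per, fl_per, ih]

/-! ### Convexity -/

theorem RW_between : ∀ (w : List (Fin (n + 3))) (θ a b c : ℝ), a ≤ b → b ≤ c → RW p w (θ, a) →
    RW p w (θ, c) → RW p w (θ, b) := by
  intro w
  induction w with
  | nil => intro θ a b c _ _ _ _; trivial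
  | cons i w ih =>
    intro θ a b c hab hbc h1 h2
    obtain ⟨a1, a2, a3⟩ := h1
    obtain ⟨b1, b2, b3⟩ := h2
    refine ⟨?_, ?_, ?_⟩
    · unfold ph at a1 ⊢
      simp only at a1 ⊢
      linarith
    · unfold ph at b2 ⊢
      simp only at b2 ⊢
      linarith
    · unfold fl at a3 b3 ⊢
      simp only at a3 b3 ⊢
      exact ih _ _ _ _ (by linarith) (by linarith) b3 a3

theorem RW_lb_between (w : List (Fin (n + 3))) (v : ℂ) (θ : ℝ) {a b c : ℝ} (hab : a ≤ b)
    (hbc : b ≤ c) (h1 : RW p w (lb v θ a)) (h2 : RW p w (lb v θ c)) : RW p w (lb v θ b) :=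
  RW_between w θ _ _ _ (by linarith) (by linarith) h1 h2

theorem RW_of_As {v : ℂ} {w : List (Fin (n + 3))} {r φ s : ℝ} (h : φ ∈ As p v w r)
    (hs : |s| ≤ r) : RW p w (lb v φ s) :=
  RW_lb_between w v φ (abs_le.1 hs).1 (abs_le.1 hs).2 h.2 h.1

theorem RW_prefix {u w : List (Fin (n + 3))} {x : ℝ × ℝ} (h : RW p (u ++ w) x) : RW p u x :=
  ((RW_append u w x).1 h).1

/-! ### Reversal -/

/-- The reversed line. -/
noncomputable def rv (x : ℝ × ℝ) : ℝ × ℝ := (x.1 + π, -x.2)

theorem ph_rv (x : ℝ × ℝ) (y : ℂ) : ph (rv x) y = - ph x y := by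
  unfold ph rv
  simp only
  rw [dirpi, map_neg, neg_mul, Complex.neg_im]
  ring

theorem tt_rv (x : ℝ × ℝ) (y : ℂ) : tt (rv x) y = - tt x y := by
  unfold tt rv
  simp only
  rw [dirpi, map_neg, neg_mul, Complex.neg_re]

theorem fl_fl (i : Fin (n + 3)) (x : ℝ × ℝ) : fl p i (fl p i x) = x := by
  unfold fl
  simp only
  ext
  · show _ = _
    ring
  · show _ = _
    rw [show 2 * tau p i - (2 * tau p i - x.1) = x.1 by ring]
    ring

theorem fl_rv (i : Fin (n + 3)) (x : ℝ × ℝ) :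
    fl p i (rv x) = ((rv (fl p i x)).1 + 2 * π * ((-1 : ℤ) : ℝ), (rv (fl p i x)).2) := by
  unfold fl rv
  simp only
  have h : dir (2 * tau p i - (x.1 + π)) = - dir (2 * tau p i - x.1) := by
    have := dirpi (2 * tau p i - (x.1 + π))
    rw [show 2 * tau p i - (x.1 + π) + π = 2 * tau p i - x.1 by ring] at this
    rw [this, neg_neg]
  rw [h, dirpi, map_neg, map_neg, neg_mul, neg_mul, Complex.neg_im, Complex.neg_im]
  ext
  · show _ = _
    push_cast
    ring
  · show _ = _
    ring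

/-- The reversed line crosses the sides in the reverse order and returns. -/
theorem RW_rev (hp : IsConvexPolygon p) (w : List (Fin (n + 3))) : ∀ x : ℝ × ℝ, RW p w x →
    RW p w.reverse (rv (fw p w x)) ∧
    ∃ m : ℤ, fw p w.reverse (rv (fw p w x)) = ((rv x).1 + 2 * π * m, (rv x).2) := by
  induction w with
  | nil =>
    intro x _
    exact ⟨trivial, 0, by simp [fw]⟩
  | cons i w ih =>
    intro x h
    obtain ⟨h1, h2, h3⟩ := h
    obtain ⟨k1, m, hm⟩ := ih _ h3
    rw [fw, List.reverse_cons]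
    refine ⟨?_, -m - 1, ?_⟩
    · rw [RW_append, hm]
      refine ⟨k1, ?_⟩
      rw [RW_per, RW, RW, ph_rv, ph_rv, ph_fl_left hp, ph_fl_right hp, neg_neg, neg_neg]
      exact ⟨h1, h2, trivial⟩
    · rw [fw_append, hm, fw, fw, fl_per, fl_rv, fl_fl]
      ext
      · show _ = _
        push_cast
        ring
      · rfl

theorem RW_reverse (w : List (Fin (n + 3))) (x : ℝ × ℝ) (hp : IsConvexPolygon p) (h : RW p w x) :
    RW p w.reverse ((fw p w x).1 + π, -(fw p w x).2) ∧
    ∃ m : ℤ, fw p w.reverse ((fw p w x).1 + π, -(fw p w x).2) = (x.1 + π + 2 * π * m, -x.2) :=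
  RW_rev hp w x h

/-- Backward uniqueness of the itinerary. -/
theorem back_uniq (hp : IsConvexPolygon p) (w w' : List (Fin (n + 3))) (x x' : ℝ × ℝ) (m : ℤ)
    (hl : w.length = w'.length) (h : RW p w x) (h' : RW p w' x')
    (he : fw p w x = ((fw p w' x').1 + 2 * π * m, (fw p w' x').2)) :
    w = w' ∧ ∃ m' : ℤ, x = (x'.1 + 2 * π * m', x'.2) := by
  obtain ⟨k1, m1, hm1⟩ := RW_rev hp w x h
  obtain ⟨k2, m2, hm2⟩ := RW_rev hp w' x' h'
  have e : rv (fw p w x) = ((rv (fw p w' x')).1 + 2 * π * m, (rv (fw p w' x')).2) := by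
    rw [he]
    unfold rv
    simp only
    ext
    · show _ = _
      ring
    · rfl
  have k3 : RW p w.reverse (rv (fw p w' x')) := by
    rw [e, RW_per] at k1
    exact k1
  have hw : w.reverse = w'.reverse := RW_uniq hp _ _ _ (by simp [hl]) k3 k2
  have hw' : w = w' := List.reverse_injective hw
  refine ⟨hw', ?_⟩
  subst hw'
  rw [e, fw_per, hm2] at hm1
  have h1 := congrArg Prod.fst hm1
  have h2 := congrArg Prod.snd hm1
  simp only [rv] at h1 h2
  refine ⟨m2 - m1 + (-1) ^ w.reverse.length * m, ?_⟩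
  ext
  · show x.1 = _
    push_cast at h1 ⊢
    linarith
  · show x.2 = x'.2
    linarith

/-! ### Entrance and exit -/

theorem side_pos (hp : IsConvexPolygon p) {i k : Fin (n + 3)} {Y : ℂ}
    (hY : Y ∈ openSegment ℝ (p i) (p (i + 1))) (h : k ≠ i) : 0 < sf p k Y :=
  (Pool.Agent.W174.PG.side_facts hp i (show Y ∈ side p i from hY)).2.2 k h

theorem side_zero (hp : IsConvexPolygon p) {i : Fin (n + 3)} {Y : ℂ}
    (hY : Y ∈ openSegment ℝ (p i) (p (i + 1))) : sf p i Y = 0 :=
  (Pool.Agent.W174.PG.side_facts hp i (show Y ∈ side p i from hY)).2.1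

theorem exit_pt (hp : IsConvexPolygon p) {x : ℝ × ℝ} {i : Fin (n + 3)} (h1 : ph x (p i) < 0)
    (h2 : 0 < ph x (p (i + 1))) : ∃ Y ∈ openSegment ℝ (p i) (p (i + 1)), ph x Y = 0 ∧
      (∀ z, ph x z = 0 → 0 < sf p i z → tt x z < tt x Y) ∧
      (∀ z, ph x z = 0 → 0 ≤ sf p i z → tt x z ≤ tt x Y) ∧
      (∀ z, ph x z = 0 → sf p i z ≤ 0 → tt x Y ≤ tt x z) := by
  obtain ⟨Y, hY, r, -, -, -, h3, -⟩ := cross hp h1 h2
  have h4 : ph x Y = 0 := by
    have := ph_shift x (Y - r • dir x.1) r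
    rw [sub_add_cancel] at this
    rw [this, h3]
  have hY0 := side_zero hp hY
  refine ⟨Y, hY, h4, fun z hz hs => ?_, fun z hz hs => ?_, fun z hz hs => ?_⟩
  all_goals
    have h5 := sf_on_line (p := p) i h4 hz
    rw [hY0] at h5
    by_contra hcon
    push Not at hcon
  · have := mul_nonneg (sub_nonneg.2 hcon) (show 0 ≤ ph x (p (i + 1)) - ph x (p i) by linarith)
    linarith
  · have := mul_pos (sub_pos.2 hcon) (show 0 < ph x (p (i + 1)) - ph x (p i) by linarith)
    linarith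
  · have := mul_neg_of_neg_of_pos (sub_neg.2 hcon)
      (show 0 < ph x (p (i + 1)) - ph x (p i) by linarith)
    linarith

theorem entry_pt (hp : IsConvexPolygon p) {x : ℝ × ℝ} {i : Fin (n + 3)} (h1 : 0 < ph x (p i))
    (h2 : ph x (p (i + 1)) < 0) : ∃ Y ∈ openSegment ℝ (p i) (p (i + 1)), ph x Y = 0 ∧
      (∀ z, ph x z = 0 → 0 < sf p i z → tt x Y < tt x z) ∧
      (∀ z, ph x z = 0 → 0 ≤ sf p i z → tt x Y ≤ tt x z) := by
  obtain ⟨Y, hY, h3, h4, h5, -⟩ := exit_pt hp (x := rv x) (i := i) (by rw [ph_rv]; linarith)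
    (by rw [ph_rv]; linarith)
  rw [ph_rv, neg_eq_zero] at h3
  refine ⟨Y, hY, h3, fun z hz hs => ?_, fun z hz hs => ?_⟩
  · have := h4 z (by rw [ph_rv, hz, neg_zero]) hs
    rw [tt_rv, tt_rv] at this
    linarith
  · have := h5 z (by rw [ph_rv, hz, neg_zero]) hs
    rw [tt_rv, tt_rv] at this
    linarith

/-- A vertex is not between two points of the open polygon or of other sides. -/
theorem btw (hp : IsConvexPolygon p) {x : ℝ × ℝ} {k : Fin (n + 3)} {A B : ℂ} (hA : ph x A = 0)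
    (hB : ph x B = 0) (hk : ph x (p k) = 0) (h1 : tt x A < tt x (p k)) (h2 : tt x (p k) < tt x B)
    (h3 : 0 < sf p k A) (h4 : 0 < sf p k B) : False := by
  have e1 := sf_on_line (p := p) k hA hk
  have e2 := sf_on_line (p := p) k hB hk
  have e3 : sf p k (p k) = 0 := Pool.Agent.W174.PG.lft_left _ _
  rw [e3] at e1 e2
  rcases le_or_gt 0 (ph x (p (k + 1)) - ph x (p k)) with h | h
  · have := mul_nonpos_of_nonpos_of_nonneg (show tt x (p k) - tt x B ≤ 0 by linarith) h
    linarith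
  · have := mul_nonpos_of_nonneg_of_nonpos (show 0 ≤ tt x (p k) - tt x A by linarith) h.le
    linarith

theorem last_entry (hp : IsConvexPolygon p) {u : List (Fin (n + 3))} (hu : u ≠ []) {x : ℝ × ℝ}
    (h : RW p u x) : ∃ i, 0 < ph (fw p u x) (p i) ∧ ph (fw p u x) (p (i + 1)) < 0 ∧
      ∃ v, u = v ++ [i] := by
  obtain ⟨v, i, rfl⟩ : ∃ v i, u = v ++ [i] := ⟨u.dropLast, u.getLast hu,
    (List.dropLast_append_getLast hu).symm⟩
  rw [RW_append] at h
  obtain ⟨-, h1, h2, -⟩ := h
  refine ⟨i, ?_, ?_, v, rfl⟩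
  · rw [fw_append, fw, fw, ph_fl_left hp]
    linarith
  · rw [fw_append, fw, fw, ph_fl_right hp]
    linarith

theorem no_vertex (hp : IsConvexPolygon p) {u w : List (Fin (n + 3))} (hu : u ≠ []) (hw : w ≠ [])
    {x : ℝ × ℝ} (h : RW p (u ++ w) x) (k : Fin (n + 3)) : ph x (uf p u (p k)) ≠ 0 := by
  obtain ⟨hr1, -⟩ := Pool.Agent.W347.BB.ref n p hp
  intro h0
  rw [RW_append] at h
  obtain ⟨hu', hw'⟩ := h
  obtain ⟨i', a1, a2, -⟩ := last_entry hp hu hu'
  obtain ⟨i, w', rfl⟩ : ∃ i w', w = i :: w' := by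
    cases w with
    | nil => exact absurd rfl hw
    | cons i w' => exact ⟨i, w', rfl⟩
  obtain ⟨b1, b2, -⟩ := hw'
  set y := fw p u x with hy
  have hk : ph y (p k) = 0 := by
    rw [hy, ph_fw hr1, h0, mul_zero]
  obtain ⟨Y, hY, hY0, hY1, -⟩ := exit_pt hp b1 b2
  obtain ⟨Y', hY', hY'0, hY'1, -⟩ := entry_pt hp a1 a2
  have n1 : k ≠ i := by rintro rfl; linarith
  have n2 : k ≠ i + 1 := by rintro rfl; linarith
  have n3 : k ≠ i' := by rintro rfl; linarith
  have n4 : k ≠ i' + 1 := by rintro rfl; linarith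
  exact btw hp hY'0 hY0 hk (hY'1 _ hk (hp.pos i' k n3 n4)) (hY1 _ hk (hp.pos i k n1 n2))
    (side_pos hp hY' n3) (side_pos hp hY n1)

theorem visAt_of (hp : IsConvexPolygon p) {z : ℂ} (hz : z ∈ reg p) {w : List (Fin (n + 3))}
    (hw : w ≠ []) {θ : ℝ} (h : RW p w (ln z θ)) {k : Fin (n + 3)}
    (hk : ph (ln z θ) (uf p w (p k)) = 0) : VisAt p z w k θ := by
  obtain ⟨hr1, -⟩ := Pool.Agent.W347.BB.ref n p hp
  obtain ⟨i, a1, a2, v, hv⟩ := last_entry hp hw h
  obtain ⟨y, hy, hy0⟩ := meets hp hw h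
  set x := ln z θ with hx
  have hk' : ph (fw p w x) (p k) = 0 := by
    rw [ph_fw hr1, hk, mul_zero]
  have n3 : k ≠ i := by rintro rfl; linarith
  have n4 : k ≠ i + 1 := by rintro rfl; linarith
  obtain ⟨Y', hY', hY'0, hY'1, -⟩ := entry_pt hp a1 a2
  refine ⟨h, hk, ?_, ?_⟩
  · rw [tt_rr, ← hx]
    subst hv
    have := ord hp i v x z (RW_WW _ _ h) (ph_ln_self z θ) (fun j => (hz j).le) k n3 n4 hk
    linarith
  · have h1 : tt (fw p w x) y < tt (fw p w x) (p k) := by
      by_contra hcon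
      push Not at hcon
      rcases hcon.eq_or_lt with h2 | h2
      · have h3 := on_line hk' hy0
        rw [h2, sub_self, zero_smul, add_zero] at h3
        have h4 : 0 < sf p k y := hy k
        rw [h3] at h4
        have e3 : sf p k (p k) = 0 := Pool.Agent.W174.PG.lft_left _ _
        linarith
      · exact btw hp hY'0 hy0 hk' (hY'1 _ hk' (hp.pos i k n3 n4)) h2 (side_pos hp hY' n3) (hy k)
    refine ⟨tt (fw p w x) (p k) - tt (fw p w x) y, by linarith, ?_⟩
    have h3 := on_line hk' hy0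
    have e : p k - (tt (fw p w x) (p k) - tt (fw p w x) y) • dir (fw p w x).1 = y := by
      conv_rhs => rw [h3]
      rw [sub_smul, sub_smul]
      abel
    rw [e]
    exact hy

/-- Strict form of `WW`: the line does not contain a side. -/
def WS (p : Fin (n + 3) → ℂ) : List (Fin (n + 3)) → ℝ × ℝ → Prop
  | [], _ => True
  | i :: w, x => ph x (p i) ≤ 0 ∧ 0 ≤ ph x (p (i + 1)) ∧ ph x (p i) < ph x (p (i + 1)) ∧
      WS p w (fl p i x)

theorem RW_WS (w : List (Fin (n + 3))) : ∀ x : ℝ × ℝ, RW p w x → WS p w x := by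
  induction w with
  | nil => intro x _; trivial
  | cons i w ih =>
    intro x h
    exact ⟨h.1.le, h.2.1.le, h.1.trans h.2.1, ih _ h.2.2⟩

/-- The order in which points are met. -/
theorem ord_pt (hp : IsConvexPolygon p) (u : List (Fin (n + 3))) (hu : u ≠ []) :
    ∀ (x : ℝ × ℝ) (y Y : ℂ), WS p u x → ph x y = 0 → (∀ j, 0 ≤ sf p j y) → (∀ j, 0 ≤ sf p j Y) →
      ph (fw p u x) Y = 0 → tt x y ≤ tt x (uf p u Y) := by
  obtain ⟨hr1, -, hr3, hr4, -⟩ := Pool.Agent.W347.BB.ref n p hp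
  induction u with
  | nil => exact absurd rfl hu
  | cons i u ih =>
    intro x y Y hW hy hyc hYc hY
    obtain ⟨w1, w2, w3, w4⟩ := hW
    -- the crossing point
    set D := ph x (p (i + 1)) - ph x (p i) with hD
    have hD0 : 0 < D := by linarith
    set s := - ph x (p i) / D with hs
    have hs0 : 0 ≤ s := div_nonneg (by linarith) hD0.le
    have hs1 : s ≤ 1 := by rw [hs, div_le_one hD0]; linarith
    have hval : ∀ j, sf p j ((1 - s) • p i + s • p (i + 1)) =
        (1 - s) * sf p j (p i) + s * sf p j (p (i + 1)) := fun j =>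
      Pool.Agent.W174.PG.lft_comb _ _ _ _ (by ring)
    set y' := (1 - s) • p i + s • p (i + 1) with hy'
    have hk0 : sf p i y' = 0 := by
      rw [hval]
      unfold sf
      rw [Pool.Agent.W174.PG.lft_left, Pool.Agent.W174.PG.lft_right]
      ring
    have hph : ph x y' = 0 := by
      rw [hy', ph_comb]
      have : s * D = - ph x (p i) := by rw [hs]; field_simp
      rw [hD] at this
      linarith
    have hyc' : ∀ j, 0 ≤ sf p j y' := by
      intro j
      rw [hval]
      have a1 : 0 ≤ sf p j (p i) := Pool.Agent.W174.PG.l_nonneg hp j i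
      have a2 : 0 ≤ sf p j (p (i + 1)) := Pool.Agent.W174.PG.l_nonneg hp j (i + 1)
      have a3 : 0 ≤ 1 - s := by linarith
      positivity
    have hr : rf p i y' = y' := hr4 i y' hk0
    have hlt : tt x y ≤ tt x y' := by
      have h3 := sf_on_line (p := p) i hy hph
      rw [hk0, ← hD] at h3
      have h4 := hyc i
      by_contra hcon
      push Not at hcon
      have : (tt x y' - tt x y) * D < 0 := mul_neg_of_neg_of_pos (by linarith) hD0
      linarith
    have hph' : ph (fl p i x) y' = 0 := by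
      have := ph_fl (p := p) i x y'
      rw [hr, hph, neg_zero] at this
      exact this
    by_cases hu' : u = []
    · subst hu'
      rw [fw, fw] at hY
      have e1 : uf p [i] Y = rf p i Y := rfl
      rw [e1]
      have h5 : ph x (rf p i Y) = 0 := by
        have := ph_fl (p := p) i x (rf p i Y)
        rw [hr1, hY] at this
        linarith
      have h6 := sf_on_line (p := p) i hph h5
      rw [hk0, ← hD, hr3] at h6
      have h7 := hYc i
      by_contra hcon
      push Not at hcon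
      have : (tt x (rf p i Y) - tt x y') * D < 0 := mul_neg_of_neg_of_pos (by linarith) hD0
      linarith
    · have h6 := ih hu' (fl p i x) y' Y w4 hph' hyc' hYc hY
      have h7 := tt_fl (p := p) i x (rf p i (uf p u Y)) y'
      rw [hr1, hr] at h7
      rw [uf]
      linarith

/-- The second coordinate of the folded line. -/
theorem fw_snd_aff (w : List (Fin (n + 3))) : ∀ (θ σ σ' : ℝ),
    (fw p w (θ, σ)).2 - (fw p w (θ, σ')).2 = (-1) ^ w.length * (σ - σ') ∧
      (fw p w (θ, σ)).1 = (fw p w (θ, σ')).1 := by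
  induction w with
  | nil => intro θ σ σ'; simp [fw]
  | cons i w ih =>
    intro θ σ σ'
    rw [fw, fw]
    unfold fl
    simp only
    obtain ⟨h1, h2⟩ := ih (2 * tau p i - θ) ((conj (dir θ) * p i).im +
      (conj (dir (2 * tau p i - θ)) * p i).im - σ) ((conj (dir θ) * p i).im +
      (conj (dir (2 * tau p i - θ)) * p i).im - σ')
    refine ⟨?_, h2⟩
    rw [h1, List.length_cons, pow_succ]
    ring

theorem fw_dir_sign (w : List (Fin (n + 3))) : ∀ (x : ℝ × ℝ) (δ : ℝ),
    (fw p w (x.1 + δ, x.2)).1 = (fw p w x).1 + (-1) ^ w.length * δ := by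
  induction w with
  | nil => intro x δ; simp [fw]
  | cons i w ih =>
    intro x δ
    rw [fw, fw]
    have h1 := ih (fl p i x) (-δ)
    have h2 : ∀ (w' : List (Fin (n + 3))) (a b b' : ℝ), (fw p w' (a, b)).1 = (fw p w' (a, b')).1 :=
      fun w' a b b' => (fw_snd_aff w' a b b').2
    have h3 : (fw p w (fl p i (x.1 + δ, x.2))).1 = (fw p w ((fl p i x).1 + -δ, (fl p i x).2)).1 := by
      have e : (fl p i (x.1 + δ, x.2)).1 = (fl p i x).1 + -δ := by
        unfold fl
        simp only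
        ring
      have := h2 w (fl p i (x.1 + δ, x.2)).1 (fl p i (x.1 + δ, x.2)).2 (fl p i x).2
      rw [e] at this
      have e2 : fl p i (x.1 + δ, x.2) = ((fl p i x).1 + -δ, (fl p i (x.1 + δ, x.2)).2) := by
        ext
        · exact e
        · rfl
      rw [e2]
      exact this
    rw [h3, h1, List.length_cons, pow_succ]
    ring

end Pool.Agent.Zk55.RF
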